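import Pool.Agent.T2h76Q.Ro
import Pool.Agent.T2h76.Wl2

/-! The Weyl sums for the roots of `ν ^ 2 - D`. -/

set_option autoImplicit false

namespace Pool.Agent.T2h76Q

open Finset
open Pool.Agent.T2h76 (wt)

/-- the Weyl sum -/
noncomputable def Ws (D : ℤ) (X L q : ℕ) (Θ j : ℤ) (Φ : ℕ → ℂ) : ℂ :=
  ∑ m ∈ Icc 1 X, ∑ ν ∈ Rt D m, wt L q Θ j Φ m ν

/-- the bound for the Weyl sums, and the number of the roots -/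
structure HasWeyl (D : ℤ) : Prop where
  nsq : ¬ IsSquare D
  card : ∃ C : ℝ, 0 < C ∧ ∀ X : ℕ, ∑ m ∈ Icc 1 X, ((Rt D m).card : ℝ) ≤ C * X
  weyl : ∀ ε : ℝ, 0 < ε → ∃ C : ℝ, 0 < C ∧ ∀ (M L q : ℕ) (Θ j : ℤ) (Φ : ℕ → ℂ) (B : ℝ),
    1 ≤ M → 1 ≤ L → 1 ≤ q → Nat.Coprime L q → (L : ℤ) ∣ Θ ^ 2 - D → j ≠ 0 → 0 ≤ B →
    (∀ m, ‖Φ m‖ ≤ B) → (∀ m, Φ m ≠ 0 → M ≤ 2 * m ∧ m ≤ 3 * M) →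
    (∀ m m' : ℕ, ‖Φ m - Φ m'‖ ≤ B / M * |(m : ℝ) - m'|) →
    ‖Ws D (3 * M) L q Θ j Φ‖ ≤ C * ((M : ℝ) * L * q * |(j : ℝ)|) ^ ε *
      (B * (1 + |(j : ℝ)| / (M * L * q))) * ((q : ℝ) ^ 2 * (M : ℝ) ^ (3 / 4 : ℝ) * Real.sqrt L *
        Real.sqrt (Nat.gcd L j.natAbs))

end Pool.Agent.T2h76Q
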