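import Pool.Agent.T2h76Q.Hw
import Pool.Agent.T2h76Q.Wl2

/-! The case `D = 2`. -/

set_option autoImplicit false

namespace Pool.Agent.T2h76Q

open Finset

theorem sum_card_Rt2 (X : ℕ) : ∑ m ∈ Icc 1 X, ((Rt 2 m).card : ℝ) ≤ 50 * X := by
  classical
  set Y := Nat.sqrt (25 * X) with hY
  have hY1 : 49 * X < 2 * (Y + 1) ^ 2 := by
    have := Nat.lt_succ_sqrt' (25 * X)
    have h2 : 25 * X < (Y + 1) ^ 2 := this
    omega
  have h1 := sum_roots X Y hY1 (fun _ _ => 1) (fun _ _ _ _ => rfl)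
  have h2 : ((∑ m ∈ Icc 1 X, ((Rt 2 m).card : ℝ) : ℝ) : ℂ) =
      ∑ m ∈ Icc 1 X, ∑ ν ∈ Rt 2 m, (1 : ℂ) := by
    push_cast
    apply Finset.sum_congr rfl
    intro m _
    simp
  have h3 : ∑ m ∈ Icc 1 X, ((Rt 2 m).card : ℝ) ≤ ‖((∑ m ∈ Icc 1 X, ((Rt 2 m).card : ℝ) : ℝ) : ℂ)‖ := by
    rw [Complex.norm_real]
    exact le_abs_self _
  refine h3.trans ?_
  rw [h2, h1]
  have h4 : ∀ y ∈ Icc 1 Y, ‖∑ x ∈ Ioc (10 * (y : ℤ) / 7) (2 * y),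
        (if IsCoprime x (y : ℤ) ∧ x ^ 2 - 2 * (y : ℤ) ^ 2 ≤ X then (1 : ℂ) else 0)‖ ≤ 2 * Y := by
    intro y hy
    rw [mem_Icc] at hy
    refine (norm_sum_le _ _).trans ?_
    have h5 : ∀ x ∈ Ioc (10 * (y : ℤ) / 7) (2 * y),
        ‖(if IsCoprime x (y : ℤ) ∧ x ^ 2 - 2 * (y : ℤ) ^ 2 ≤ X then (1 : ℂ) else 0)‖ ≤ 1 := by
      intro x _
      split_ifs <;> simp
    refine (Finset.sum_le_sum h5).trans ?_
    rw [Finset.sum_const, Int.card_Ioc, nsmul_eq_mul, mul_one]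
    have : (2 * (y : ℤ) - 10 * (y : ℤ) / 7).toNat ≤ 2 * Y := by omega
    exact_mod_cast this
  refine (norm_sum_le _ _).trans ((Finset.sum_le_sum h4).trans ?_)
  rw [Finset.sum_const, Nat.card_Icc, nsmul_eq_mul, Nat.add_sub_cancel]
  have h6 : Y ^ 2 ≤ 25 * X := Nat.sqrt_le' _
  have h7 : (Y : ℝ) ^ 2 ≤ 25 * X := by exact_mod_cast h6
  nlinarith

theorem hasWeyl2 : HasWeyl 2 where
  nsq := Int.prime_two.not_isSquare
  card := ⟨50, by norm_num, sum_card_Rt2⟩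
  weyl := by
    intro ε hε
    obtain ⟨C, hC, h⟩ := weyl ε hε
    refine ⟨C, hC, ?_⟩
    intro M L q Θ j Φ B hM hL hq hLq hΘ hj hB h1 h2 h3
    exact h M L q Θ j Φ B hM hL hq hLq hΘ hj hB h1 h2 h3

end Pool.Agent.T2h76Q
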