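import Pool.Agent.R498.QS

/-! The polynomial `X ^ 2 - 2`. -/

set_option autoImplicit false

namespace Pool.Agent.T2h76Q

open Polynomial
open Pool.Agent.W123.RU Pool.Agent.TH464.PW

/-- the system `X ^ 2 - 2` -/
theorem sysm2 : Poly.Sys (fun _ : Fin 1 => quad 1 0 (-2)) where
  irr := fun _ => Pool.Agent.R498.QS.irr_one (-2) (by
    rintro ⟨r, hr⟩
    norm_num at hr
    have h1 : r ≤ 2 := by nlinarith
    have h2 : -2 ≤ r := by nlinarith
    interval_cases r <;> omega)
  deg := fun _ => by rw [quad_deg 1 0 (-2) one_ne_zero]; norm_num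
  lead := fun _ => by rw [quad_lead 1 0 (-2) one_ne_zero]; norm_num
  inj := fun _ _ _ => Subsingleton.elim _ _
  adm := fun p hp => ⟨1, fun _ h => by
    rw [quad_eval] at h
    norm_num at h
    exact hp.one_lt.ne' (Nat.dvd_one.1 (by exact_mod_cast h))⟩

end Pool.Agent.T2h76Q
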