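import Pool.Agent.T2h76Q.Gm2
import Pool.Agent.T2h76.Gm4

/-! Products of at most two primes among the values of `n² + 1` in short intervals. -/

set_option autoImplicit false

namespace Pool.Agent.T2h76Q

open Finset Filter
open Pool.Agent.W23.DC
open Pool.Agent.Y882 (PZ tt_lt)
open Pool.Agent.Y882.KW (WW)
open Pool.Agent.Y882.SI (QF QF_eval)
open Pool.Agent.Y844.BT (cel cel_spec)

variable {D : ℤ}

open Classical in
theorem sq_bad (hD0 : D ≠ 0) (N H : ℕ) (P : Finset ℕ) (z : ℝ) (hz : 3 ≤ z) (hzD : (D.natAbs : ℝ) < z) (M : ℕ)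
    (hP : ∀ p ∈ P, p.Prime ∧ z ≤ p ∧ p ≤ M) :
    (((Ioc (N : ℤ) (N + H)).filter (fun n => ∃ p ∈ P, ((p ^ 2 : ℕ) : ℤ) ∣ n ^ 2 - D)).card : ℝ) ≤
      2 * H * ((1 + Real.log M) / z) + 2 * P.card := by
  have hz0 : 0 < z := by linarith
  have h1 : (Ioc (N : ℤ) (N + H)).filter (fun n => ∃ p ∈ P, ((p ^ 2 : ℕ) : ℤ) ∣ n ^ 2 - D) ⊆
      P.biUnion (fun p => ((Icc 1 H).filter (fun j : ℕ => ((p ^ 2 : ℕ) : ℤ) ∣
        (QF (-D)).eval ((N + j : ℕ) : ℤ))).image (fun j : ℕ => ((N + j : ℕ) : ℤ))) := by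
    intro n hn
    rw [mem_filter, mem_Ioc] at hn
    obtain ⟨⟨h2, h3⟩, p, hp, h4⟩ := hn
    rw [mem_biUnion]
    refine ⟨p, hp, ?_⟩
    rw [mem_image]
    refine ⟨(n - N).toNat, ?_, ?_⟩
    · rw [mem_filter, mem_Icc]
      refine ⟨⟨by omega, by omega⟩, ?_⟩
      have h5 : ((N + (n - N).toNat : ℕ) : ℤ) = n := by
        push_cast
        rw [Int.toNat_of_nonneg (by omega)]
        ring
      rw [h5, QF_eval]
      exact h4
    · push_cast
      rw [Int.toNat_of_nonneg (by omega)]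
      ring
  have h2 : (((Ioc (N : ℤ) (N + H)).filter (fun n => ∃ p ∈ P, ((p ^ 2 : ℕ) : ℤ) ∣ n ^ 2 - D)).card : ℝ) ≤
      ∑ p ∈ P, (2 : ℝ) * (H * (1 / (p : ℝ) ^ 2) + 1) := by
    calc (((Ioc (N : ℤ) (N + H)).filter (fun n => ∃ p ∈ P, ((p ^ 2 : ℕ) : ℤ) ∣ n ^ 2 - D)).card : ℝ) ≤
        ((∑ p ∈ P, (((Icc 1 H).filter (fun j : ℕ => ((p ^ 2 : ℕ) : ℤ) ∣
        (QF (-D)).eval ((N + j : ℕ) : ℤ))).image (fun j : ℕ => ((N + j : ℕ) : ℤ))).card : ℕ) : ℝ) := by
          exact_mod_cast (card_le_card h1).trans card_biUnion_le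
      _ = ∑ p ∈ P, ((((Icc 1 H).filter (fun j : ℕ => ((p ^ 2 : ℕ) : ℤ) ∣
        (QF (-D)).eval ((N + j : ℕ) : ℤ))).image (fun j : ℕ => ((N + j : ℕ) : ℤ))).card : ℝ) := by
          push_cast
          rfl
      _ ≤ _ := by
          apply sum_le_sum
          intro p hp
          obtain ⟨hpp, hpz, _⟩ := hP p hp
          have hp3 : 3 ≤ p := by exact_mod_cast hz.trans hpz
          have h3 := Pool.Agent.Y882.MG.sq_countS (-D) (by simpa using hD0) p hpp (by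
            show (-D).natAbs < p
            rw [Int.natAbs_neg]
            exact_mod_cast hzD.trans_le hpz) (by omega) N H
          refine le_trans ?_ h3
          exact_mod_cast card_image_le
  refine h2.trans ?_
  rw [← mul_sum, sum_add_distrib, sum_const, nsmul_eq_mul, mul_one, ← mul_sum]
  have h3 : ∑ p ∈ P, 1 / (p : ℝ) ^ 2 ≤ (1 + Real.log M) / z := by
    have h4 : ∀ p ∈ P, 1 / (p : ℝ) ^ 2 ≤ 1 / z * (1 / (p : ℝ)) := by
      intro p hp
      obtain ⟨hpp, hpz, _⟩ := hP p hp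
      have hp0 : (0 : ℝ) < p := by exact_mod_cast hpp.pos
      rw [pow_two, one_div, mul_inv, ← one_div]
      apply mul_le_mul_of_nonneg_right
      · exact one_div_le_one_div_of_le hz0 hpz
      · positivity
    have h5 : ∑ p ∈ P, 1 / (p : ℝ) ≤ 1 + Real.log M := by
      have h6 : ∑ p ∈ P, 1 / (p : ℝ) ≤ ∑ p ∈ Icc 1 M, 1 / (p : ℝ) := by
        apply sum_le_sum_of_subset_of_nonneg
        · intro p hp
          obtain ⟨hpp, _, h7⟩ := hP p hp
          rw [mem_Icc]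
          exact ⟨hpp.one_le, h7⟩
        · intro p _ _
          positivity
      refine h6.trans ?_
      have h7 := harmonic_le_one_add_log M
      rw [harmonic_eq_sum_Icc] at h7
      push_cast at h7
      simpa [one_div] using h7
    calc ∑ p ∈ P, 1 / (p : ℝ) ^ 2 ≤ ∑ p ∈ P, 1 / z * (1 / (p : ℝ)) := sum_le_sum h4
      _ = 1 / z * ∑ p ∈ P, 1 / (p : ℝ) := by rw [mul_sum]
      _ ≤ 1 / z * (1 + Real.log M) := mul_le_mul_of_nonneg_left h5 (by positivity)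
      _ = _ := by ring
  have h4 : (H : ℝ) * ∑ p ∈ P, 1 / (p : ℝ) ^ 2 ≤ H * ((1 + Real.log M) / z) :=
    mul_le_mul_of_nonneg_left h3 (Nat.cast_nonneg _)
  linarith

end Pool.Agent.T2h76Q
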