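import Pool.Agent.T2h76Q.Gm4
import Pool.Agent.T2h76.Gm5

/-! The number of the `n` in a short interval with `n² + 1` a product of at most two primes. -/

set_option autoImplicit false

namespace Pool.Agent.T2h76Q

open Pool.Agent.T2h76 (gw gw_pos gw_summable WWc Ce mem_Ce VV_ind WWc_le_one u0 WWc_imp Ce_pr C0 C0_nonneg to_count)

variable {D : ℤ}

open Finset Filter
open Pool.Agent.W23.DC
open Pool.Agent.Y882 (PZ tt_lt)
open Pool.Agent.Y882.KW (WW almost)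
open Pool.Agent.Y844.BT (cel cel_spec)

theorem one_el (hD : ¬ IsSquare D) (N : ℕ) (ϖ : ℝ) (nz nυ : ℕ) (hϖ : 0 < ϖ) (hϖ1 : ϖ ≤ 1 / 10000)
    (ez : ϖ * (nz + 1 / 2) = 11 * u0) (eυ : ϖ * (nυ + 1 / 2) = 45 * u0) (hN : 2 ≤ N)
    (hN5 : (5 : ℝ) ≤ (N : ℝ) ^ (1 / 10000 : ℝ)) (n : ℤ) (hn : |n ^ 2 - D| ≤ 5 * (N : ℤ) ^ 2)
    (hW : 0 < WWc (N ^ 2) ϖ 1.0172 (1.0172 / (45 * u0)) nz nυ (n ^ 2 - D).natAbs)
    (hsq : ¬ ∃ p ∈ Ce (N ^ 2) ϖ nz nυ, ((p ^ 2 : ℕ) : ℤ) ∣ n ^ 2 - D) :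
    (n ^ 2 - D).natAbs.primeFactorsList.length ≤ 2 ∧
      ∀ p : ℕ, p.Prime → (p : ℤ) ∣ n ^ 2 - D → (N : ℝ) ^ (6 / 25 : ℝ) ≤ p := by
  classical
  have hu0 : u0 = 1102 / 100000 := rfl
  have hNr : (2 : ℝ) ≤ N := by exact_mod_cast hN
  have hNp : (0 : ℝ) < N := by linarith
  have hX2 : 2 ≤ N ^ 2 := by nlinarith
  have hXp : ∀ s : ℝ, ((N ^ 2 : ℕ) : ℝ) ^ s = (N : ℝ) ^ (2 * s) := by
    intro s
    push_cast
    rw [← Real.rpow_natCast, ← Real.rpow_mul hNp.le]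
    norm_num
  have hnυ : 1 ≤ nυ := by
    by_contra h
    have h1 : nυ = 0 := by omega
    rw [h1, hu0] at eυ
    norm_num at eυ
    linarith
  have hζ : ϖ * nz = 11 * u0 - ϖ / 2 := by linarith
  have hυ : ϖ * nυ = 45 * u0 - ϖ / 2 := by linarith
  have h1 := WWc_imp (N ^ 2) hX2 ϖ hϖ nz nυ hnυ 1.0172 (45 * u0) eυ (by norm_num) _ hW
  have h2 := almost (N ^ 2) hX2 (ϖ * nz) (ϖ * nυ) 1.0172 1.00005 2 (by
      rw [hζ, hυ, hu0]
      norm_num) (by
      rw [hυ, hu0]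
      linarith) (by
      rw [hυ, hu0]
      linarith) (by norm_num) (by
      have h3 : (49585 / 100000 : ℝ) ≤ ϖ * nυ := by
        rw [hυ, hu0]
        linarith
      have h4 : (1.00005 : ℝ) / (ϖ * nυ) ≤ 1.00005 / (49585 / 100000) :=
        div_le_div_of_nonneg_left (by norm_num) (by norm_num) h3
      push_cast
      refine (add_le_add le_rfl h4).trans ?_
      norm_num) (n ^ 2 - D).natAbs (by
      intro h
      rw [Int.natAbs_eq_zero] at h
      exact hD ⟨n, by linarith [pow_two n]⟩) (by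
      rw [hXp]
      have h5 : (((n ^ 2 - D).natAbs : ℕ) : ℝ) = |(n : ℝ) ^ 2 - D| := by
        rw [Nat.cast_natAbs, Int.cast_abs]
        push_cast
        ring
      rw [h5]
      have h6 : |(n : ℝ) ^ 2 - D| ≤ 5 * (N : ℝ) ^ 2 := by exact_mod_cast hn
      refine h6.trans ?_
      have h7 : (2 * 1.00005 : ℝ) = (2 : ℕ) + 1 / 10000 := by norm_num
      rw [h7, Real.rpow_add hNp, Real.rpow_natCast, mul_comm]
      exact mul_le_mul_of_nonneg_left hN5 (by positivity)) h1 (by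
      intro q hq hq2
      rw [← Ce_pr (N ^ 2) hX2 ϖ hϖ nz nυ] at hq
      exact hsq ⟨q, hq, Int.natCast_dvd.2 hq2⟩)
  refine ⟨h2.1, ?_⟩
  intro p hp hpn
  refine le_trans ?_ (h2.2 p hp (Int.natCast_dvd.1 hpn))
  rw [hXp]
  apply Real.rpow_le_rpow_of_exponent_le (by linarith)
  rw [hζ, hu0]
  linarith

open Classical in
/-- the number of products of at most two primes in the intervals `(N, N + H]` -/
theorem count (hw : HasWeyl D) : ∃ (c : ℝ) (N1 : ℕ), 0 < c ∧ ∀ N H : ℕ, N1 ≤ N → H ≤ N →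
    (N : ℝ) ^ (999 / 1000 : ℝ) ≤ H → ∀ (q : ℕ) (u : ℤ), 1 ≤ q →
    (q : ℝ) ≤ (N : ℝ) ^ (1 / 50000 : ℝ) → (∀ p : ℕ, p.Prime → p ∣ q → ¬ (p : ℤ) ∣ u ^ 2 - D) →
    c * (H / (q * Real.log N)) ≤
      (((Ioc (N : ℤ) (N + H)).filter (fun n => (q : ℤ) ∣ n - u ∧
        (n ^ 2 - D).natAbs.primeFactorsList.length ≤ 2 ∧
        ∀ p : ℕ, p.Prime → (p : ℤ) ∣ n ^ 2 - D → (N : ℝ) ^ (6 / 25 : ℝ) ≤ p)).card : ℝ) := by
  obtain ⟨ϖ, nz, nυ, c0, N1, hϖ, hϖ1, ez, eυ, hc0, HL⟩ := low hw (1 / 10000) (by norm_num)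
  have hu0 : u0 = 1102 / 100000 := rfl
  have hC0 := C0_nonneg
  have hN : Tendsto (fun N : ℕ => (N : ℝ)) atTop atTop := tendsto_natCast_atTop_atTop
  have ev1 : ∀ᶠ N : ℕ in atTop, (5 : ℝ) ≤ (N : ℝ) ^ (1 / 10000 : ℝ) :=
    hN.eventually ((tendsto_rpow_atTop (by norm_num)).eventually_ge_atTop _)
  have hlog : ∀ (k : ℕ) (s A : ℝ), 0 < s → 0 < A → ∀ᶠ N : ℕ in atTop,
      A * Real.log N ^ k ≤ (N : ℝ) ^ s := by
    intro k s A hs hA
    have h1 : Tendsto (fun x : ℝ => Real.log x ^ (k : ℝ) / x ^ s) atTop (nhds 0) := by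
      have := isLittleO_log_rpow_rpow_atTop ((k : ℝ)) hs
      exact this.tendsto_div_nhds_zero
    have h2 := h1.eventually_le_const (show (0 : ℝ) < 1 / A by positivity)
    have h3 := hN.eventually (h2.and (eventually_gt_atTop (0 : ℝ)))
    filter_upwards [h3] with X hX
    obtain ⟨h4, h5⟩ := hX
    have h6 : (0 : ℝ) < (X : ℝ) ^ s := by positivity
    rw [div_le_div_iff₀ h6 hA, Real.rpow_natCast, one_mul] at h4
    linarith
  have ev2 := hlog 1 (1 / 10000) 4 (by norm_num) (by norm_num)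
  have ev3 := hlog 1 (1 / 2) (2 * (2 + C0) / c0) (by norm_num) (by positivity)
  have ev4 := hlog 2 (2 / 1000) (192 * (1 + C0) / c0 + 1) (by norm_num) (by positivity)
  have hD0 : D ≠ 0 := by
    rintro rfl
    exact hw.nsq ⟨0, by ring⟩
  have ev6 : ∀ᶠ N : ℕ in atTop, (D.natAbs : ℝ) < (N : ℝ) ^ (6 / 25 : ℝ) :=
    hN.eventually ((tendsto_rpow_atTop (by norm_num)).eventually_gt_atTop _)
  obtain ⟨N2, hN2⟩ := eventually_atTop.1 (ev1.and (ev2.and (ev3.and (ev4.and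
    ((eventually_ge_atTop 100).and (ev6.and (eventually_ge_atTop D.natAbs)))))))
  refine ⟨c0 / (16 * (1 + C0)), max N1 N2, by positivity, ?_⟩
  intro N H hNN hHN hH q u hq1 hqN hu
  obtain ⟨e1, e2, e3, e4, e5, e6, e7⟩ := hN2 N ((le_max_right _ _).trans hNN)
  rw [pow_one] at e2 e3
  have hNr : (100 : ℝ) ≤ N := by exact_mod_cast e5
  have hNp : (0 : ℝ) < N := by linarith
  have hN1r : (1 : ℝ) ≤ N := by linarith
  have hL2 : 2 ≤ Real.log N := by
    rw [Real.le_log_iff_exp_le hNp]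
    have h1 := Real.exp_one_lt_d9
    have h2 : Real.exp 2 = Real.exp 1 * Real.exp 1 := by rw [← Real.exp_add]; norm_num
    rw [h2]
    have h3 := Real.exp_pos 1
    nlinarith
  have hlN : 0 < Real.log N := by linarith
  have hqr : (1 : ℝ) ≤ q := by exact_mod_cast hq1
  have hHr : (H : ℝ) ≤ N := by exact_mod_cast hHN
  have hX2 : 2 ≤ N ^ 2 := by nlinarith
  set Y : ℝ := (N : ℝ) ^ (9989 / 10000 : ℝ) with hY
  have hY1 : 1 ≤ Y := Real.one_le_rpow hN1r (by norm_num)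
  have hY0 : 0 < Y := by linarith
  have hYN : Y ≤ N := by
    calc Y ≤ (N : ℝ) ^ (1 : ℝ) := Real.rpow_le_rpow_of_exponent_le hN1r (by norm_num)
      _ = N := Real.rpow_one _
  have hYH : 4 * Real.log N * Y ≤ H := by
    refine le_trans ?_ hH
    calc 4 * Real.log N * Y ≤ (N : ℝ) ^ (1 / 10000 : ℝ) * Y := mul_le_mul_of_nonneg_right e2 hY0.le
      _ = (N : ℝ) ^ (999 / 1000 : ℝ) := by
          rw [hY, ← Real.rpow_add hNp]
          norm_num
  have hXp : ∀ s : ℝ, ((N ^ 2 : ℕ) : ℝ) ^ s = (N : ℝ) ^ (2 * s) := by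
    intro s
    push_cast
    rw [← Real.rpow_natCast, ← Real.rpow_mul hNp.le]
    norm_num
  have hH0 : 0 < (H : ℝ) := lt_of_lt_of_le (by positivity) hH
  set J : ℕ := ⌊(H : ℝ) / (2 * Y)⌋₊ with hJ
  have hHY1 : 1 ≤ (H : ℝ) / (2 * Y) := by
    rw [one_le_div (by positivity)]
    nlinarith
  have hJ1 : (J : ℝ) ≤ (H : ℝ) / (2 * Y) := Nat.floor_le (by positivity)
  have hJ2 : (H : ℝ) / (4 * Y) ≤ J := by
    have h1 := Nat.lt_floor_add_one ((H : ℝ) / (2 * Y))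
    have h2 : 1 ≤ J := Nat.le_floor (by exact_mod_cast hHY1)
    have h3 : (1 : ℝ) ≤ J := by exact_mod_cast h2
    have h4 : (H : ℝ) / (4 * Y) = (H : ℝ) / (2 * Y) / 2 := by
      field_simp
      ring
    rw [h4]
    linarith
  have hJY : (J : ℝ) * Y ≤ H / 2 := by
    calc (J : ℝ) * Y ≤ (H : ℝ) / (2 * Y) * Y := mul_le_mul_of_nonneg_right hJ1 hY0.le
      _ = H / 2 := by field_simp
  obtain ⟨F, hF⟩ : ∃ F : ℤ → Prop, ∀ n, F n ↔ ((q : ℤ) ∣ n - u ∧
    0 < WWc (N ^ 2) ϖ 1.0172 (1.0172 / (45 * u0)) nz nυ (n ^ 2 - D).natAbs) :=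
    ⟨_, fun n => Iff.rfl⟩
  have h1 := to_count N H Y (Real.log N) hY1 hlN.le J (by nlinarith) F
    (c0 * (Y / (q * Real.log N))) (by
    intro j hj
    have hjJ : (j : ℝ) ≤ J := by exact_mod_cast hj.le
    have hjY : (j : ℝ) * Y ≤ J * Y := mul_le_mul_of_nonneg_right hjJ hY0.le
    have h9 := HL N ((le_max_left _ _).trans hNN) ((N : ℝ) + Y * Real.log N + j * Y) (by
      rw [abs_of_nonneg (by positivity)]
      nlinarith) q u hq1 hqN hu
    refine h9.trans (le_of_eq (tsum_congr fun n => ?_))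
    by_cases h10 : F n
    · rw [if_pos h10, if_pos ((hF n).1 h10)]
    · rw [if_neg h10, if_neg (fun h => h10 ((hF n).2 h))])
  have htail : Real.exp (-(Real.pi / 2 * Real.log N ^ 2)) * (2 * Y + C0) ≤ c0 / 2 * (Y / (q * Real.log N)) := by
    have h2 : Real.exp (-(Real.pi / 2 * Real.log N ^ 2)) ≤ (1 / N) * (1 / N) := by
      have h3 : (1 / N : ℝ) * (1 / N) = Real.exp (-(Real.log N + Real.log N)) := by
        rw [Real.exp_neg, Real.exp_add, Real.exp_log hNp, mul_inv, one_div]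
      rw [h3, Real.exp_le_exp]
      have h4 := Real.pi_gt_three
      nlinarith
    have h3 : 2 * Y + C0 ≤ (2 + C0) * N := by nlinarith
    have h4 : Real.exp (-(Real.pi / 2 * Real.log N ^ 2)) * (2 * Y + C0) ≤ (1 / N) * (1 / N) * ((2 + C0) * N) :=
      mul_le_mul h2 h3 (by positivity) (by positivity)
    refine h4.trans ?_
    have h5 : (1 / N : ℝ) * (1 / N) * ((2 + C0) * N) = (2 + C0) / N := by
      field_simp
    rw [h5]
    have h6 : c0 / 2 * (Y / (q * Real.log N)) = (c0 * Y) / (2 * q * Real.log N) := by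
      field_simp
    rw [h6, div_le_div_iff₀ hNp (by positivity)]
    have h7 : 2 * (2 + C0) * Real.log N ≤ c0 * (N : ℝ) ^ (1 / 2 : ℝ) := by
      have h8 : 2 * (2 + C0) / c0 * Real.log N * c0 ≤ (N : ℝ) ^ (1 / 2 : ℝ) * c0 :=
        mul_le_mul_of_nonneg_right e3 hc0.le
      have h9 : 2 * (2 + C0) / c0 * Real.log N * c0 = 2 * (2 + C0) * Real.log N := by
        field_simp
      linarith
    have h8 : (q : ℝ) * (N : ℝ) ^ (1 / 2 : ℝ) ≤ Y * N := by
      calc (q : ℝ) * (N : ℝ) ^ (1 / 2 : ℝ) ≤ (N : ℝ) ^ (1 / 50000 : ℝ) * (N : ℝ) ^ (1 / 2 : ℝ) :=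
            mul_le_mul_of_nonneg_right hqN (by positivity)
        _ = (N : ℝ) ^ (1 / 50000 + 1 / 2 : ℝ) := by rw [Real.rpow_add hNp]
        _ ≤ (N : ℝ) ^ (9989 / 10000 + 1 : ℝ) :=
            Real.rpow_le_rpow_of_exponent_le hN1r (by norm_num)
        _ = Y * N := by rw [Real.rpow_add hNp, Real.rpow_one]
    calc (2 + C0) * (2 * q * Real.log N) = (2 * (2 + C0) * Real.log N) * q := by ring
      _ ≤ (c0 * (N : ℝ) ^ (1 / 2 : ℝ)) * q := mul_le_mul_of_nonneg_right h7 (by positivity)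
      _ = c0 * (q * (N : ℝ) ^ (1 / 2 : ℝ)) := by ring
      _ ≤ c0 * (Y * N) := mul_le_mul_of_nonneg_left h8 hc0.le
      _ = c0 * Y * N := by ring
  set I : Finset ℤ := Ioc (N : ℤ) (N + H) with hI
  have h2 : c0 / 8 * (H / (q * Real.log N)) ≤ (1 + C0) * ((I.filter F).card : ℝ) := by
    refine le_trans ?_ h1
    have h3 : c0 / 2 * (Y / (q * Real.log N)) ≤ c0 * (Y / (q * Real.log N)) -
        Real.exp (-(Real.pi / 2 * Real.log N ^ 2)) * (2 * Y + C0) := by linarith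
    calc c0 / 8 * (H / (q * Real.log N)) = (H : ℝ) / (4 * Y) * (c0 / 2 * (Y / (q * Real.log N))) := by
          field_simp
          ring
      _ ≤ J * (c0 * (Y / (q * Real.log N)) -
        Real.exp (-(Real.pi / 2 * Real.log N ^ 2)) * (2 * Y + C0)) :=
          mul_le_mul hJ2 h3 (by positivity) (by positivity)
  -- the squares
  set P : Finset ℕ := Ce (N ^ 2) ϖ nz nυ with hP
  set B : Finset ℤ := I.filter (fun n => ∃ p ∈ P, ((p ^ 2 : ℕ) : ℤ) ∣ n ^ 2 - D) with hB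
  have hz3 : (3 : ℝ) ≤ (N : ℝ) ^ (6 / 25 : ℝ) := by
    calc (3 : ℝ) ≤ (100 : ℝ) ^ (6 / 25 : ℝ) := by
          have h3 : (3 : ℝ) = ((3 : ℝ) ^ (25 : ℝ)) ^ (1 / 25 : ℝ) := by
            rw [← Real.rpow_mul (by norm_num)]
            norm_num
          have h4 : (100 : ℝ) ^ (6 / 25 : ℝ) = ((100 : ℝ) ^ (6 : ℝ)) ^ (1 / 25 : ℝ) := by
            rw [← Real.rpow_mul (by norm_num)]
            norm_num
          rw [h3, h4]
          apply Real.rpow_le_rpow (by positivity) _ (by norm_num)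
          norm_num
      _ ≤ _ := Real.rpow_le_rpow (by norm_num) hNr (by norm_num)
  have hPp : ∀ p ∈ P, p.Prime ∧ (N : ℝ) ^ (6 / 25 : ℝ) ≤ p ∧ p ≤ N ^ 2 := by
    intro p hp
    have hp' := mem_Ce.1 hp
    refine ⟨hp'.2.1, ?_, hp'.1.2⟩
    refine le_trans ?_ (cel_spec (N ^ 2) hX2 ϖ hϖ p hp'.1.1).1
    rw [hXp]
    apply Real.rpow_le_rpow_of_exponent_le hN1r
    have h3 : ϖ * nz ≤ ϖ * cel (N ^ 2) ϖ p := by
      apply mul_le_mul_of_nonneg_left _ hϖ.le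
      exact_mod_cast hp'.2.2.1
    have h4 : ϖ * nz = 11 * u0 - ϖ / 2 := by linarith
    rw [hu0] at h4
    linarith
  have hBc := sq_bad (D := D) hD0 N H P ((N : ℝ) ^ (6 / 25 : ℝ)) hz3 e6 (N ^ 2) hPp
  rw [← hI, ← hB] at hBc
  have hPc : (P.card : ℝ) ≤ (N : ℝ) ^ (992 / 1000 : ℝ) := by
    have h3 : P ⊆ Icc 1 ⌊(N : ℝ) ^ (992 / 1000 : ℝ)⌋₊ := by
      intro p hp
      have hp' := mem_Ce.1 hp
      rw [mem_Icc]
      refine ⟨hp'.1.1, Nat.le_floor ?_⟩
      refine (cel_spec (N ^ 2) hX2 ϖ hϖ p hp'.1.1).2.1.le.trans ?_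
      rw [hXp]
      apply Real.rpow_le_rpow_of_exponent_le hN1r
      have h3 : ϖ * ((cel (N ^ 2) ϖ p : ℝ) + 1) ≤ ϖ * nυ := by
        apply mul_le_mul_of_nonneg_left _ hϖ.le
        exact_mod_cast hp'.2.2.2
      have h4 : ϖ * nυ = 45 * u0 - ϖ / 2 := by linarith
      rw [hu0] at h4
      linarith
    have h4 := card_le_card h3
    rw [Nat.card_Icc, Nat.add_sub_cancel] at h4
    calc (P.card : ℝ) ≤ (⌊(N : ℝ) ^ (992 / 1000 : ℝ)⌋₊ : ℝ) := by exact_mod_cast h4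
      _ ≤ _ := Nat.floor_le (by positivity)
  have hBb : (1 + C0) * (B.card : ℝ) ≤ c0 / 16 * (H / (q * Real.log N)) := by
    have h3 : Real.log ((N ^ 2 : ℕ) : ℝ) = 2 * Real.log N := by
      push_cast
      rw [Real.log_pow]
      norm_num
    rw [h3] at hBc
    set V : ℝ := (N : ℝ) ^ (2 / 1000 : ℝ) with hV
    have hV0 : 0 < V := by positivity
    -- both terms are at most `H / (q V²)`-ish
    have h4 : (1 + 2 * Real.log N) / (N : ℝ) ^ (6 / 25 : ℝ) ≤ 3 * Real.log N * (1 / (q * V)) := by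
      rw [mul_one_div, div_le_div_iff₀ (by positivity) (by positivity)]
      have h5 : (q : ℝ) * V ≤ (N : ℝ) ^ (6 / 25 : ℝ) := by
        calc (q : ℝ) * V ≤ (N : ℝ) ^ (1 / 50000 : ℝ) * V := mul_le_mul_of_nonneg_right hqN hV0.le
          _ = (N : ℝ) ^ (1 / 50000 + 2 / 1000 : ℝ) := by rw [Real.rpow_add hNp]
          _ ≤ _ := Real.rpow_le_rpow_of_exponent_le hN1r (by norm_num)
      apply mul_le_mul (by linarith) h5 (by positivity) (by positivity)
    have h5 : (P.card : ℝ) ≤ H * (1 / (q * V)) := by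
      refine hPc.trans ?_
      rw [mul_one_div, le_div_iff₀ (by positivity)]
      calc (N : ℝ) ^ (992 / 1000 : ℝ) * (q * V) ≤
          (N : ℝ) ^ (992 / 1000 : ℝ) * ((N : ℝ) ^ (1 / 50000 : ℝ) * V) := by
            apply mul_le_mul_of_nonneg_left _ (by positivity)
            exact mul_le_mul_of_nonneg_right hqN hV0.le
        _ = (N : ℝ) ^ (992 / 1000 + (1 / 50000 + 2 / 1000) : ℝ) := by
            rw [Real.rpow_add hNp, Real.rpow_add hNp]
        _ ≤ (N : ℝ) ^ (999 / 1000 : ℝ) := Real.rpow_le_rpow_of_exponent_le hN1r (by norm_num)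
        _ ≤ H := hH
    have h6 : (B.card : ℝ) ≤ 12 * Real.log N * (H * (1 / (q * V))) := by
      have h7 : 2 * (H : ℝ) * ((1 + 2 * Real.log N) / (N : ℝ) ^ (6 / 25 : ℝ)) ≤
          2 * H * (3 * Real.log N * (1 / (q * V))) := mul_le_mul_of_nonneg_left h4 (by positivity)
      have h8 : (H : ℝ) * (1 / (q * V)) ≤ Real.log N * (H * (1 / (q * V))) := by
        have : 0 ≤ (H : ℝ) * (1 / (q * V)) := by positivity
        nlinarith
      have h9 : 0 ≤ Real.log N * (H * (1 / (q * V))) := by positivity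
      linarith
    have h7 : 192 * (1 + C0) * Real.log N ^ 2 ≤ c0 * V := by
      have h8 : (192 * (1 + C0) / c0 + 1) * Real.log N ^ 2 * c0 ≤ V * c0 :=
        mul_le_mul_of_nonneg_right e4 hc0.le
      have h9 : (192 * (1 + C0) / c0 + 1) * Real.log N ^ 2 * c0 =
          192 * (1 + C0) * Real.log N ^ 2 + c0 * Real.log N ^ 2 := by
        field_simp
      have h10 : 0 ≤ c0 * Real.log N ^ 2 := by positivity
      linarith
    calc (1 + C0) * (B.card : ℝ) ≤ (1 + C0) * (12 * Real.log N * (H * (1 / (q * V)))) :=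
          mul_le_mul_of_nonneg_left h6 (by positivity)
      _ = (192 * (1 + C0) * Real.log N ^ 2) * (H / (16 * q * Real.log N * V)) := by
          field_simp
          ring
      _ ≤ (c0 * V) * (H / (16 * q * Real.log N * V)) := mul_le_mul_of_nonneg_right h7 (by positivity)
      _ = _ := by field_simp
  have hsub : I.filter F ⊆ B ∪ I.filter (fun n => (q : ℤ) ∣ n - u ∧
        (n ^ 2 - D).natAbs.primeFactorsList.length ≤ 2 ∧
        ∀ p : ℕ, p.Prime → (p : ℤ) ∣ n ^ 2 - D → (N : ℝ) ^ (6 / 25 : ℝ) ≤ p) := by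
    intro n hn
    rw [mem_filter, hF] at hn
    rw [mem_union]
    by_cases hnB : n ∈ B
    · exact Or.inl hnB
    · right
      rw [mem_filter]
      refine ⟨hn.1, hn.2.1, ?_⟩
      rw [hI, mem_Ioc] at hn
      apply one_el hw.nsq N ϖ nz nυ hϖ hϖ1 ez eυ (by omega) e1 n _ hn.2.2
      · intro h
        exact hnB (mem_filter.2 ⟨by rw [hI, mem_Ioc]; exact hn.1, h⟩)
      · obtain ⟨⟨h3, h4⟩, _⟩ := hn
        have h5 : n ≤ 2 * N := by omega
        have h6 : (0 : ℤ) ≤ n := by omega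
        have h7 : n * n ≤ (2 * N) * (2 * N) := mul_le_mul h5 h5 h6 (by omega)
        have h8 : (100 : ℤ) ≤ N := by exact_mod_cast e5
        have h9 : |D| ≤ N := by
          rw [Int.abs_eq_natAbs]
          exact_mod_cast e7
        rw [abs_le] at h9 ⊢
        constructor
        · nlinarith
        · nlinarith
  have hcard : ((I.filter F).card : ℝ) ≤ B.card + ((I.filter (fun n => (q : ℤ) ∣ n - u ∧
        (n ^ 2 - D).natAbs.primeFactorsList.length ≤ 2 ∧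
        ∀ p : ℕ, p.Prime → (p : ℤ) ∣ n ^ 2 - D → (N : ℝ) ^ (6 / 25 : ℝ) ≤ p)).card : ℝ) := by
    exact_mod_cast (card_le_card hsub).trans (card_union_le _ _)
  have h10 : (1 + C0) * ((I.filter F).card : ℝ) ≤ (1 + C0) * (B.card + ((I.filter (fun n => (q : ℤ) ∣ n - u ∧
        (n ^ 2 - D).natAbs.primeFactorsList.length ≤ 2 ∧
        ∀ p : ℕ, p.Prime → (p : ℤ) ∣ n ^ 2 - D → (N : ℝ) ^ (6 / 25 : ℝ) ≤ p)).card : ℝ)) :=
    mul_le_mul_of_nonneg_left hcard (by positivity)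
  have h11 : c0 / (16 * (1 + C0)) * (H / (q * Real.log N)) * (1 + C0) = c0 / 16 * (H / (q * Real.log N)) := by
    field_simp
  have h12 : c0 / (16 * (1 + C0)) * (H / (q * Real.log N)) * (1 + C0) ≤
      ((I.filter (fun n => (q : ℤ) ∣ n - u ∧
        (n ^ 2 - D).natAbs.primeFactorsList.length ≤ 2 ∧
        ∀ p : ℕ, p.Prime → (p : ℤ) ∣ n ^ 2 - D → (N : ℝ) ^ (6 / 25 : ℝ) ≤ p)).card : ℝ) * (1 + C0) := by
    rw [h11]
    linarith
  exact le_of_mul_le_mul_right h12 (by positivity)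

end Pool.Agent.T2h76Q
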