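import Pool.Agent.T2h76.Ks2
import Pool.Agent.T2h76Q.Rt2

/-! The complete sums attached to the roots of `ν ^ 2 - D`. -/

set_option autoImplicit false

namespace Pool.Agent.T2h76Q

open Finset Pool.Agent.H442R2.KF.TaskB Pool.Agent.TH43.LK
open Pool.Agent.T2h76 (char_down restrict isUnit_iff_gcd restrict_cop inv_cast base_bd)

/-- a good rotation -/
theorem exT0 (D : ℤ) (q : ℕ) (hq : 0 < q) (x y : ℤ) (h : IsCoprime (q : ℤ) (x ^ 2 - D * y ^ 2)) :
    ∃ T : ℤ, IsCoprime (q : ℤ) (x + T * y) := by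
  classical
  set S : Finset ℕ := q.primeFactors.filter (fun p : ℕ => ¬ (p : ℤ) ∣ x) with hS
  refine ⟨((∏ p ∈ S, p : ℕ) : ℤ), ?_⟩
  rw [Int.isCoprime_iff_gcd_eq_one]
  by_contra hc
  obtain ⟨p, hp, hpd⟩ := Nat.exists_prime_and_dvd hc
  have hp1 : (p : ℤ) ∣ (q : ℤ) := (Int.natCast_dvd_natCast.2 hpd).trans (Int.gcd_dvd_left ..)
  have hp2 : (p : ℤ) ∣ x + ((∏ p ∈ S, p : ℕ) : ℤ) * y :=
    (Int.natCast_dvd_natCast.2 hpd).trans (Int.gcd_dvd_right ..)
  have hpp : Prime (p : ℤ) := Nat.prime_iff_prime_int.1 hp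
  have hpq : p ∣ q := by exact_mod_cast hp1
  have hnot : ¬ (p : ℤ) ∣ x ^ 2 - D * y ^ 2 := by
    intro h1
    have h2 : (p : ℤ) ∣ 1 := by
      obtain ⟨a, b, hab⟩ := h
      rw [← hab]
      exact dvd_add (hp1.mul_left _) (h1.mul_left _)
    exact hpp.not_isUnit (isUnit_of_dvd_one h2)
  by_cases hx : (p : ℤ) ∣ x
  · have h1 : (p : ℤ) ∣ ((∏ p ∈ S, p : ℕ) : ℤ) * y := (dvd_add_right hx).1 hp2
    rcases hpp.dvd_or_dvd h1 with h2 | h2
    · have h3 : p ∣ ∏ p ∈ S, p := by exact_mod_cast h2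
      rw [hp.prime.dvd_finsetProd_iff] at h3
      obtain ⟨r, hr, hpr⟩ := h3
      rw [hS, mem_filter] at hr
      have h4 : p = r := (Nat.prime_dvd_prime_iff_eq hp (Nat.prime_of_mem_primeFactors hr.1)).1 hpr
      rw [← h4] at hr
      exact hr.2 hx
    · exact hnot (dvd_sub (dvd_pow hx two_ne_zero) ((dvd_pow h2 two_ne_zero).mul_left _))
  · have h1 : p ∈ S := by
      rw [hS, mem_filter, Nat.mem_primeFactors]
      exact ⟨⟨hp, hpq, hq.ne'⟩, hx⟩
    have h2 : (p : ℤ) ∣ ((∏ p ∈ S, p : ℕ) : ℤ) := by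
      exact_mod_cast dvd_prod_of_mem (fun p => p) h1
    exact hx ((dvd_add_left (h2.mul_right _)).1 hp2)

theorem exT (D : ℤ) (L q : ℕ) (hq : 0 < q) (hLq : Nat.Coprime L q) (Θ : ℤ) (hΘ : (L : ℤ) ∣ Θ ^ 2 - D)
    (x y : ℤ) (h : IsCoprime (q : ℤ) (x ^ 2 - D * y ^ 2)) :
    ∃ T a1 a2 : ℤ, IsCoprime (q : ℤ) (x + T * y) ∧ T - Θ = L * a1 ∧ T * Θ - D = L * a2 := by
  obtain ⟨T0, hT0⟩ := exT0 D q hq x y h
  obtain ⟨s, t, hst⟩ := Nat.isCoprime_iff_coprime.mpr hLq
  obtain ⟨b, hb⟩ := hΘ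
  refine ⟨Θ + L * s * (T0 - Θ), s * (T0 - Θ), b + s * (T0 - Θ) * Θ, ?_, by ring, ?_⟩
  · have e : x + (Θ + L * s * (T0 - Θ)) * y = (x + T0 * y) + q * (t * (Θ - T0) * y) := by
      have : (L : ℤ) * s = 1 - t * q := by linarith
      rw [this]; ring
    rw [e]
    exact hT0.add_mul_left_right _
  · have e : (Θ + L * s * (T0 - Θ)) * Θ - D = (Θ ^ 2 - D) + L * (s * (T0 - Θ) * Θ) := by ring
    rw [e, hb]; ring

open Classical in
/-- the phase as a function of `x` modulo `N = y L q` -/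
noncomputable def phi (D : ℤ) (N : ℕ) [NeZero N] (y Θ j : ℤ) : ZMod N → ℂ := fun u =>
  if IsUnit (u ^ 2 - (D : ZMod N) * (y : ZMod N) ^ 2) then
    ZMod.stdAddChar (-(j : ZMod N) * ((u - (Θ : ZMod N) * (y : ZMod N)) *
      (u ^ 2 - (D : ZMod N) * (y : ZMod N) ^ 2)⁻¹)) else 0

/-- units in `ℤ/N` -/
theorem unit_iff (D : ℤ) (N y L q : ℕ) (hN : N = y * L * q) (x T Θ a1 a2 : ℤ)
    (h1 : T - Θ = L * a1) (h2 : T * Θ - D = L * a2)
    (hq1 : IsCoprime (q : ℤ) (x ^ 2 - D * (y : ℤ) ^ 2)) (hq2 : IsCoprime (q : ℤ) (x + T * y)) :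
    IsCoprime (N : ℤ) (x ^ 2 - D * (y : ℤ) ^ 2) ↔
      IsCoprime (N : ℤ) (x + T * y) ∧ IsCoprime (L : ℤ) (x + T * y - 2 * T * y) := by
  have e1 : x ^ 2 - D * (y : ℤ) ^ 2 = x ^ 2 + y * (-D * y) := by ring
  have hy : IsCoprime (y : ℤ) (x ^ 2 - D * (y : ℤ) ^ 2) ↔ IsCoprime (y : ℤ) (x + T * y) := by
    have c1 : IsCoprime (y : ℤ) (x ^ 2 - D * (y : ℤ) ^ 2) ↔ IsCoprime (y : ℤ) x := by
      rw [e1, IsCoprime.add_mul_left_right_iff, IsCoprime.pow_right_iff (by norm_num : 0 < 2)]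
    have c2 : IsCoprime (y : ℤ) (x + T * y) ↔ IsCoprime (y : ℤ) x := by
      rw [IsCoprime.add_mul_right_right_iff]
    rw [c1, c2]
  have hL : IsCoprime (L : ℤ) (x ^ 2 - D * (y : ℤ) ^ 2) ↔
      IsCoprime (L : ℤ) (x + T * y) ∧ IsCoprime (L : ℤ) (x + T * y - 2 * T * y) := by
    have hT : T ^ 2 - D = L * (a1 * T + a2) := by
      have : T ^ 2 - D = (T - Θ) * T + (T * Θ - D) := by ring
      rw [this, h1, h2]; ring
    have e2 : x ^ 2 - D * (y : ℤ) ^ 2 = (x + T * y) * (x + T * y - 2 * T * y) +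
        L * ((a1 * T + a2) * y ^ 2) := by
      have : x ^ 2 - D * (y : ℤ) ^ 2 = (x + T * y) * (x + T * y - 2 * T * y) + (T ^ 2 - D) * y ^ 2 := by
        ring
      rw [this, hT]; ring
    rw [e2, IsCoprime.add_mul_left_right_iff, IsCoprime.mul_right_iff]
  rw [hN]
  push_cast
  rw [IsCoprime.mul_left_iff, IsCoprime.mul_left_iff, IsCoprime.mul_left_iff,
    IsCoprime.mul_left_iff, hy, hL]
  tauto

/-- the value of the phase on a class modulo `q` -/
theorem phi_val (D : ℤ) (N y L q : ℕ) [NeZero N] [NeZero q] (hN : N = y * L * q) (x T Θ j a1 a2 : ℤ)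
    (h1 : T - Θ = L * a1) (h2 : T * Θ - D = L * a2)
    (hu : IsUnit (((x : ℤ) : ZMod N) ^ 2 - (D : ZMod N) * (((y : ℤ)) : ZMod N) ^ 2))
    (hX : IsUnit (((x + T * y : ℤ)) : ZMod N)) :
    phi D N y Θ j ((x : ℤ) : ZMod N) =
      ZMod.stdAddChar (-(j : ZMod q) * ((((a1 * x - a2 * y : ℤ)) : ZMod q) *
        ((((x ^ 2 - D * (y : ℤ) ^ 2) * (x + T * y) : ℤ)) : ZMod q)⁻¹)) *
      ZMod.stdAddChar (-(j : ZMod N) * (((x + T * y : ℤ)) : ZMod N)⁻¹) := by
  have hqN : q ∣ N := by rw [hN]; exact dvd_mul_left _ _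
  have hNq : N / q = y * L := by
    rw [hN]
    exact Nat.mul_div_cancel _ (Nat.pos_of_ne_zero (NeZero.ne q))
  unfold phi
  rw [if_pos hu]
  set u : ZMod N := ((x : ℤ) : ZMod N) with hudef
  set S : ZMod N := u ^ 2 - (D : ZMod N) * (((y : ℤ)) : ZMod N) ^ 2 with hS
  set X : ZMod N := (((x + T * y : ℤ)) : ZMod N) with hXdef
  have hS1 : S * S⁻¹ = 1 := ZMod.mul_inv_of_unit _ hu
  have hX1 : X * X⁻¹ = 1 := ZMod.mul_inv_of_unit _ hX
  have hSX : IsUnit (S * X) := hu.mul hX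
  have hSX1 : (S * X) * (S * X)⁻¹ = 1 := ZMod.mul_inv_of_unit _ hSX
  have hinv : (S * X)⁻¹ = S⁻¹ * X⁻¹ := by
    apply hSX.mul_left_cancel
    rw [hSX1]
    calc (1 : ZMod N) = (S * S⁻¹) * (X * X⁻¹) := by rw [hS1, hX1, one_mul]
      _ = _ := by ring
  -- the integer representing the quotient
  obtain ⟨V, hV⟩ := ZMod.intCast_surjective ((((a1 * x - a2 * y : ℤ)) : ZMod N) * (S * X)⁻¹)
  have key : (u - (Θ : ZMod N) * (((y : ℤ)) : ZMod N)) * S⁻¹ =
      ((((y * L : ℕ) * V : ℤ)) : ZMod N) + X⁻¹ := by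
    have e1 : (u - (Θ : ZMod N) * (((y : ℤ)) : ZMod N)) * X - S =
        (((y * L : ℕ) : ℤ) : ZMod N) * (((a1 * x - a2 * y : ℤ)) : ZMod N) := by
      have e2 : (x - Θ * y) * (x + T * y) - (x ^ 2 - D * (y : ℤ) ^ 2) =
          ((y * L : ℕ) : ℤ) * (a1 * x - a2 * y) := by
        have : (x - Θ * y) * (x + T * y) - (x ^ 2 - D * (y : ℤ) ^ 2) =
          y * ((T - Θ) * x - (T * Θ - D) * y) := by ring
        rw [this, h1, h2]
        push_cast
        ring
      have e3 : (((x - Θ * y) * (x + T * y) - (x ^ 2 - D * (y : ℤ) ^ 2) : ℤ) : ZMod N) =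
          ((((y * L : ℕ) : ℤ) * (a1 * x - a2 * y) : ℤ) : ZMod N) := by rw [e2]
      rw [hXdef, hS, hudef]
      push_cast at e3 ⊢
      exact e3
    have e4 : (u - (Θ : ZMod N) * (((y : ℤ)) : ZMod N)) * S⁻¹ - X⁻¹ =
        ((u - (Θ : ZMod N) * (((y : ℤ)) : ZMod N)) * X - S) * (S * X)⁻¹ := by
      rw [hinv]
      calc (u - (Θ : ZMod N) * (((y : ℤ)) : ZMod N)) * S⁻¹ - X⁻¹ =
          (u - (Θ : ZMod N) * (((y : ℤ)) : ZMod N)) * S⁻¹ * (X * X⁻¹) - (S * S⁻¹) * X⁻¹ := by
            rw [hX1, hS1]; ring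
        _ = _ := by ring
    rw [e1, mul_assoc, ← hV] at e4
    push_cast at e4 ⊢
    rw [← e4]
    ring
  rw [key, mul_add, AddChar.map_add_eq_mul]
  congr 1
  -- the constant
  have e5 : -(j : ZMod N) * ((((y * L : ℕ) * V : ℤ)) : ZMod N) =
      ((((N / q : ℕ) * (-j * V) : ℤ)) : ZMod N) := by
    rw [hNq]
    push_cast
    ring
  rw [e5, ← char_down N q hqN]
  congr 1
  push_cast
  congr 1
  have h3 := congrArg (ZMod.castHom hqN (ZMod q)) hV
  rw [map_intCast, map_mul, map_intCast, inv_cast N q hqN _ hSX] at h3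
  rw [h3]
  congr 1
  · push_cast; ring
  · congr 1
    rw [map_mul, hS, hXdef, hudef]
    push_cast
    simp only [map_add, map_sub, map_pow, map_intCast, map_mul, map_natCast]

theorem ks (D : ℤ) : ∃ K : ℝ, 1 ≤ K ∧ ∀ (N y L q : ℕ) [NeZero N] [NeZero L] [NeZero q], N = y * L * q →
    Nat.Coprime L q → ∀ Θ j : ℤ, (L : ℤ) ∣ Θ ^ 2 - D → ∀ w : ZMod N,
    ‖∑ u : ZMod N, ZMod.stdAddChar (-(u * w)) * phi D N y Θ j u‖ ≤
      q * (L.divisors.card * (K * 2 ^ N.primeFactors.card * Real.sqrt (N : ℝ) *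
        Real.sqrt (Nat.gcd N j.natAbs))) := by
  classical
  obtain ⟨K, hK, HK⟩ := base_bd
  refine ⟨K, hK, ?_⟩
  intro N y L q _ _ _ hN hLq Θ j hΘ w
  have hq0 : 0 < q := Nat.pos_of_ne_zero (NeZero.ne q)
  set W : ℝ := K * 2 ^ N.primeFactors.card * Real.sqrt (N : ℝ) *
        Real.sqrt (Nat.gcd N j.natAbs) with hW
  have hW0 : 0 ≤ W := by positivity
  have hqN : q ∣ N := by rw [hN]; exact dvd_mul_left _ _
  have hLN : L ∣ N := by rw [hN]; exact (dvd_mul_left L y).trans (dvd_mul_right _ _)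
  have hsplit : ∑ u : ZMod N, ZMod.stdAddChar (-(u * w)) * phi D N y Θ j u =
      ∑ a : ZMod q, ∑ u : ZMod N, if ZMod.castHom hqN (ZMod q) u = a then
        ZMod.stdAddChar (-(u * w)) * phi D N y Θ j u else 0 := by
    rw [Finset.sum_comm]
    apply sum_congr rfl
    intro u _
    rw [Finset.sum_ite_eq]
    simp
  rw [hsplit]
  have hcl : ∀ a : ZMod q, ‖∑ u : ZMod N, if ZMod.castHom hqN (ZMod q) u = a then
        ZMod.stdAddChar (-(u * w)) * phi D N y Θ j u else 0‖ ≤ L.divisors.card * W := by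
    intro a
    obtain ⟨x0, rfl⟩ := ZMod.intCast_surjective a
    by_cases hun : IsCoprime (q : ℤ) (x0 ^ 2 - D * (y : ℤ) ^ 2)
    swap
    · rw [Finset.sum_eq_zero]
      · rw [norm_zero]; positivity
      · intro u _
        obtain ⟨x, rfl⟩ := ZMod.intCast_surjective u
        split_ifs with h
        · rw [map_intCast, eq_comm, ZMod.intCast_eq_intCast_iff_dvd_sub] at h
          have hnu : ¬ IsUnit (((x : ℤ) : ZMod N) ^ 2 - (D : ZMod N) * (((y : ℤ)) : ZMod N) ^ 2) := by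
            intro h3
            apply hun
            have h4 : (((x : ℤ) : ZMod N) ^ 2 - (D : ZMod N) * (((y : ℤ)) : ZMod N) ^ 2) =
                (((x ^ 2 - D * (y : ℤ) ^ 2 : ℤ)) : ZMod N) := by push_cast; ring
            rw [h4, ZMod.coe_int_isUnit_iff_isCoprime] at h3
            have h5 : IsCoprime (q : ℤ) (x ^ 2 - D * (y : ℤ) ^ 2) :=
              h3.of_isCoprime_of_dvd_left (by exact_mod_cast hqN)
            obtain ⟨t, ht⟩ := h
            have e : x0 ^ 2 - D * (y : ℤ) ^ 2 = (x ^ 2 - D * (y : ℤ) ^ 2) + q * (-(t * (x + x0))) := by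
              have : x = x0 + q * t := by linarith
              rw [this]; ring
            rw [e]
            exact h5.add_mul_left_right _
          unfold phi
          rw [if_neg hnu, mul_zero]
        · rfl
    · obtain ⟨T, a1, a2, hT1, hT2, hT3⟩ := exT D L q hq0 hLq Θ hΘ x0 y hun
      set κ : ℂ := ZMod.stdAddChar (-(j : ZMod q) * ((((a1 * x0 - a2 * y : ℤ)) : ZMod q) *
        ((((x0 ^ 2 - D * (y : ℤ) ^ 2) * (x0 + T * y) : ℤ)) : ZMod q)⁻¹)) with hκ
      set F0 : ZMod N → ℂ := fun X =>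
        if IsUnit X then (ZMod.stdAddChar (-(j : ZMod N) * X⁻¹) : ℂ) else 0 with hF0
      set F1 : ZMod N → ℂ := fun X => if ZMod.castHom hqN (ZMod q) X = (((x0 + T * y : ℤ)) : ZMod q)
        then F0 X else 0 with hF1
      set F2 : ZMod N → ℂ := fun X =>
        if IsUnit (ZMod.castHom hLN (ZMod L) X - (((2 * T * y : ℤ)) : ZMod L)) then F1 X else 0 with hF2
      have hterm : ∀ u : ZMod N, (if ZMod.castHom hqN (ZMod q) u = ((x0 : ℤ) : ZMod q) then
          ZMod.stdAddChar (-(u * w)) * phi D N y Θ j u else 0) =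
          κ * ZMod.stdAddChar ((((T * y : ℤ)) : ZMod N) * w) *
            (F2 (u + (((T * y : ℤ)) : ZMod N)) *
              ZMod.stdAddChar (-w * (u + (((T * y : ℤ)) : ZMod N)))) := by
        intro u
        obtain ⟨x, rfl⟩ := ZMod.intCast_surjective u
        have eX : ((x : ℤ) : ZMod N) + (((T * y : ℤ)) : ZMod N) = (((x + T * y : ℤ)) : ZMod N) := by
          push_cast; ring
        rw [eX]
        have hcl1 : (ZMod.castHom hqN (ZMod q) ((x : ℤ) : ZMod N) = ((x0 : ℤ) : ZMod q)) ↔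
            (ZMod.castHom hqN (ZMod q) (((x + T * y : ℤ)) : ZMod N) =
              (((x0 + T * y : ℤ)) : ZMod q)) := by
          rw [map_intCast, map_intCast]
          push_cast
          exact (add_left_inj _).symm
        by_cases h : ZMod.castHom hqN (ZMod q) ((x : ℤ) : ZMod N) = ((x0 : ℤ) : ZMod q)
        · rw [if_pos h]
          have h' := h
          rw [map_intCast, eq_comm, ZMod.intCast_eq_intCast_iff_dvd_sub] at h'
          obtain ⟨t, ht⟩ := h'
          have hx : x = x0 + q * t := by linarith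
          have hq1 : IsCoprime (q : ℤ) (x ^ 2 - D * (y : ℤ) ^ 2) := by
            have e : x ^ 2 - D * (y : ℤ) ^ 2 = (x0 ^ 2 - D * (y : ℤ) ^ 2) + q * (t * (x + x0)) := by
              rw [hx]; ring
            rw [e]
            exact hun.add_mul_left_right _
          have hq2 : IsCoprime (q : ℤ) (x + T * y) := by
            have e : x + T * y = (x0 + T * y) + q * t := by rw [hx]; ring
            rw [e]
            exact hT1.add_mul_left_right _
          have hiff := unit_iff D N y L q hN x T Θ a1 a2 hT2 hT3 hq1 hq2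
          have hu1 : IsUnit (((x : ℤ) : ZMod N) ^ 2 - (D : ZMod N) * (((y : ℤ)) : ZMod N) ^ 2) ↔
              IsCoprime ((N : ℕ) : ℤ) (x ^ 2 - D * (y : ℤ) ^ 2) := by
            have h4 : (((x : ℤ) : ZMod N) ^ 2 - (D : ZMod N) * (((y : ℤ)) : ZMod N) ^ 2) =
                (((x ^ 2 - D * (y : ℤ) ^ 2 : ℤ)) : ZMod N) := by push_cast; ring
            rw [h4, ZMod.coe_int_isUnit_iff_isCoprime]
          have hu2 : IsUnit (((x + T * y : ℤ)) : ZMod N) ↔ IsCoprime ((N : ℕ) : ℤ) (x + T * y) :=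
            ZMod.coe_int_isUnit_iff_isCoprime _ _
          have hu3 : IsUnit (ZMod.castHom hLN (ZMod L) (((x + T * y : ℤ)) : ZMod N) -
              (((2 * T * y : ℤ)) : ZMod L)) ↔ IsCoprime (L : ℤ) (x + T * y - 2 * T * y) := by
            rw [map_intCast, ← Int.cast_sub, ZMod.coe_int_isUnit_iff_isCoprime]
          have hF1v : F1 (((x + T * y : ℤ)) : ZMod N) = F0 (((x + T * y : ℤ)) : ZMod N) := by
            simp only [hF1]
            rw [if_pos (hcl1.1 h)]
          by_cases hu : IsUnit (((x : ℤ) : ZMod N) ^ 2 - (D : ZMod N) * (((y : ℤ)) : ZMod N) ^ 2)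
          · obtain ⟨c1, c2⟩ := hiff.1 (hu1.1 hu)
            have hX := hu2.2 c1
            have hv := phi_val D N y L q hN x T Θ j a1 a2 hT2 hT3 hu hX
            have hκ' : (ZMod.stdAddChar (-(j : ZMod q) * ((((a1 * x - a2 * y : ℤ)) : ZMod q) *
                ((((x ^ 2 - D * (y : ℤ) ^ 2) * (x + T * y) : ℤ)) : ZMod q)⁻¹)) : ℂ) = κ := by
              rw [hκ]
              have hxq : ((x : ℤ) : ZMod q) = ((x0 : ℤ) : ZMod q) := by
                rw [hx]; push_cast; simp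
              congr 2
              push_cast
              rw [hxq]
            rw [hκ'] at hv
            rw [hv]
            simp only [hF2]
            rw [if_pos (hu3.2 c2), hF1v]
            simp only [hF0]
            rw [if_pos hX]
            have e6 : (ZMod.stdAddChar (-(((x : ℤ) : ZMod N) * w)) : ℂ) =
                ZMod.stdAddChar ((((T * y : ℤ)) : ZMod N) * w) *
                  ZMod.stdAddChar (-w * (((x + T * y : ℤ)) : ZMod N)) := by
              rw [← AddChar.map_add_eq_mul]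
              congr 1
              push_cast
              ring
            rw [e6]
            ring
          · have hz : F2 (((x + T * y : ℤ)) : ZMod N) = 0 := by
              simp only [hF2]
              split_ifs with h7
              · rw [hF1v]
                simp only [hF0]
                rw [if_neg]
                intro h8
                exact hu (hu1.2 (hiff.2 ⟨hu2.1 h8, hu3.1 h7⟩))
              · rfl
            rw [hz]
            unfold phi
            rw [if_neg hu]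
            ring
        · rw [if_neg h]
          have hz : F2 (((x + T * y : ℤ)) : ZMod N) = 0 := by
            simp only [hF2, hF1]
            rw [if_neg (fun h' => h (hcl1.2 h'))]
            simp
          rw [hz]
          ring
      rw [Finset.sum_congr rfl (fun u _ => hterm u), ← Finset.mul_sum,
        Fintype.sum_equiv (Equiv.addRight (((T * y : ℤ)) : ZMod N))
          (fun u => F2 (u + (((T * y : ℤ)) : ZMod N)) *
              (ZMod.stdAddChar (-w * (u + (((T * y : ℤ)) : ZMod N))) : ℂ))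
          (fun X => F2 X * (ZMod.stdAddChar (-w * X) : ℂ)) (fun u => rfl)]
      rw [norm_mul, norm_mul, hκ, AddChar.norm_apply, AddChar.norm_apply, one_mul, one_mul]
      have hB1 := restrict N q hqN F0 W (fun b => HK N j b) (((x0 + T * y : ℤ)) : ZMod q)
      exact restrict_cop N L hLN F1 W hB1 (((2 * T * y : ℤ)) : ZMod L) (-w)
  refine (norm_sum_le _ _).trans ?_
  refine (Finset.sum_le_sum (fun a _ => hcl a)).trans ?_
  rw [Finset.sum_const, Finset.card_univ, ZMod.card, nsmul_eq_mul]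

end Pool.Agent.T2h76Q
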