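import Pool.Agent.T2h76Q.Mt9
import Pool.Agent.T2h76.Mt10

/-! Parameters, one argument, all centres. -/

set_option autoImplicit false
set_option linter.unusedSectionVars false

namespace Pool.Agent.T2h76Q.MT

open Pool.Agent.T2h76 Pool.Agent.T2h76.MT

open Finset Filter
open Pool.Agent.R498.MT
open Pool.Agent.W23.DC
open Pool.Agent.Y677.RSZ (rt Sys rhoT per_mod)
open Pool.Agent.TH423.SH (PS)
open Pool.Agent.Y882 (VV tt_lt)
open Pool.Agent.Y844.BT (cel cel_spec)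

variable {Dq : ℤ}

open Classical in
/-- the arguments with more than `m` good slots -/
noncomputable def gdc (Dq : ℤ) (F : ℤ → ℤ) (X : ℕ) (ϖ aw bw : ℝ) (nε nz nυ W b : ℕ) {n : ℕ} (t : Fin n → ℕ)
    (m M L : ℕ) : Finset ℕ :=
  (Ioc M (M + L)).filter (fun K =>
    (∀ p : ℕ, p.Prime → (p : ℝ) < (X : ℝ) ^ (ϖ * nε) → ∀ i,
      ¬ (p : ℤ) ∣ F ((W * (K + t i) + b : ℕ) : ℤ)) ∧
    m < (univ.filter (fun i =>
      0 < WWc X ϖ aw bw nz nυ ((G1 Dq) ((W * (K + t i) + b : ℕ) : ℤ)).natAbs)).card)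

open Classical in
/-- the contribution of one argument -/
theorem pt_upc (F : ℤ → ℤ) (g : ℕ) (hF : Sys g F)
    (hGF : ∀ p : ℕ, p.Prime → ∀ n : ℤ, (p : ℤ) ∣ (G1 Dq) n → (p : ℤ) ∣ F n)
    (X : ℕ) (ϖ aw bw υ B Λ : ℝ) (nε nz nυ W b z k m M L : ℕ) (t : Fin (2 ^ k) → ℕ) (hX : 2 ≤ X)
    (hϖ : 0 < ϖ) (hb : 0 ≤ bw) (hυ : ϖ * (nυ + 1 / 2) = υ) (hab : bw * υ ≤ aw)
    (hbW : ∀ p : ℕ, p.Prime → p ∣ W → ¬ (p : ℤ) ∣ F b)
    (hz2 : (X : ℝ) ^ (ϖ * nε) ≤ z + 1) (K : ℕ) (hK : K ∈ Ioc M (M + L)) (hΛ0 : 0 ≤ Λ) (hΛ : Λ ≤ B)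
    (nK : ℕ) (hnK : ∀ p ∈ PS W z, p ∣ nK ↔ ∃ j, (p : ℤ) ∣ F ((W * (K + t j) + b : ℕ) : ℤ)) :
    (if ∀ p ∈ PS W z, ¬ p ∣ nK then 1 else 0) * (Λ * (∑ i,
      WBc (Ce X ϖ nε nz) (Ce X ϖ nz nυ) (cel X ϖ) ϖ aw bw
        ((G1 Dq) ((W * (K + t i) + b : ℕ) : ℤ)).natAbs - m)) ≤
      if K ∈ gdc Dq F X ϖ aw bw nε nz nυ W b t m M L then B * 2 ^ k else 0 := by
  have hB0 : 0 ≤ B := hΛ0.trans hΛ
  have hB2 : 0 ≤ B * 2 ^ k := by positivity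
  by_cases hν : ∀ p ∈ PS W z, ¬ p ∣ nK
  swap
  · rw [if_neg hν, zero_mul]
    split_ifs
    · exact hB2
    · exact le_rfl
  rw [if_pos hν, one_mul]
  have hw1 : ∀ i : Fin (2 ^ k), WBc (Ce X ϖ nε nz) (Ce X ϖ nz nυ) (cel X ϖ) ϖ aw bw
      ((G1 Dq) ((W * (K + t i) + b : ℕ) : ℤ)).natAbs ≤ 1 :=
    fun i => WBc_le_one X ϖ aw bw υ nε nz nυ hϖ hb hυ hab _
  by_cases hs : ∑ i : Fin (2 ^ k), WBc (Ce X ϖ nε nz) (Ce X ϖ nz nυ) (cel X ϖ) ϖ aw bw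
      ((G1 Dq) ((W * (K + t i) + b : ℕ) : ℤ)).natAbs - m ≤ 0
  · have h2 := mul_nonpos_of_nonneg_of_nonpos hΛ0 hs
    refine h2.trans ?_
    split_ifs
    · exact hB2
    · exact le_rfl
  push Not at hs
  have hsmall : ∀ p : ℕ, p.Prime → (p : ℝ) < (X : ℝ) ^ (ϖ * nε) → ∀ i,
      ¬ (p : ℤ) ∣ F ((W * (K + t i) + b : ℕ) : ℤ) := by
    intro p hp hpY i hdvd
    by_cases hpW : p ∣ W
    · apply hbW p hp hpW
      refine (per_mod hF.per hp (W * (K + t i) + b) b ?_).1 hdvd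
      have : W * (K + t i) ≡ 0 [MOD p] := (Nat.modEq_zero_iff_dvd).2 (hpW.mul_right _)
      simpa using this.add_right b
    · have hpz : p ≤ z := by
        have : (p : ℝ) < z + 1 := hpY.trans_le hz2
        have : p < z + 1 := by exact_mod_cast this
        omega
      have hpS : p ∈ PS W z := by
        unfold PS
        rw [mem_filter, mem_Icc]
        exact ⟨⟨hp.one_lt.le, hpz⟩, hp, hpW⟩
      exact hν p hpS ((hnK p hpS).2 ⟨i, hdvd⟩)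
  have hmem : K ∈ gdc Dq F X ϖ aw bw nε nz nυ W b t m M L := by
    unfold gdc
    rw [mem_filter]
    refine ⟨hK, hsmall, ?_⟩
    have h3 : ∑ i : Fin (2 ^ k), WBc (Ce X ϖ nε nz) (Ce X ϖ nz nυ) (cel X ϖ) ϖ aw bw
        ((G1 Dq) ((W * (K + t i) + b : ℕ) : ℤ)).natAbs ≤ ((univ.filter (fun i =>
        0 < WWc X ϖ aw bw nz nυ ((G1 Dq) ((W * (K + t i) + b : ℕ) : ℤ)).natAbs)).card : ℝ) := by
      have h4 : (((univ.filter (fun i =>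
        0 < WWc X ϖ aw bw nz nυ ((G1 Dq) ((W * (K + t i) + b : ℕ) : ℤ)).natAbs)).card : ℕ) : ℝ) =
          ∑ i, if 0 < WWc X ϖ aw bw nz nυ ((G1 Dq) ((W * (K + t i) + b : ℕ) : ℤ)).natAbs then (1 : ℝ)
            else 0 := by
        rw [← sum_filter]
        simp
      rw [h4]
      apply sum_le_sum
      intro i _
      split_ifs with h5
      · exact hw1 i
      · by_contra h6
        push Not at h6
        exact h5 (WBc_pos X hX ϖ aw bw hϖ nε nz nυ _ (fun p hp hpY hpd =>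
          hsmall p hp hpY i (hGF p hp _ (Int.natCast_dvd.2 hpd))) h6)
    have h5 : (m : ℝ) < ((univ.filter (fun i =>
        0 < WWc X ϖ aw bw nz nυ ((G1 Dq) ((W * (K + t i) + b : ℕ) : ℤ)).natAbs)).card : ℝ) := by linarith
    exact_mod_cast h5
  rw [if_pos hmem]
  have hs2 : ∑ i : Fin (2 ^ k), WBc (Ce X ϖ nε nz) (Ce X ϖ nz nυ) (cel X ϖ) ϖ aw bw
      ((G1 Dq) ((W * (K + t i) + b : ℕ) : ℤ)).natAbs - m ≤ 2 ^ k := by
    have h3 := sum_le_sum (s := (univ : Finset (Fin (2 ^ k)))) fun i _ => hw1 i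
    rw [sum_const, card_univ, Fintype.card_fin, nsmul_eq_mul, mul_one] at h3
    push_cast at h3
    have : (0 : ℝ) ≤ m := Nat.cast_nonneg m
    push_cast
    linarith
  exact mul_le_mul hΛ hs2 hs.le hB0

end Pool.Agent.T2h76Q.MT
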