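import Pool.Agent.T2h76Q.Mt11
import Pool.Agent.T2h76.Mt12

/-! Numerical lemmas for the core. -/

set_option autoImplicit false
set_option linter.unusedSectionVars false

namespace Pool.Agent.T2h76Q.MT

open Pool.Agent.T2h76 Pool.Agent.T2h76.MT

open Finset Filter
open Pool.Agent.R498.MT
open Pool.Agent.W23.DC
open Pool.Agent.Y677.RSZ (rt Sys rhoT per_mod)
open Pool.Agent.TH423.SH (PS)
open Pool.Agent.Y882 (VV tt_lt)
open Pool.Agent.Y882.SI (QF mer_quad)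
open Pool.Agent.Y844.BT (cel cel_spec)

variable {Dq : ℤ}

/-- the sum of the coefficients -/
theorem TTb (X : ℕ) (hX : 2 ≤ X) (ε υ : ℝ) (c : Finset ℕ → ℝ) (C₁ τ : ℝ) (hC : 0 ≤ C₁) (hτ : τ ≤ 1)
    (hc1 : ∀ T, |c T| ≤ C₁) (hc2 : ∀ T, c T ≠ 0 → ((∏ p ∈ T, p : ℕ) : ℝ) ≤ (X : ℝ) ^ τ) :
    ∑ T : Finset (Pg (G1 Dq) X ε υ), |c (T.map (Function.Embedding.subtype _))| ≤ C₁ * X := by
  classical
  have hX1r : (1 : ℝ) ≤ X := by exact_mod_cast (by omega : 1 ≤ X)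
  set A : Finset (Finset (Pg (G1 Dq) X ε υ)) := univ.filter (fun T => ∏ s ∈ T, (s : ℕ) ≤ X) with hA
  have h1 : ∀ T : Finset (Pg (G1 Dq) X ε υ), |c (T.map (Function.Embedding.subtype _))| ≤
      if T ∈ A then C₁ else 0 := by
    intro T
    split_ifs with h
    · exact hc1 _
    · have h2 : c (T.map (Function.Embedding.subtype _)) = 0 := by
        by_contra h3
        apply h
        rw [hA, mem_filter]
        refine ⟨mem_univ _, ?_⟩
        have h4 := hc2 _ h3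
        rw [prod_map] at h4
        have h5 : (X : ℝ) ^ τ ≤ X := by
          calc (X : ℝ) ^ τ ≤ (X : ℝ) ^ (1 : ℝ) := Real.rpow_le_rpow_of_exponent_le hX1r hτ
            _ = X := Real.rpow_one _
        exact_mod_cast h4.trans h5
      rw [h2, abs_zero]
  refine (sum_le_sum fun T _ => h1 T).trans ?_
  rw [← sum_filter, sum_const, nsmul_eq_mul, mul_comm]
  apply mul_le_mul_of_nonneg_left _ hC
  have h2 : (univ.filter (fun T => T ∈ A)).card ≤ (Icc 1 X).card := by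
    apply card_le_card_of_injOn (fun T : Finset (Pg (G1 Dq) X ε υ) => ∏ s ∈ T, (s : ℕ))
    · intro T hT
      rw [mem_coe, mem_filter, hA, mem_filter] at hT
      rw [mem_coe, mem_Icc]
      exact ⟨prod_pos fun s _ => (Pg_mem (G1 Dq) X ε υ hX s).1.pos, hT.2.2⟩
    · intro T _ T' _ h
      have h' : ∏ s ∈ T, (s : ℕ) = ∏ s ∈ T', (s : ℕ) := h
      have e : ∀ T : Finset (Pg (G1 Dq) X ε υ), ∏ s ∈ T, (s : ℕ) =
          ∏ p ∈ T.map (Function.Embedding.subtype _), p := by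
        intro T
        rw [prod_map]
        rfl
      have hpr : ∀ T : Finset (Pg (G1 Dq) X ε υ), ∀ p ∈ T.map (Function.Embedding.subtype _), p.Prime := by
        intro T p hp
        rw [Finset.mem_map] at hp
        obtain ⟨s, _, rfl⟩ := hp
        exact (Pg_mem (G1 Dq) X ε υ hX s).1
      rw [e T, e T'] at h'
      exact Finset.map_injective _ (prod_inj' (hpr T) (hpr T') h')
  rw [Nat.card_Icc, Nat.add_sub_cancel] at h2
  exact_mod_cast h2

/-- the remainder of the trivial condition -/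
theorem rmd_one (X : ℕ) (hX : 1 ≤ X) (μ ν Y N0 E : ℝ) (hμ : 0 ≤ μ) (hν : 0 ≤ ν) (q : ℕ) (u : ℤ)
    (h : ∀ a b : ℕ → ℝ, (∀ m, |a m| ≤ 1) → (∀ k, |b k| ≤ 1) → (∀ k, b k ≠ 0 → Squarefree k) →
      |∑ m ∈ Icc 1 ⌊(X : ℝ) ^ μ⌋₊, ∑ k ∈ Icc 1 ⌊(X : ℝ) ^ ν⌋₊,
        if Nat.Coprime m k then a m * (b k * Pool.Agent.T2h76Q.rr Dq Y N0 q u (m * k)) else 0| ≤ E) :
    |rmd Dq Y N0 q u 1| ≤ E := by
  have hX1r : (1 : ℝ) ≤ X := by exact_mod_cast hX
  set a : ℕ → ℝ := fun m => if m = 1 then 1 else 0 with ha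
  have ha1 : ∀ m, |a m| ≤ 1 := by
    intro m
    simp only [ha]
    split_ifs <;> simp
  have h1 := h a a ha1 ha1 (by
    intro k hk
    simp only [ha] at hk
    split_ifs at hk with h2
    · rw [h2]
      exact squarefree_one
    · exact absurd rfl hk)
  have m1 : 1 ∈ Icc 1 ⌊(X : ℝ) ^ μ⌋₊ := by
    rw [mem_Icc]
    exact ⟨le_rfl, Nat.le_floor (by push_cast; exact Real.one_le_rpow hX1r hμ)⟩
  have m2 : 1 ∈ Icc 1 ⌊(X : ℝ) ^ ν⌋₊ := by
    rw [mem_Icc]
    exact ⟨le_rfl, Nat.le_floor (by push_cast; exact Real.one_le_rpow hX1r hν)⟩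
  rw [sum_eq_single_of_mem 1 m1, sum_eq_single_of_mem 1 m2] at h1
  · unfold Pool.Agent.T2h76Q.rr at h1
    simpa [ha] using h1
  · intro k _ hk
    simp [ha, hk]
  · intro m _ hm
    apply sum_eq_zero
    intro k _
    simp [ha, hm]

end Pool.Agent.T2h76Q.MT
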