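import Pool.Agent.T2h76Q.Mt13
import Pool.Agent.T2h76.Mt14
import Pool.Agent.R498.MT.Fin2
import Pool.Agent.R498.MT.Inst

/-! Clusters in narrow progressions: the arguments with a good set of slots. -/

set_option autoImplicit false
set_option linter.unusedSectionVars false

namespace Pool.Agent.T2h76Q.MT

open Pool.Agent.T2h76 Pool.Agent.T2h76.MT

open Finset Filter Polynomial
open Pool.Agent.R498.MT
open Pool.Agent.Y677.RSZ (rt Sys rhoT per_mod ev_log V eng_all)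
open Pool.Agent.TH423.SH (PS)
open Pool.Agent.W23.DC

variable {Dq : ℤ}

open Classical in
/-- the arguments with a good set of slots -/
theorem manyC (F : ℤ → ℤ) (KK q0 W b M L N k m a : ℕ) (ϖ aw bw c V : ℝ) (nε nz nυ : ℕ)
    (hSq : ∀ q : ℕ, q.Prime → q0 ≤ q → ∀ N H : ℕ,
      ((((Icc 1 H).filter (fun j : ℕ => ((q ^ 2 : ℕ) : ℤ) ∣ (G1 Dq) ((N + j : ℕ) : ℤ))).card : ℕ) : ℝ) ≤
        KK * (H * (1 / (q : ℝ) ^ 2) + 1)) (hW : 0 < W) (hN : 3 ≤ N) (hϖ : 0 < ϖ)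
    (hq0 : (q0 : ℝ) + 2 ≤ (N : ℝ) ^ (2 * (ϖ * nz))) (t : Fin (2 ^ k) → ℕ)
    (hc : 0 < c) (hV : 0 < V) (hV1 : 1 ≤ Real.log N ^ a * V)
    (hgd : c * (L * V) ≤ ((gdc Dq F (N ^ 2) ϖ aw bw nε nz nυ W b t m M L).card : ℝ))
    (hL : (N : ℝ) ^ (99895 / 100000 : ℝ) ≤ L)
    (h1 : 8 * (2 ^ k * KK * W) / c * Real.log N ^ a ≤ (N : ℝ) ^ (2 * (ϖ * nz)))
    (h2 : 4 * (2 ^ k * KK) / c * Real.log N ^ a ≤ (N : ℝ) ^ (99895 / 100000 - 2 * (ϖ * nυ))) :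
    ∃ (Hs : Finset (Fin (2 ^ k))) (A : Finset ℕ), Hs.card = m ∧
      c / (2 * 2 ^ 2 ^ k) * (L * V) ≤ A.card ∧
      ∀ K ∈ A, K ∈ Ioc M (M + L) ∧ (∀ p : ℕ, p.Prime → (p : ℝ) < (N : ℝ) ^ (2 * (ϖ * nε)) → ∀ i,
          ¬ (p : ℤ) ∣ F ((W * (K + t i) + b : ℕ) : ℤ)) ∧
        ∀ i ∈ Hs, 0 < WWc (N ^ 2) ϖ aw bw nz nυ ((G1 Dq) ((W * (K + t i) + b : ℕ) : ℤ)).natAbs ∧
          ∀ q ∈ Ce (N ^ 2) ϖ nz nυ, ¬ ((q ^ 2 : ℕ) : ℤ) ∣ (G1 Dq) ((W * (K + t i) + b : ℕ) : ℤ) := by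
  have hNr : (3 : ℝ) ≤ N := by exact_mod_cast hN
  have hN0 : (0 : ℝ) < N := by linarith
  have hlN : 0 < Real.log N := Real.log_pos (by linarith)
  have hL0 : (0 : ℝ) < L := lt_of_lt_of_le (by positivity) hL
  have hX2 : 2 ≤ N ^ 2 := by nlinarith
  have hXp : ∀ s : ℝ, ((N ^ 2 : ℕ) : ℝ) ^ s = (N : ℝ) ^ (2 * s) := by
    intro s
    push_cast
    rw [← Real.rpow_natCast, ← Real.rpow_mul hN0.le]
    norm_num
  set Bd := (Ioc M (M + L)).filter (fun K => ∃ i, ∃ q ∈ pr (N ^ 2) (ϖ * nz) (ϖ * nυ),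
      ((q ^ 2 : ℕ) : ℤ) ∣ (G1 Dq) ((W * (K + t i) + b : ℕ) : ℤ)) with hBd
  set Gd := gdc Dq F (N ^ 2) ϖ aw bw nε nz nυ W b t m M L with hGd
  have hbad := bad_le (G1 Dq) KK q0 hSq W b M L (N ^ 2) t hW (ϖ * nz) (ϖ * nυ) hX2 (by rw [hXp]; exact hq0)
  rw [hXp, hXp] at hbad
  set ζ := 2 * (ϖ * nz) with hζ
  set υ := 2 * (ϖ * nυ) with hυ
  have hbad2 : ((2 ^ k : ℕ) : ℝ) * (KK * ((W * L : ℕ) * (2 / (N : ℝ) ^ ζ) + (N : ℝ) ^ υ)) ≤
      c / 2 * (L * V) := by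
    have hla : 0 < Real.log N ^ a := by positivity
    rw [div_mul_eq_mul_div, div_le_iff₀ hc] at h1 h2
    have e1 : ((2 ^ k : ℕ) : ℝ) * (KK * ((W * L : ℕ) * (2 / (N : ℝ) ^ ζ))) ≤ c / 4 * (L * V) := by
      have hNζ : (0 : ℝ) < (N : ℝ) ^ ζ := by positivity
      push_cast
      rw [show (2 : ℝ) ^ k * (KK * (W * L * (2 / (N : ℝ) ^ ζ))) =
        (2 * (2 ^ k * KK * W)) * L / (N : ℝ) ^ ζ by ring, div_le_iff₀ hNζ]
      have e2 : 8 * (2 ^ k * KK * W : ℝ) * L * 1 ≤ 8 * (2 ^ k * KK * W : ℝ) * L *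
          (Real.log N ^ a * V) := mul_le_mul_of_nonneg_left hV1 (by positivity)
      have e3 : (8 * (2 ^ k * KK * W) * Real.log N ^ a) * (L * V) ≤ ((N : ℝ) ^ ζ * c) * (L * V) :=
        mul_le_mul_of_nonneg_right h1 (by positivity)
      linarith
    have e2 : ((2 ^ k : ℕ) : ℝ) * (KK * (N : ℝ) ^ υ) ≤ c / 4 * (L * V) := by
      push_cast
      have e3 : (N : ℝ) ^ υ * (N : ℝ) ^ (99895 / 100000 - υ) ≤ L := by
        rw [← Real.rpow_add hN0]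
        refine le_trans (le_of_eq ?_) hL
        congr 1
        ring
      have e4 : (4 * (2 ^ k * KK) * Real.log N ^ a) * ((N : ℝ) ^ υ * V) ≤
          ((N : ℝ) ^ (99895 / 100000 - υ) * c) * ((N : ℝ) ^ υ * V) :=
        mul_le_mul_of_nonneg_right h2 (by positivity)
      have e5 : ((N : ℝ) ^ υ * (N : ℝ) ^ (99895 / 100000 - υ)) * (c * V) ≤ L * (c * V) :=
        mul_le_mul_of_nonneg_right e3 (by positivity)
      have e6 : 4 * (2 ^ k * KK : ℝ) * (N : ℝ) ^ υ * 1 ≤ 4 * (2 ^ k * KK : ℝ) * (N : ℝ) ^ υ *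
          (Real.log N ^ a * V) := mul_le_mul_of_nonneg_left hV1 (by positivity)
      linarith
    rw [mul_add, mul_add]
    linarith
  have hcard : c / 2 * (L * V) ≤ ((Gd \ Bd).card : ℝ) := by
    have h3 : (Gd.card : ℝ) ≤ (Gd \ Bd).card + Bd.card := by
      have h4 : Gd ⊆ (Gd \ Bd) ∪ Bd := by
        intro x hx
        by_cases hb : x ∈ Bd
        · exact mem_union_right _ hb
        · exact mem_union_left _ (mem_sdiff.2 ⟨hx, hb⟩)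
      exact_mod_cast (card_le_card h4).trans (card_union_le _ _)
    have h4 : (Bd.card : ℝ) ≤ c / 2 * (L * V) := by
      refine le_trans ?_ (hbad.trans hbad2)
      rw [hBd]
    linarith
  have hpos : 0 < c / 2 * (L * V) := by positivity
  have hne : (Gd \ Bd).Nonempty := by
    rw [← card_pos]
    have : (0 : ℝ) < ((Gd \ Bd).card : ℝ) := hpos.trans_le hcard
    exact_mod_cast this
  obtain ⟨Hs, hHs, hle⟩ := pigH (2 ^ k) m (Gd \ Bd) (fun K => univ.filter (fun i =>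
      0 < WWc (N ^ 2) ϖ aw bw nz nυ ((G1 Dq) ((W * (K + t i) + b : ℕ) : ℤ)).natAbs)) hne (by
    intro K hK
    have h3 := (mem_sdiff.1 hK).1
    rw [hGd] at h3
    unfold gdc at h3
    rw [mem_filter] at h3
    exact h3.2.2.le)
  refine ⟨Hs, (Gd \ Bd).filter (fun K => Hs ⊆ univ.filter (fun i =>
      0 < WWc (N ^ 2) ϖ aw bw nz nυ ((G1 Dq) ((W * (K + t i) + b : ℕ) : ℤ)).natAbs)), hHs, ?_, ?_⟩
  rotate_left
  · intro K hK
    have hK' := mem_filter.1 hK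
    obtain ⟨hK1, hK2⟩ := hK'
    obtain ⟨hK3, hK4⟩ := mem_sdiff.1 hK1
    rw [hGd] at hK3
    unfold gdc at hK3
    rw [mem_filter] at hK3
    refine ⟨hK3.1, ?_, ?_⟩
    · intro p hp hpN i
      exact hK3.2.1 p hp (by rw [hXp]; exact hpN) i
    intro i hi
    have h3 := mem_filter.1 (hK2 hi)
    refine ⟨h3.2, ?_⟩
    intro q hq hqd
    apply hK4
    rw [hBd, mem_filter]
    rw [Ce_pr (N ^ 2) hX2 ϖ hϖ] at hq
    exact ⟨hK3.1, i, q, hq, hqd⟩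
  · rw [div_mul_eq_mul_div, div_le_iff₀ (by positivity)]
    have h3 : (((Gd \ Bd).card : ℕ) : ℝ) ≤ 2 ^ 2 ^ k *
        (((Gd \ Bd).filter (fun K => Hs ⊆ univ.filter (fun i =>
      0 < WWc (N ^ 2) ϖ aw bw nz nυ ((G1 Dq) ((W * (K + t i) + b : ℕ) : ℤ)).natAbs))).card : ℝ) := by
      exact_mod_cast hle
    have h4 : c / 2 * (L * V) * 2 = c * (L * V) := by ring
    linarith

end Pool.Agent.T2h76Q.MT
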