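import Pool.Agent.T2h76Q.Gm5
import Pool.Agent.T2h76.Mt3
import Pool.Agent.R498.MT.Core0

/-! The number of the arguments in the classes. -/

set_option autoImplicit false
set_option linter.unusedSectionVars false

namespace Pool.Agent.T2h76Q.MT

open Pool.Agent.T2h76 Pool.Agent.T2h76.MT

open Finset Filter
open Pool.Agent.R498.MT
open Pool.Agent.Y677.RSZ (rt Sys rhoT per_mod)

variable {Dq : ℤ}

/-- the polynomial `n ^ 2 - D` -/
def G1 (Dq : ℤ) (n : ℤ) : ℤ := n ^ 2 - Dq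

theorem G1_per (p : ℕ) (_ : p.Prime) (n : ℤ) : (p : ℤ) ∣ (G1 Dq) (n + p) - (G1 Dq) n :=
  ⟨2 * n + p, by unfold G1; ring⟩

theorem rt_G1 (p : ℕ) : rt (G1 Dq) p = (Rt Dq p).card := by
  unfold rt
  apply Finset.card_bij (fun (n : ℕ) _ => (n : ℤ))
  · intro n hn
    rw [mem_filter, mem_range] at hn
    rw [mem_Rt]
    exact ⟨by positivity, by exact_mod_cast hn.1, hn.2⟩
  · intro a _ b _ h
    exact_mod_cast h
  · intro b hb
    obtain ⟨h1, h2, h3⟩ := mem_Rt.1 hb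
    refine ⟨b.toNat, ?_, Int.toNat_of_nonneg h1⟩
    rw [mem_filter, mem_range, Int.toNat_of_nonneg h1]
    refine ⟨?_, h3⟩
    zify
    rw [Int.toNat_of_nonneg h1]
    exact h2

section count
variable {S : Type} [Fintype S] [DecidableEq S]

open Classical in
/-- the classes of the conditions -/
noncomputable def CQ (Dq : ℤ) (pp : S → ℕ) (F : ℤ → ℤ) (W b : ℕ) {m : ℕ} (t : Fin m → ℕ) (Q : Finset ℕ)
    (V : S → Option (Fin m)) : Finset ℕ :=
  (range ((∏ p ∈ Q, p) * DT pp V)).filter (fun r : ℕ =>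
    (∀ p ∈ Q, ∃ j, (p : ℤ) ∣ F ((W * (r + t j) + b : ℕ) : ℤ)) ∧
    ∀ s j, V s = some j → (pp s : ℤ) ∣ (G1 Dq) ((W * (r + t j) + b : ℕ) : ℤ))

variable (pp : S → ℕ) (hpr : ∀ s, (pp s).Prime) (hinj : Function.Injective pp)

include hpr hinj in
theorem CQ_card (F : ℤ → ℤ) (hF : ∀ p : ℕ, p.Prime → ∀ n : ℤ, (p : ℤ) ∣ F (n + p) - F n)
    (W b : ℕ) {m : ℕ} (t : Fin m → ℕ) (Q : Finset ℕ) (hQ : ∀ p ∈ Q, p.Prime)
    (hQS : ∀ p ∈ Q, ∀ s, p ≠ pp s) (hW : ∀ s, ¬ pp s ∣ W) (V : S → Option (Fin m)) :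
    (CQ Dq pp F W b t Q V).card =
      (∏ p ∈ Q, rhoT F W b t p) * ∏ s, if V s = none then 1 else rt (G1 Dq) (pp s) := by
  classical
  have hQ0 : 0 < ∏ p ∈ Q, p := prod_pos fun p hp => (hQ p hp).pos
  have hcop : Nat.Coprime (∏ p ∈ Q, p) (DT pp V) := by
    unfold DT
    apply Nat.Coprime.prod_left
    intro p hp
    apply Nat.Coprime.prod_right
    intro s _
    split_ifs
    · exact Nat.coprime_one_right _
    · exact (Nat.coprime_primes (hQ p hp) (hpr s)).2 (hQS p hp s)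
  have h1 := Pool.Agent.Y833.RSZ.card_mul hQ0 (DT_pos pp hpr V) hcop
    (fun r => ∀ p ∈ Q, ∃ j, (p : ℤ) ∣ F ((W * (r + t j) + b : ℕ) : ℤ))
    (fun r => ∀ s j, V s = some j → (pp s : ℤ) ∣ (G1 Dq) ((W * (r + t j) + b : ℕ) : ℤ))
    (by
      intro r
      refine forall₂_congr fun p hp => exists_congr fun j => ?_
      apply per_mod hF (hQ p hp)
      have h2 : r % (∏ p ∈ Q, p) ≡ r [MOD p] :=
        (Nat.mod_modEq r _).of_dvd (dvd_prod_of_mem _ hp)
      exact (((h2.symm).add_right _).mul_left _).add_right _)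
    (by
      intro r
      refine forall_congr' fun s => forall₂_congr fun j hs => ?_
      apply per_mod G1_per (hpr s)
      have h3 : pp s ∣ DT pp V := by
        unfold DT
        have h4 := dvd_prod_of_mem (fun s => if V s = none then 1 else pp s) (mem_univ s)
        simpa [hs] using h4
      have h2 : r % DT pp V ≡ r [MOD pp s] := (Nat.mod_modEq r _).of_dvd h3
      exact (((h2.symm).add_right _).mul_left _).add_right _)
  have h2 := Pool.Agent.Y833.RSZ.card_prod Q hQ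
    (fun p r => ∃ j, (p : ℤ) ∣ F ((W * (r + t j) + b : ℕ) : ℤ)) (by
      intro p hp r
      refine exists_congr fun j => ?_
      apply per_mod hF (hQ p hp)
      exact (((Nat.mod_modEq r p).symm.add_right _).mul_left _).add_right _)
  have h3 := CT_card pp hpr hinj (G1 Dq) G1_per W b hW t V
  have h4 : CT pp (G1 Dq) W b t V = (range (DT pp V)).filter
      (fun r => ∀ s j, V s = some j → (pp s : ℤ) ∣ (G1 Dq) ((W * (r + t j) + b : ℕ) : ℤ)) := by
    ext r
    rw [mem_filter]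
    unfold CT
    rw [mem_filter]
    refine and_congr_right fun _ => ?_
    constructor
    · intro h s j hs
      exact (Dj_dvd pp hpr hinj V j _).1 (h j) s hs
    · intro h j
      rw [Dj_dvd pp hpr hinj V j]
      intro s hs
      exact h s j hs
  unfold CQ
  refine Eq.trans ?_ (h1.trans ?_)
  · apply congrArg Finset.card
    ext r
    simp only [mem_filter]
  · rw [← h3, h4]
    congr 1
    · refine Eq.trans ?_ (h2.trans ?_)
      · apply congrArg Finset.card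
        ext r
        simp only [mem_filter]
      · refine prod_congr rfl fun p _ => ?_
        unfold rhoT
        apply congrArg Finset.card
        ext r
        simp only [mem_filter]
    · apply congrArg Finset.card
      ext r
      simp only [mem_filter]

open Classical in
include hpr hinj in
/-- the sum over the arguments as a sum over the classes -/
theorem blk1 (F : ℤ → ℤ) (hF : ∀ p : ℕ, p.Prime → ∀ n : ℤ, (p : ℤ) ∣ F (n + p) - F n)
    (W b M L : ℕ) {m : ℕ} (t : Fin m → ℕ) (Q : Finset ℕ) (hQ : ∀ p ∈ Q, p.Prime)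
    (V : S → Option (Fin m)) (T : Finset S) (i : Fin m) (hT : ∀ s ∈ T, V s = none)
    (ξ : ℕ → S → Option (Fin m))
    (hξ : ∀ K s j, ξ K s = some j ↔ (pp s : ℤ) ∣ (G1 Dq) ((W * (K + t j) + b : ℕ) : ℤ)) (g : ℕ → ℝ) :
    ∑ K ∈ Ioc M (M + L), g K * ((if ∀ p ∈ Q, ∃ j, (p : ℤ) ∣ F ((W * (K + t j) + b : ℕ) : ℤ) then 1 else 0) *
      (if Sub (jn T V i) (ξ K) then 1 else 0)) =
    ∑ r ∈ CQ Dq pp F W b t Q V, ∑ K ∈ Ioc M (M + L), g K *
      (if K % ((∏ p ∈ Q, p) * DT pp V) = r % ((∏ p ∈ Q, p) * DT pp V) ∧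
        ((∏ s ∈ T, pp s : ℕ) : ℤ) ∣ (G1 Dq) ((W * (K + t i) + b : ℕ) : ℤ) then 1 else 0) := by
  rw [sum_comm]
  refine sum_congr rfl fun K _ => ?_
  rw [← mul_sum]
  congr 1
  set D := (∏ p ∈ Q, p) * DT pp V with hD
  have hD0 : 0 < D := Nat.mul_pos (prod_pos fun p hp => (hQ p hp).pos) (DT_pos pp hpr V)
  have hmem : K % D ∈ CQ Dq pp F W b t Q V ↔ (∀ p ∈ Q, ∃ j, (p : ℤ) ∣ F ((W * (K + t j) + b : ℕ) : ℤ)) ∧
      Sub V (ξ K) := by
    unfold CQ
    rw [mem_filter, mem_range]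
    have hper : ∀ (G : ℤ → ℤ), (∀ p : ℕ, p.Prime → ∀ n : ℤ, (p : ℤ) ∣ G (n + p) - G n) →
        ∀ (p : ℕ) (j : Fin m), p.Prime → p ∣ D → ((p : ℤ) ∣ G ((W * (K % D + t j) + b : ℕ) : ℤ) ↔
        (p : ℤ) ∣ G ((W * (K + t j) + b : ℕ) : ℤ)) := by
      intro G hG p j hp hpD
      apply per_mod hG hp
      have h2 : K % D ≡ K [MOD p] := (Nat.mod_modEq K _).of_dvd hpD
      exact ((h2.add_right _).mul_left _).add_right _
    have hpQ : ∀ p ∈ Q, p ∣ D := fun p hp => (dvd_prod_of_mem _ hp).trans (dvd_mul_right _ _)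
    have hpV : ∀ s j, V s = some j → pp s ∣ D := by
      intro s j hs
      refine dvd_trans ?_ (dvd_mul_left _ _)
      unfold DT
      have h4 := dvd_prod_of_mem (fun s => if V s = none then 1 else pp s) (mem_univ s)
      simpa [hs] using h4
    constructor
    · rintro ⟨_, h1, h2⟩
      refine ⟨fun p hp => ?_, fun s => ?_⟩
      · obtain ⟨j, hj⟩ := h1 p hp
        exact ⟨j, (hper F hF p j (hQ p hp) (hpQ p hp)).1 hj⟩
      · rcases hs : V s with _ | j
        · exact Or.inl rfl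
        · exact Or.inr ((hξ K s j).2 ((hper (G1 Dq) G1_per (pp s) j (hpr s) (hpV s j hs)).1 (h2 s j hs))).symm
    · rintro ⟨h1, h2⟩
      refine ⟨Nat.mod_lt _ hD0, fun p hp => ?_, fun s j hs => ?_⟩
      · obtain ⟨j, hj⟩ := h1 p hp
        exact ⟨j, (hper F hF p j (hQ p hp) (hpQ p hp)).2 hj⟩
      · apply (hper (G1 Dq) G1_per (pp s) j (hpr s) (hpV s j hs)).2
        rw [← hξ K s j]
        rcases h2 s with h3 | h3
        · rw [hs] at h3
          simp at h3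
        · rw [← h3, hs]
  have e2 : ∀ r ∈ CQ Dq pp F W b t Q V, (if K % D = r % D ∧
        ((∏ s ∈ T, pp s : ℕ) : ℤ) ∣ (G1 Dq) ((W * (K + t i) + b : ℕ) : ℤ) then (1 : ℝ) else 0) =
      if r = K % D then (if ((∏ s ∈ T, pp s : ℕ) : ℤ) ∣ (G1 Dq) ((W * (K + t i) + b : ℕ) : ℤ) then 1 else 0)
        else 0 := by
    intro r hr
    have hr' : r % D = r := by
      unfold CQ at hr
      rw [mem_filter, mem_range] at hr
      exact Nat.mod_eq_of_lt hr.1
    rw [hr']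
    by_cases h1 : K % D = r
    · by_cases h2 : ((∏ s ∈ T, pp s : ℕ) : ℤ) ∣ (G1 Dq) ((W * (K + t i) + b : ℕ) : ℤ)
      · rw [if_pos ⟨h1, h2⟩, if_pos h1.symm, if_pos h2]
      · rw [if_neg (fun h => h2 h.2), if_pos h1.symm, if_neg h2]
    · rw [if_neg (fun h => h1 h.1), if_neg (fun h => h1 h.symm)]
  rw [sum_congr rfl e2, sum_ite_eq']
  have h3 : Sub (jn T V i) (ξ K) ↔ Sub V (ξ K) ∧
      ((∏ s ∈ T, pp s : ℕ) : ℤ) ∣ (G1 Dq) ((W * (K + t i) + b : ℕ) : ℤ) := by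
    rw [sub_jn T V (ξ K) i hT, T_dvd pp T _ hpr hinj]
    refine and_congr_right fun _ => forall₂_congr fun s _ => hξ K s i
  by_cases h4 : K % D ∈ CQ Dq pp F W b t Q V
  · obtain ⟨h5, h6⟩ := hmem.1 h4
    rw [if_pos h4, if_pos h5, one_mul]
    by_cases h7 : ((∏ s ∈ T, pp s : ℕ) : ℤ) ∣ (G1 Dq) ((W * (K + t i) + b : ℕ) : ℤ)
    · rw [if_pos (h3.2 ⟨h6, h7⟩), if_pos h7]
    · rw [if_neg (fun h => h7 (h3.1 h).2), if_neg h7]
  · rw [if_neg h4]
    by_cases h5 : ∀ p ∈ Q, ∃ j, (p : ℤ) ∣ F ((W * (K + t j) + b : ℕ) : ℤ)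
    · rw [if_pos h5, one_mul, if_neg]
      intro h
      exact h4 (hmem.2 ⟨h5, (h3.1 h).1⟩)
    · rw [if_neg h5, zero_mul]

end count

end Pool.Agent.T2h76Q.MT
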