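import Pool.Agent.T2h76Q.Mt3

/-! The evaluation of the weighted sums. -/

set_option autoImplicit false
set_option linter.unusedSectionVars false

namespace Pool.Agent.T2h76Q.MT

open Pool.Agent.T2h76 Pool.Agent.T2h76.MT

open Finset Filter
open Pool.Agent.R498.MT
open Pool.Agent.Y677.RSZ (rt Sys rhoT per_mod)
open Pool.Agent.Y882 (VV)

variable {Dq : ℤ}

section eval
variable {S : Type} [Fintype S] [DecidableEq S]

/-- inverse densities -/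
noncomputable def qq (Dq : ℤ) (pp : S → ℕ) (s : S) : ℝ := ((pp s : ℕ) : ℝ) / rt (G1 Dq) (pp s)

theorem rV_jn (pp : S → ℕ) {m : ℕ} (V : S → Option (Fin m)) (T : Finset S) (i : Fin m)
    (hT : ∀ s ∈ T, V s = none) : rV (qq Dq pp) (jn T V i) =
      (∏ s ∈ T, (rt (G1 Dq) (pp s) : ℝ) / pp s) * ∏ s, if V s = none then 1 else (rt (G1 Dq) (pp s) : ℝ) / pp s := by
  classical
  unfold rV
  have h1 : ∀ s, Pool.Agent.R498.MT.rr (fun _ : Fin m => 1 / qq Dq pp s) (jn T V i s) =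
      (if s ∈ T then (rt (G1 Dq) (pp s) : ℝ) / pp s else 1) *
        (if V s = none then 1 else (rt (G1 Dq) (pp s) : ℝ) / pp s) := by
    intro s
    unfold jn qq
    by_cases hs : s ∈ T
    · rw [if_pos hs, if_pos hs, if_pos (hT s hs), mul_one]
      simp only [Pool.Agent.R498.MT.rr]
      rw [one_div, inv_div]
    · rw [if_neg hs, if_neg hs, one_mul]
      rcases hV : V s with _ | j
      · simp [Pool.Agent.R498.MT.rr]
      · simp only [Pool.Agent.R498.MT.rr, reduceCtorEq, if_false]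
        rw [one_div, inv_div]
  rw [prod_congr rfl (fun s _ => h1 s), prod_mul_distrib, prod_ite_mem, univ_inter]

variable (pp : S → ℕ) (hpr : ∀ s, (pp s).Prime) (hinj : Function.Injective pp)

open Classical in
include hpr hinj in
theorem NT (F : ℤ → ℤ) (hF : ∀ p : ℕ, p.Prime → ∀ n : ℤ, (p : ℤ) ∣ F (n + p) - F n)
    (W b M L : ℕ) (hW0 : 0 < W) {m : ℕ} (t : Fin m → ℕ) (Q : Finset ℕ) (hQ : ∀ p ∈ Q, p.Prime)
    (hQS : ∀ p ∈ Q, ∀ s, p ≠ pp s) (hW : ∀ s, ¬ pp s ∣ W)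
    (V : S → Option (Fin m)) (T : Finset S) (i : Fin m) (hT : ∀ s ∈ T, V s = none)
    (ξ : ℕ → S → Option (Fin m))
    (hξ : ∀ K s j, ξ K s = some j ↔ (pp s : ℤ) ∣ (G1 Dq) ((W * (K + t j) + b : ℕ) : ℤ))
    (Y c Λ : ℝ) (hY : 1 ≤ Y) (hΛ : 0 ≤ Λ) (hc1 : ((W * M + b : ℕ) : ℝ) + Y * Λ ≤ c)
    (hc2 : c + Y * Λ ≤ ((W * (M + L) + b : ℕ) : ℝ)) :
    |∑ K ∈ Ioc M (M + L), gw Y c ((W * K + b : ℕ) : ℤ) *
        ((if ∀ p ∈ Q, ∃ j, (p : ℤ) ∣ F ((W * (K + t j) + b : ℕ) : ℤ) then 1 else 0) *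
        (if Sub (jn T V i) (ξ K) then 1 else 0)) -
      (Y / W) * ((∏ p ∈ Q, (rhoT F W b t p : ℝ) / p) * rV (qq Dq pp) (jn T V i)) -
      ∑ r ∈ CQ Dq pp F W b t Q V, rmd Dq Y (c + W * t i) (W * ((∏ p ∈ Q, p) * DT pp V))
        ((W * (r + t i) + b : ℕ) : ℤ) (∏ s ∈ T, pp s)| ≤
      (CQ Dq pp F W b t Q V).card * (Real.exp (-(Real.pi / 2 * Λ ^ 2)) * (2 * Y + C0)) := by
  rw [blk1 pp hpr hinj F hF W b M L t Q hQ V T i hT ξ hξ]
  set D := (∏ p ∈ Q, p) * DT pp V with hD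
  have hQ0 : 0 < ∏ p ∈ Q, p := prod_pos fun p hp => (hQ p hp).pos
  have hDT := DT_pos pp hpr V
  have hD0 : 0 < D := Nat.mul_pos hQ0 hDT
  have hd0 : 0 < ∏ s ∈ T, pp s := prod_pos fun s _ => (hpr s).pos
  have hcard := CQ_card (Dq := Dq) pp hpr hinj F hF W b t Q hQ hQS hW V
  have hmain : (Y / W) * ((∏ p ∈ Q, (rhoT F W b t p : ℝ) / p) * rV (qq Dq pp) (jn T V i)) =
      ∑ _r ∈ CQ Dq pp F W b t Q V, ((Rt Dq (∏ s ∈ T, pp s)).card : ℝ) *
        (Y / (((∏ s ∈ T, pp s : ℕ) : ℝ) * ((W * D : ℕ) : ℝ))) := by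
    rw [sum_const, nsmul_eq_mul, hcard, rV_jn pp V T i hT]
    have e1 : ((Rt Dq (∏ s ∈ T, pp s)).card : ℝ) = ∏ s ∈ T, (rt (G1 Dq) (pp s) : ℝ) := by
      have h1 : ∏ s ∈ T, pp s = ∏ p ∈ T.image pp, p := by
        rw [prod_image (fun a _ b _ h => hinj h)]
      rw [h1, card_prod _ (by
        intro p hp
        rw [mem_image] at hp
        obtain ⟨s, _, rfl⟩ := hp
        exact hpr s), prod_image (fun a _ b _ h => hinj h)]
      push_cast
      refine prod_congr rfl fun s _ => ?_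
      rw [rt_G1]
    have e2 : ((DT pp V : ℕ) : ℝ) = ∏ s, if V s = none then (1 : ℝ) else pp s := by
      unfold DT
      push_cast
      rfl
    rw [e1, hD]
    push_cast
    rw [e2, prod_div_distrib, prod_div_distrib]
    have e3 : ∏ s, (if V s = none then (1 : ℝ) else (rt (G1 Dq) (pp s) : ℝ) / pp s) =
        (∏ s, if V s = none then (1 : ℝ) else (rt (G1 Dq) (pp s) : ℝ)) /
          ∏ s, if V s = none then (1 : ℝ) else pp s := by
      rw [← prod_div_distrib]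
      refine prod_congr rfl fun s _ => ?_
      split_ifs
      · rw [div_one]
      · rfl
    rw [e3]
    have f1 : ((W : ℕ) : ℝ) ≠ 0 := by exact_mod_cast hW0.ne'
    have f2 : ∏ p ∈ Q, (p : ℝ) ≠ 0 :=
      Finset.prod_ne_zero_iff.2 fun p hp => by exact_mod_cast (hQ p hp).ne_zero
    have f3 : ∏ s ∈ T, (pp s : ℝ) ≠ 0 :=
      Finset.prod_ne_zero_iff.2 fun s _ => by exact_mod_cast (hpr s).ne_zero
    have f4 : ∏ s, (if V s = none then (1 : ℝ) else pp s) ≠ 0 := by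
      rw [← e2]
      exact_mod_cast hDT.ne'
    field_simp
  rw [hmain, ← sum_sub_distrib, ← sum_sub_distrib]
  refine (abs_sum_le_sum_abs _ _).trans ?_
  have hone : ∀ r ∈ CQ Dq pp F W b t Q V, |∑ K ∈ Ioc M (M + L), gw Y c ((W * K + b : ℕ) : ℤ) *
      (if K % D = r % D ∧ ((∏ s ∈ T, pp s : ℕ) : ℤ) ∣ (G1 Dq) ((W * (K + t i) + b : ℕ) : ℤ) then 1 else 0) -
      ((Rt Dq (∏ s ∈ T, pp s)).card : ℝ) * (Y / (((∏ s ∈ T, pp s : ℕ) : ℝ) * ((W * D : ℕ) : ℝ))) -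
      rmd Dq Y (c + W * t i) (W * D) ((W * (r + t i) + b : ℕ) : ℤ) (∏ s ∈ T, pp s)| ≤
      Real.exp (-(Real.pi / 2 * Λ ^ 2)) * (2 * Y + C0) := by
    intro r _
    rw [cls_sum Y c W D b M L (t i) hW0 r (fun n => ((∏ s ∈ T, pp s : ℕ) : ℤ) ∣ (G1 Dq) n)]
    have h1 := win Y (c + W * t i) Λ hY hΛ ((W * (M + t i) + b : ℕ) : ℤ)
      ((W * (M + L + t i) + b : ℕ) : ℤ) (by
        push_cast at hc1 ⊢
        linarith) (by
        push_cast at hc2 ⊢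
        linarith) (fun n => ((W * D : ℕ) : ℤ) ∣ n - ((W * (r + t i) + b : ℕ) : ℤ) ∧
          ((∏ s ∈ T, pp s : ℕ) : ℤ) ∣ (G1 Dq) n)
    refine le_trans (le_of_eq ?_) h1
    congr 1
    have h2 : ∑' n : ℤ, gw Y (c + W * t i) n * (if (((W * D : ℕ) : ℤ) ∣ n - ((W * (r + t i) + b : ℕ) : ℤ) ∧
          ((∏ s ∈ T, pp s : ℕ) : ℤ) ∣ (G1 Dq) n) then (1 : ℝ) else 0) =
        cntq Dq Y (c + W * t i) (W * D) ((W * (r + t i) + b : ℕ) : ℤ) (∏ s ∈ T, pp s) := by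
      unfold cntq G1
      refine tsum_congr fun n => ?_
      congr
    rw [h2]
    unfold rmd
    ring
  refine (sum_le_sum hone).trans (le_of_eq ?_)
  rw [sum_const, nsmul_eq_mul]

end eval

end Pool.Agent.T2h76Q.MT
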