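import Pool.Agent.T2h76Q.Mt4
import Pool.Agent.T2h76.Mt5

/-! The evaluation of the weighted sums. -/

set_option autoImplicit false
set_option linter.unusedSectionVars false

namespace Pool.Agent.T2h76Q.MT

open Pool.Agent.T2h76 Pool.Agent.T2h76.MT

open Finset Filter
open Pool.Agent.R498.MT
open Pool.Agent.Y677.RSZ (rt Sys rhoT per_mod)
open Pool.Agent.Y882 (VV)

variable {Dq : ℤ}

section eval
variable {S : Type} [Fintype S] [DecidableEq S]
variable (pp : S → ℕ) (hpr : ∀ s, (pp s).Prime) (hinj : Function.Injective pp)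

open Classical in
include hpr hinj in
/-- **The evaluation.** -/
theorem eval (F : ℤ → ℤ) (hF : ∀ p : ℕ, p.Prime → ∀ n : ℤ, (p : ℤ) ∣ F (n + p) - F n)
    (W b M L : ℕ) (hW0 : 0 < W) {m : ℕ} (t : Fin m → ℕ) (P : Finset ℕ) (hP : ∀ p ∈ P, p.Prime)
    (hPS : ∀ p ∈ P, ∀ s, p ≠ pp s) (hW : ∀ s, ¬ pp s ∣ W) (i : Fin m)
    (ξ : ℕ → S → Option (Fin m))
    (hξ : ∀ K s j, ξ K s = some j ↔ (pp s : ℤ) ∣ (G1 Dq) ((W * (K + t j) + b : ℕ) : ℤ))
    (Y c Λ : ℝ) (hY : 1 ≤ Y) (hΛ : 0 ≤ Λ) (hc1 : ((W * M + b : ℕ) : ℝ) + Y * Λ ≤ c)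
    (hc2 : c + Y * Λ ≤ ((W * (M + L) + b : ℕ) : ℝ))
    (nK : ℕ → ℕ) (hnK : ∀ K, ∀ p ∈ P, p ∣ nK K ↔ ∃ j, (p : ℤ) ∣ F ((W * (K + t j) + b : ℕ) : ℤ))
    (lam : Finset ℕ → ℝ) (a : (S → Option (Fin m)) → ℝ) (cc : Finset S → ℝ) (zQ zV c' : ℕ)
    (Λ0 K0 E₁ TT : ℝ) (hlam : ∀ Q, |lam Q| ≤ Λ0)
    (hlams : ∀ Q ⊆ P, lam Q ≠ 0 → ∏ p ∈ Q, p ≤ zQ) (ha : ∀ V, |a V| ≤ K0)
    (has : ∀ V, a V ≠ 0 → DT pp V ≤ zV ∧ (univ.filter (fun s => V s ≠ none)).card ≤ c')
    (hcc : ∑ T, |cc T| ≤ TT) (hE₁ : 0 ≤ E₁)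
    (hbl : ∀ Q ⊆ P, ∏ p ∈ Q, p ≤ zQ → ∀ V : S → Option (Fin m), DT pp V ≤ zV → ∀ u : ℤ,
      |∑ T : Finset S, (if ∀ s ∈ T, V s = none then cc T * rmd Dq Y (c + W * t i)
        (W * ((∏ p ∈ Q, p) * DT pp V)) u (∏ s ∈ T, pp s) else 0)| ≤ E₁) :
    |∑ K ∈ Ioc M (M + L), gw Y c ((W * K + b : ℕ) : ℤ) *
        (VV P lam (fun p => if p ∣ nK K then 1 else 0) *
        ∑ V, ∑ T : Finset S, (if ∀ s ∈ T, V s = none then a V * cc T else 0) *
          (if Sub (jn T V i) (ξ K) then 1 else 0)) -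
      (Y / W) * (VV P lam (fun p => (rhoT F W b t p : ℝ) / p) *
        ∑ V, ∑ T : Finset S, (if ∀ s ∈ T, V s = none then a V * cc T else 0) *
          rV (qq Dq pp) (jn T V i))| ≤
      (zQ * Λ0) * (((m + 1 : ℕ) : ℝ) ^ c' * zV * K0) * ((zQ * zV : ℕ) *
        (E₁ + TT * (Real.exp (-(Real.pi / 2 * Λ ^ 2)) * (2 * Y + C0)))) := by
  set tail := Real.exp (-(Real.pi / 2 * Λ ^ 2)) * (2 * Y + C0) with htail
  have htail0 : 0 ≤ tail := by
    have := C0_nonneg
    positivity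
  have hTT0 : 0 ≤ TT := le_trans (sum_nonneg fun T _ => abs_nonneg _) hcc
  have hΛ00 : 0 ≤ Λ0 := (abs_nonneg _).trans (hlam ∅)
  have hK00 : 0 ≤ K0 := (abs_nonneg _).trans (ha (fun _ => none))
  set B : Finset ℕ → (S → Option (Fin m)) → Finset S → ℝ := fun Q V T =>
    ∑ K ∈ Ioc M (M + L), gw Y c ((W * K + b : ℕ) : ℤ) *
        ((if ∀ p ∈ Q, ∃ j, (p : ℤ) ∣ F ((W * (K + t j) + b : ℕ) : ℤ) then 1 else 0) *
        (if Sub (jn T V i) (ξ K) then 1 else 0)) with hB
  set Mn : Finset ℕ → (S → Option (Fin m)) → Finset S → ℝ := fun Q V T =>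
    (Y / W) * ((∏ p ∈ Q, (rhoT F W b t p : ℝ) / p) * rV (qq Dq pp) (jn T V i)) with hMn
  have e1 : ∑ K ∈ Ioc M (M + L), gw Y c ((W * K + b : ℕ) : ℤ) *
        (VV P lam (fun p => if p ∣ nK K then 1 else 0) *
        ∑ V, ∑ T : Finset S, (if ∀ s ∈ T, V s = none then a V * cc T else 0) *
          (if Sub (jn T V i) (ξ K) then 1 else 0)) =
      ∑ Q ∈ P.powerset, lam Q * ∑ V, ∑ T : Finset S,
        (if ∀ s ∈ T, V s = none then a V * cc T else 0) * B Q V T := by
    have g1 : ∀ K : ℕ, VV P lam (fun p => if p ∣ nK K then (1 : ℝ) else 0) = ∑ Q ∈ P.powerset, lam Q *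
        (if ∀ p ∈ Q, ∃ j, (p : ℤ) ∣ F ((W * (K + t j) + b : ℕ) : ℤ) then (1 : ℝ) else 0) := by
      intro K
      unfold VV
      refine sum_congr rfl fun Q hQ => ?_
      rw [mem_powerset] at hQ
      congr 1
      rw [Finset.prod_ite_zero]
      simp only [prod_const_one]
      exact if_congr (forall₂_congr fun p hp => hnK K p (hQ hp)) rfl rfl
    simp_rw [g1]
    exact swap4 _ _ _ _ _ _ _ _ _
  have e2 : (Y / W) * (VV P lam (fun p => (rhoT F W b t p : ℝ) / p) *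
        ∑ V, ∑ T : Finset S, (if ∀ s ∈ T, V s = none then a V * cc T else 0) *
          rV (qq Dq pp) (jn T V i)) =
      ∑ Q ∈ P.powerset, lam Q * ∑ V, ∑ T : Finset S,
        (if ∀ s ∈ T, V s = none then a V * cc T else 0) * Mn Q V T := by
    unfold VV
    simp_rw [hMn, sum_mul, mul_sum]
    refine sum_congr rfl fun Q _ => ?_
    refine sum_congr rfl fun V _ => ?_
    refine sum_congr rfl fun T _ => ?_
    ring
  rw [e1, e2, ← sum_sub_distrib]
  have hX : ∀ Q ⊆ P, ∏ p ∈ Q, p ≤ zQ → ∀ V : S → Option (Fin m), DT pp V ≤ zV →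
      |∑ T : Finset S, (if ∀ s ∈ T, V s = none then cc T else 0) * (B Q V T - Mn Q V T)| ≤
        (zQ * zV : ℕ) * (E₁ + TT * tail) := by
    intro Q hQ hQz V hV
    have hCQ : ((CQ Dq pp F W b t Q V).card : ℝ) ≤ ((zQ * zV : ℕ) : ℝ) := by
      have g1 : (CQ Dq pp F W b t Q V).card ≤ (∏ p ∈ Q, p) * DT pp V := by
        unfold CQ
        refine (card_filter_le _ _).trans (le_of_eq (card_range _))
      exact_mod_cast g1.trans (Nat.mul_le_mul hQz hV)
    set Rm : Finset S → ℝ := fun T => ∑ r ∈ CQ Dq pp F W b t Q V, rmd Dq Y (c + W * t i)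
      (W * ((∏ p ∈ Q, p) * DT pp V)) ((W * (r + t i) + b : ℕ) : ℤ) (∏ s ∈ T, pp s) with hRm
    have g1 : ∑ T : Finset S, (if ∀ s ∈ T, V s = none then cc T else 0) * (B Q V T - Mn Q V T) =
        ∑ T : Finset S, (if ∀ s ∈ T, V s = none then cc T * Rm T else 0) +
        ∑ T : Finset S, (if ∀ s ∈ T, V s = none then cc T else 0) * (B Q V T - Mn Q V T - Rm T) := by
      rw [← sum_add_distrib]
      refine sum_congr rfl fun T _ => ?_
      split_ifs <;> ring
    have g2 : |∑ T : Finset S, (if ∀ s ∈ T, V s = none then cc T * Rm T else 0)| ≤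
        ((zQ * zV : ℕ) : ℝ) * E₁ := by
      have g3 : ∑ T : Finset S, (if ∀ s ∈ T, V s = none then cc T * Rm T else 0) =
          ∑ r ∈ CQ Dq pp F W b t Q V, ∑ T : Finset S, (if ∀ s ∈ T, V s = none then cc T *
            rmd Dq Y (c + W * t i) (W * ((∏ p ∈ Q, p) * DT pp V)) ((W * (r + t i) + b : ℕ) : ℤ)
              (∏ s ∈ T, pp s) else 0) := by
        rw [sum_comm]
        refine sum_congr rfl fun T _ => ?_
        split_ifs
        · rw [hRm, mul_sum]
        · rw [sum_const_zero]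
      rw [g3]
      refine (abs_sum_le_sum_abs _ _).trans ?_
      refine (sum_le_sum fun r _ => hbl Q hQ hQz V hV _).trans ?_
      rw [sum_const, nsmul_eq_mul]
      exact mul_le_mul_of_nonneg_right hCQ hE₁
    have g3 : |∑ T : Finset S, (if ∀ s ∈ T, V s = none then cc T else 0) *
        (B Q V T - Mn Q V T - Rm T)| ≤ ((zQ * zV : ℕ) : ℝ) * (TT * tail) := by
      refine (abs_sum_le_sum_abs _ _).trans ?_
      have g4 : ∀ T : Finset S, |(if ∀ s ∈ T, V s = none then cc T else 0) *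
          (B Q V T - Mn Q V T - Rm T)| ≤ |cc T| * (((zQ * zV : ℕ) : ℝ) * tail) := by
        intro T
        split_ifs with hT
        · rw [abs_mul]
          apply mul_le_mul_of_nonneg_left _ (abs_nonneg _)
          have g5 := NT pp hpr hinj F hF W b M L hW0 t Q (fun p hp => hP p (hQ hp))
            (fun p hp => hPS p (hQ hp)) hW V T i hT ξ hξ Y c Λ hY hΛ hc1 hc2
          refine g5.trans ?_
          exact mul_le_mul_of_nonneg_right hCQ htail0
        · rw [zero_mul, abs_zero]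
          positivity
      refine (sum_le_sum fun T _ => g4 T).trans ?_
      rw [← sum_mul]
      calc (∑ T, |cc T|) * (((zQ * zV : ℕ) : ℝ) * tail) ≤ TT * (((zQ * zV : ℕ) : ℝ) * tail) :=
            mul_le_mul_of_nonneg_right hcc (by positivity)
        _ = _ := by ring
    rw [g1]
    refine (abs_add_le _ _).trans ?_
    linarith
  have hQsum : ∀ Q ∈ P.powerset, |lam Q * ∑ V, ∑ T : Finset S,
        (if ∀ s ∈ T, V s = none then a V * cc T else 0) * B Q V T -
      lam Q * ∑ V, ∑ T : Finset S, (if ∀ s ∈ T, V s = none then a V * cc T else 0) * Mn Q V T| ≤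
      (if ∏ p ∈ Q, p ≤ zQ then 1 else 0) * (Λ0 * ((((m + 1 : ℕ) : ℝ) ^ c' * zV * K0) * ((zQ * zV : ℕ) *
        (E₁ + TT * tail)))) := by
    intro Q hQ
    rw [mem_powerset] at hQ
    by_cases h0 : lam Q = 0
    · rw [h0, zero_mul, zero_mul, sub_zero, abs_zero]
      split_ifs <;> positivity
    have hQz := hlams Q hQ h0
    rw [if_pos hQz, one_mul, ← mul_sub, abs_mul]
    apply mul_le_mul (hlam Q) _ (abs_nonneg _) hΛ00
    rw [← sum_sub_distrib]
    have g1 : ∀ V : S → Option (Fin m), |∑ T : Finset S,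
        (if ∀ s ∈ T, V s = none then a V * cc T else 0) * B Q V T -
        ∑ T : Finset S, (if ∀ s ∈ T, V s = none then a V * cc T else 0) * Mn Q V T| ≤
        (if DT pp V ≤ zV ∧ (univ.filter (fun s => V s ≠ none)).card ≤ c' then 1 else 0) *
          (K0 * ((zQ * zV : ℕ) * (E₁ + TT * tail))) := by
      intro V
      by_cases h1 : a V = 0
      · have g2 : ∀ T : Finset S, (if ∀ s ∈ T, V s = none then a V * cc T else 0) = 0 := by
          intro T
          rw [h1]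
          split_ifs <;> ring
        simp only [g2, zero_mul, sum_const_zero, sub_zero, abs_zero]
        split_ifs <;> positivity
      · rw [if_pos (has V h1), one_mul]
        have g2 : ∑ T : Finset S, (if ∀ s ∈ T, V s = none then a V * cc T else 0) * B Q V T -
            ∑ T : Finset S, (if ∀ s ∈ T, V s = none then a V * cc T else 0) * Mn Q V T =
            a V * ∑ T : Finset S, (if ∀ s ∈ T, V s = none then cc T else 0) * (B Q V T - Mn Q V T) := by
          rw [← sum_sub_distrib, mul_sum]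
          refine sum_congr rfl fun T _ => ?_
          split_ifs <;> ring
        rw [g2, abs_mul]
        exact mul_le_mul (ha V) (hX Q hQ hQz V (has V h1).1) (abs_nonneg _) hK00
    refine (abs_sum_le_sum_abs _ _).trans ((sum_le_sum fun V _ => g1 V).trans ?_)
    rw [← sum_mul, sum_boole]
    have g3 := cntV pp hpr hinj (m := m) zV c'
    have g4 : ((univ.filter (fun V : S → Option (Fin m) => DT pp V ≤ zV ∧
      (univ.filter (fun s => V s ≠ none)).card ≤ c')).card : ℝ) ≤ ((m + 1 : ℕ) : ℝ) ^ c' * zV := by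
      exact_mod_cast g3
    calc _ ≤ (((m + 1 : ℕ) : ℝ) ^ c' * zV) * (K0 * ((zQ * zV : ℕ) * (E₁ + TT * tail))) :=
          mul_le_mul_of_nonneg_right g4 (by positivity)
      _ = _ := by ring
  refine (abs_sum_le_sum_abs _ _).trans ((sum_le_sum hQsum).trans ?_)
  rw [← sum_mul, sum_boole]
  have g3 : ((P.powerset.filter (fun Q => ∏ p ∈ Q, p ≤ zQ)).card : ℝ) ≤ zQ := by
    exact_mod_cast cntQ P hP zQ
  calc _ ≤ (zQ : ℝ) * (Λ0 * ((((m + 1 : ℕ) : ℝ) ^ c' * zV * K0) * ((zQ * zV : ℕ) *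
        (E₁ + TT * tail)))) := mul_le_mul_of_nonneg_right g3 (by positivity)
    _ = _ := by ring

end eval

end Pool.Agent.T2h76Q.MT
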