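import Pool.Agent.T2h76Q.Ks2
import Pool.Agent.T2h76.Ph

/-! The phase attached to a root of `ν ^ 2 - D`. -/

set_option autoImplicit false

namespace Pool.Agent.T2h76Q

open Finset
open Pool.Agent.H442R2.KF (e norm_e e_add e_congr norm_e_sub_le)
open Pool.Agent.T2h76 (crt crt_spec abel)

theorem phase (D : ℤ) (N y L q m : ℕ) [NeZero N] (hN : N = y * L * q) (x c Θ j : ℤ)
    (hm1 : 1 ≤ m)
    (hm : x ^ 2 - D * (y : ℤ) ^ 2 = m) (hxy : IsCoprime x (y : ℤ)) (hmL : Nat.Coprime m (L * q))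
    (hc : (m : ℤ) ∣ c * y - x) (hcΘ : ((L * q : ℕ) : ℤ) ∣ c - Θ) :
    e ((j : ℝ) * c / (m * (L * q))) =
      e ((j : ℝ) * x / (y * L * q * m)) * phi D N y Θ j ((x : ℤ) : ZMod N) := by
  have hN0 : N ≠ 0 := NeZero.ne N
  have hy0 : y ≠ 0 := by rintro rfl; simp at hN; exact hN0 hN
  have hL0 : L ≠ 0 := by rintro rfl; simp at hN; exact hN0 hN
  have hq0 : q ≠ 0 := by rintro rfl; simp at hN; exact hN0 hN
  have hy1 : (0 : ℤ) < y := by exact_mod_cast Nat.pos_of_ne_zero hy0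
  have hm0 : m ≠ 0 := by omega
  have hcop : IsCoprime (m : ℤ) (N : ℤ) := by
    rw [hN]
    push_cast
    rw [mul_assoc]
    apply IsCoprime.mul_right
    · rw [← hm]
      exact (cop_m x y D hxy).symm
    · have := Nat.isCoprime_iff_coprime.mpr hmL
      push_cast at this
      exact this
  have hunit : IsUnit (((x : ℤ) : ZMod N) ^ 2 - (D : ZMod N) * (((y : ℤ)) : ZMod N) ^ 2) := by
    have h4 : (((x : ℤ) : ZMod N) ^ 2 - (D : ZMod N) * (((y : ℤ)) : ZMod N) ^ 2) =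
        (((m : ℤ)) : ZMod N) := by
      rw [← hm]; push_cast; ring
    rw [h4, ZMod.coe_int_isUnit_iff_isCoprime]
    exact hcop.symm
  unfold phi
  rw [if_pos hunit]
  set S : ZMod N := ((x : ℤ) : ZMod N) ^ 2 - (D : ZMod N) * (((y : ℤ)) : ZMod N) ^ 2 with hS
  obtain ⟨Z, hZ⟩ := ZMod.intCast_surjective ((((x : ℤ) : ZMod N) - (Θ : ZMod N) * (((y : ℤ)) : ZMod N)) * S⁻¹)
  rw [← hZ]
  have hZm : (N : ℤ) ∣ m * Z - (x - Θ * y) := by
    rw [← ZMod.intCast_eq_intCast_iff_dvd_sub, eq_comm]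
    push_cast
    rw [hZ]
    have hSm : ((m : ℕ) : ZMod N) = S := by
      have : (((m : ℤ)) : ZMod N) = S := by rw [← hm, hS]; push_cast; ring
      exact_mod_cast this
    rw [hSm]
    have hS1 : S * S⁻¹ = 1 := ZMod.mul_inv_of_unit _ hunit
    calc S * ((((x : ℤ) : ZMod N) - (Θ : ZMod N) * (((y : ℤ)) : ZMod N)) * S⁻¹) =
        (((x : ℤ) : ZMod N) - (Θ : ZMod N) * (((y : ℤ)) : ZMod N)) * (S * S⁻¹) := by ring
      _ = _ := by rw [hS1, mul_one]; push_cast; ring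
  have hdiv : (m : ℤ) * N ∣ c * y - x + Z * m := by
    apply hcop.mul_dvd
    · exact dvd_add hc (dvd_mul_left _ _)
    · have h1 : (N : ℤ) ∣ c * y - Θ * y := by
        obtain ⟨t, ht⟩ := hcΘ
        refine ⟨t, ?_⟩
        have : c * (y : ℤ) - Θ * y = y * (c - Θ) := by ring
        rw [this, ht, hN]
        push_cast
        ring
      have e1 : c * y - x + Z * m = (c * y - Θ * y) + (m * Z - (x - Θ * y)) := by ring
      rw [e1]
      exact dvd_add h1 hZm
  obtain ⟨t, ht⟩ := hdiv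
  have e2 : (ZMod.stdAddChar (-(j : ZMod N) * (Z : ZMod N)) : ℂ) = e (-((j : ℝ) * Z) / N) := by
    have : -(j : ZMod N) * (Z : ZMod N) = (((-(j * Z) : ℤ)) : ZMod N) := by push_cast; ring
    rw [this, ZMod.stdAddChar_coe]
    unfold Pool.Agent.H442R2.KF.e
    congr 1
    push_cast
    ring
  rw [e2, ← e_add]
  apply e_congr (j * t)
  have hyr : (y : ℝ) ≠ 0 := by exact_mod_cast hy0
  have hLr : (L : ℝ) ≠ 0 := by exact_mod_cast hL0
  have hqr : (q : ℝ) ≠ 0 := by exact_mod_cast hq0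
  have hmr : (m : ℝ) ≠ 0 := by exact_mod_cast hm0
  have htr : (c : ℝ) * y - x + Z * m = m * (y * L * q) * t := by
    have h1 : (c : ℝ) * y - x + Z * m = m * N * t := by exact_mod_cast ht
    rw [h1, hN]
    push_cast
    ring
  rw [hN]
  push_cast
  field_simp
  linear_combination (j : ℝ) * htr

theorem phi_zero (D : ℤ) (N y L q m : ℕ) [NeZero N] (hN : N = y * L * q) (x Θ j : ℤ)
    (hm : x ^ 2 - D * (y : ℤ) ^ 2 = m) (h : ¬ (IsCoprime x (y : ℤ) ∧ Nat.Coprime m (L * q))) :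
    phi D N y Θ j ((x : ℤ) : ZMod N) = 0 := by
  unfold phi
  rw [if_neg]
  intro h1
  apply h
  have h4 : (((x : ℤ) : ZMod N) ^ 2 - (D : ZMod N) * (((y : ℤ)) : ZMod N) ^ 2) =
      (((m : ℤ)) : ZMod N) := by
    rw [← hm]; push_cast; ring
  rw [h4, ZMod.coe_int_isUnit_iff_isCoprime, hN] at h1
  push_cast at h1
  rw [mul_assoc, IsCoprime.mul_left_iff] at h1
  constructor
  · have h2 := h1.1
    rw [← hm] at h2
    have e1 : x ^ 2 - D * (y : ℤ) ^ 2 = x ^ 2 + y * (-D * y) := by ring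
    rw [e1, IsCoprime.add_mul_left_right_iff, IsCoprime.pow_right_iff (by norm_num : 0 < 2)] at h2
    exact h2.symm
  · rw [← Nat.isCoprime_iff_coprime]
    push_cast
    exact h1.2.symm

end Pool.Agent.T2h76Q
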