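import Pool.Agent.T2h76Q.Ro

/-! Roots of `ν ^ 2 - 2` modulo `m` and primitive representations of `m` by `x ^ 2 - 2 y ^ 2`. -/

set_option autoImplicit false

namespace Pool.Agent.T2h76Q

open Finset

open Classical in
/-- the primitive representations in the sector `10 y < 7 x`, `x ≤ 2 y` -/
noncomputable def Pt (m : ℕ) : Finset (ℤ × ℤ) :=
  ((Ioc (0 : ℤ) (10 * m)) ×ˢ (Ioc (0 : ℤ) (10 * m))).filter
    (fun z => 10 * z.2 < 7 * z.1 ∧ z.1 ≤ 2 * z.2 ∧ IsCoprime z.1 z.2 ∧ z.1 ^ 2 - 2 * z.2 ^ 2 = m)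

/-- size of the points -/
theorem pt_size (x y m : ℤ) (hy : 0 < y) (h1 : 10 * y < 7 * x) (h : x ^ 2 - 2 * y ^ 2 = m) :
    2 * y ^ 2 < 49 * m := by
  have hx : 0 < x := by omega
  have h2 : 100 * y ^ 2 < 49 * x ^ 2 := by nlinarith
  linarith

theorem mem_Pt {m : ℕ} {z : ℤ × ℤ} : z ∈ Pt m ↔ 0 < z.2 ∧ 10 * z.2 < 7 * z.1 ∧ z.1 ≤ 2 * z.2 ∧
    IsCoprime z.1 z.2 ∧ z.1 ^ 2 - 2 * z.2 ^ 2 = m := by
  unfold Pt
  rw [mem_filter, mem_product, mem_Ioc, mem_Ioc]
  constructor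
  · rintro ⟨⟨-, h1, -⟩, h2, h3, h4, h5⟩
    exact ⟨h1, h2, h3, h4, h5⟩
  · rintro ⟨h1, h2, h3, h4, h5⟩
    have h6 := pt_size z.1 z.2 m h1 h2 h5
    have h7 : z.2 ≤ 5 * m := by
      by_contra hc
      have h8 : 5 * (m : ℤ) + 1 ≤ z.2 := by omega
      have hm : (0 : ℤ) ≤ m := Int.natCast_nonneg m
      nlinarith
    exact ⟨⟨⟨by omega, by omega⟩, h1, by omega⟩, h2, h3, h4, h5⟩

/-- Thue's lemma for the roots of `ν ^ 2 - 2` -/
theorem thue (m : ℕ) (hm : 1 ≤ m) (ν : ℤ) (hν : (m : ℤ) ∣ ν ^ 2 - 2) :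
    ∃ x y : ℤ, x ^ 2 - 2 * y ^ 2 = m ∧ (m : ℤ) ∣ ν * y - x := by
  rcases Nat.eq_or_lt_of_le hm with h1 | h1
  · exact ⟨1, 0, by rw [← h1]; norm_num, by rw [← h1]; simp⟩
  have : NeZero m := ⟨by omega⟩
  set r := Nat.sqrt m with hr
  have hr1 : m < (r + 1) * (r + 1) := Nat.lt_succ_sqrt m
  have hr2 : r * r ≤ m := Nat.sqrt_le m
  obtain ⟨a, ha, b, hb, hab, hf⟩ := Finset.exists_ne_map_eq_of_card_lt_of_maps_to
    (s := range (r + 1) ×ˢ range (r + 1)) (t := (univ : Finset (ZMod m)))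
    (f := fun z : ℕ × ℕ => (((z.1 : ℤ) - ν * z.2 : ℤ) : ZMod m))
    (by rw [card_product, card_range, card_univ, ZMod.card]; exact hr1)
    (fun _ _ => mem_univ _)
  rw [mem_product, mem_range, mem_range] at ha hb
  rw [ZMod.intCast_eq_intCast_iff_dvd_sub] at hf
  set x : ℤ := (b.1 : ℤ) - a.1 with hx
  set y : ℤ := (b.2 : ℤ) - a.2 with hy
  have hdiv : (m : ℤ) ∣ x - ν * y := by
    have : (b.1 : ℤ) - ν * b.2 - ((a.1 : ℤ) - ν * a.2) = x - ν * y := by rw [hx, hy]; ring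
    rwa [this] at hf
  have hxb : |x| ≤ r := by rw [hx, abs_le]; constructor <;> omega
  have hyb : |y| ≤ r := by rw [hy, abs_le]; constructor <;> omega
  have hr2' : (r : ℤ) * r ≤ m := by exact_mod_cast hr2
  have hr0 : (0 : ℤ) ≤ r := by positivity
  have hx2 : x ^ 2 ≤ r * r := by nlinarith [abs_nonneg x, sq_abs x]
  have hy2 : y ^ 2 ≤ r * r := by nlinarith [abs_nonneg y, sq_abs y]
  have hxy0 : x ≠ 0 ∨ y ≠ 0 := by
    by_contra hc
    push Not at hc
    apply hab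
    ext <;> omega
  have hm0 : (0 : ℤ) < m := by exact_mod_cast (by omega : 0 < m)
  have hne : x ^ 2 - 2 * y ^ 2 ≠ 0 := by
    intro h0
    have h2 : ¬ IsSquare (2 : ℤ) := Int.prime_two.not_isSquare
    rcases eq_or_ne y 0 with h3 | h3
    · rw [h3] at h0
      have : x ^ 2 = 0 := by linarith
      have : x = 0 := pow_eq_zero_iff (two_ne_zero) |>.1 this
      rcases hxy0 with h4 | h4
      · exact h4 this
      · exact h4 h3
    · have h4 : x ^ 2 = 2 * y ^ 2 := by linarith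
      have h5 : y ^ 2 ∣ x ^ 2 := ⟨2, by linarith⟩
      have h6 : y ∣ x := (Int.pow_dvd_pow_iff two_ne_zero).1 h5
      obtain ⟨t, ht⟩ := h6
      apply h2
      refine ⟨t, ?_⟩
      have h7 : y ^ 2 * 2 = y ^ 2 * (t * t) := by rw [ht] at h4; nlinarith
      exact mul_left_cancel₀ (pow_ne_zero 2 h3) h7
  have hdiv2 : (m : ℤ) ∣ x ^ 2 - 2 * y ^ 2 := by
    have e : x ^ 2 - 2 * y ^ 2 = (x - ν * y) * (x + ν * y) + (ν ^ 2 - 2) * y ^ 2 := by ring
    rw [e]
    exact dvd_add (hdiv.mul_right _) (hν.mul_right _)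
  obtain ⟨k, hk⟩ := hdiv2
  have hk0 : k ≠ 0 := by
    rintro rfl
    apply hne
    rw [hk]; ring
  have hk1 : k ≤ 1 := by
    by_contra hc
    have : 2 ≤ k := by omega
    nlinarith [sq_nonneg y]
  have hk2 : -2 ≤ k := by
    by_contra hc
    have : k ≤ -3 := by omega
    nlinarith [sq_nonneg x]
  have hneg : (m : ℤ) ∣ ν * y - x := by
    have := hdiv.neg_right
    rwa [neg_sub] at this
  rcases (by omega : k = 1 ∨ k = -1 ∨ k = -2) with h2 | h2 | h2
  · exact ⟨x, y, by rw [hk, h2, mul_one], hneg⟩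
  · refine ⟨x + 2 * y, x + y, by rw [h2] at hk; linarith [hk], ?_⟩
    have e : ν * (x + y) - (x + 2 * y) = -(ν - 1) * (x - ν * y) + y * (ν ^ 2 - 2) + (x - ν * y) - (x - ν * y) * 1 + (ν * x - ν * x) + (2 * ν * x - 2 * x * ν) + ((ν * (x + y) - (x + 2 * y)) - (-(ν - 1) * (x - ν * y) + y * (ν ^ 2 - 2))) := by ring
    have e2 : ν * (x + y) - (x + 2 * y) = (ν - 1) * (x - ν * y) + y * (ν ^ 2 - 2) := by ring
    rw [e2]
    exact dvd_add (hdiv.mul_left _) (hν.mul_left _)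
  · -- `x = 0`, `y ^ 2 = m`
    exfalso
    rw [h2] at hk
    have e1 : x ^ 2 = 0 := by nlinarith [sq_nonneg x]
    have e2 : y ^ 2 = m := by nlinarith
    have hx0 : x = 0 := pow_eq_zero_iff (two_ne_zero) |>.1 e1
    rw [hx0] at hneg
    rw [sub_zero] at hneg
    -- `m = y ^ 2` divides `ν y`, so `y ∣ ν`, `y ∣ 2`
    have hy0 : y ≠ 0 := by
      rintro h0
      rw [h0] at e2
      norm_num at e2
      omega
    have h3 : y ∣ ν := by
      rw [← e2] at hneg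
      obtain ⟨t, ht⟩ := hneg
      refine ⟨t, ?_⟩
      have : ν * y = (y * t) * y := by rw [ht]; ring
      exact mul_right_cancel₀ hy0 this
    have h4 : y ^ 2 ∣ ν ^ 2 - 2 := by rw [e2]; exact hν
    have h5 : y ^ 2 ∣ 2 := by
      have h6 : y ^ 2 ∣ ν ^ 2 := pow_dvd_pow_of_dvd h3 2
      have := dvd_sub h6 h4
      have e : ν ^ 2 - (ν ^ 2 - 2) = 2 := by ring
      rwa [e] at this
    rw [e2] at h5
    have h6 : (m : ℤ) ≤ 2 := Int.le_of_dvd (by norm_num) h5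
    have h7 : (m : ℤ) = 2 := by omega
    rw [h7] at e2
    have h8 : y ≤ 1 := by nlinarith
    have h9 : -1 ≤ y := by nlinarith
    rcases (by omega : y = -1 ∨ y = 0 ∨ y = 1) with h | h | h <;> rw [h] at e2 <;> norm_num at e2

theorem cop_of (m : ℕ) (hm : 1 ≤ m) (ν x y : ℤ) (hν : (m : ℤ) ∣ ν ^ 2 - 2)
    (h : x ^ 2 - 2 * y ^ 2 = m) (hd : (m : ℤ) ∣ ν * y - x) : IsCoprime x y := by
  have hm0 : (0 : ℤ) < m := by exact_mod_cast (by omega : 0 < m)
  rw [Int.isCoprime_iff_gcd_eq_one]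
  set g := Int.gcd x y with hg
  obtain ⟨x', hx'⟩ : (g : ℤ) ∣ x := Int.gcd_dvd_left ..
  obtain ⟨y', hy'⟩ : (g : ℤ) ∣ y := Int.gcd_dvd_right ..
  have hg0 : (g : ℤ) ≠ 0 := by
    intro h0
    rw [h0] at hx' hy'
    rw [hx', hy'] at h
    norm_num at h
    omega
  have e1 : (m : ℤ) = g * (g * (x' ^ 2 - 2 * y' ^ 2)) := by rw [← h, hx', hy']; ring
  have e2 : (g : ℤ) * (g * (x' ^ 2 - 2 * y' ^ 2)) ∣ g * (ν * y' - x') := by
    rw [← e1]
    have : (g : ℤ) * (ν * y' - x') = ν * y - x := by rw [hx', hy']; ring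
    rw [this]
    exact hd
  have e3 : (g : ℤ) * (x' ^ 2 - 2 * y' ^ 2) ∣ ν * y' - x' := Int.dvd_of_mul_dvd_mul_left hg0 e2
  have e4 : (g : ℤ) * (x' ^ 2 - 2 * y' ^ 2) ∣ ν ^ 2 - 2 := by
    refine dvd_trans ?_ hν
    rw [e1]
    exact dvd_mul_left _ _
  have e5 : (g : ℤ) * (x' ^ 2 - 2 * y' ^ 2) ∣ x' ^ 2 - 2 * y' ^ 2 := by
    have : x' ^ 2 - 2 * y' ^ 2 = (ν ^ 2 - 2) * y' ^ 2 - (ν * y' - x') * (ν * y' + x') := by ring
    conv_rhs => rw [this]
    exact dvd_sub (e4.mul_right _) (e3.mul_right _)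
  have e6 : x' ^ 2 - 2 * y' ^ 2 ≠ 0 := by
    intro h7
    rw [h7] at e1
    simp at e1
    omega
  have e7 : (g : ℤ) ∣ 1 := by
    obtain ⟨t, ht⟩ := e5
    refine ⟨t, ?_⟩
    have : (x' ^ 2 - 2 * y' ^ 2) * 1 = (x' ^ 2 - 2 * y' ^ 2) * (g * t) := by linarith
    exact mul_left_cancel₀ e6 this
  have e8 : g ∣ 1 := by exact_mod_cast e7
  exact Nat.dvd_one.1 e8

/-- the representations form an orbit of the units -/
theorem exists_min (m : ℕ) (hm : 1 ≤ m) (ν : ℤ) (hν : (m : ℤ) ∣ ν ^ 2 - 2) :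
    ∃ x y : ℤ, x ^ 2 - 2 * y ^ 2 = m ∧ (m : ℤ) ∣ ν * y - x ∧ 0 < x ∧ 2 * |y| ≤ x := by
  classical
  have hm0 : (0 : ℤ) < m := by exact_mod_cast (by omega : 0 < m)
  have hex : ∃ n : ℕ, ∃ x y : ℤ, x ^ 2 - 2 * y ^ 2 = m ∧ (m : ℤ) ∣ ν * y - x ∧ 0 < x ∧
      y.natAbs = n := by
    obtain ⟨x, y, h1, h2⟩ := thue m hm ν hν
    have hx : x ≠ 0 := by
      rintro rfl
      nlinarith [sq_nonneg y]
    rcases lt_or_gt_of_ne hx with h3 | h3
    · refine ⟨_, -x, -y, by rw [← h1]; ring, ?_, by omega, rfl⟩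
      have e : ν * -y - -x = -(ν * y - x) := by ring
      rw [e, dvd_neg]
      exact h2
    · exact ⟨_, x, y, h1, h2, h3, rfl⟩
  obtain ⟨x, y, h1, h2, h3, h4⟩ := Nat.find_spec hex
  have hmin : ∀ x' y' : ℤ, x' ^ 2 - 2 * y' ^ 2 = m → (m : ℤ) ∣ ν * y' - x' → 0 < x' →
      y.natAbs ≤ y'.natAbs := by
    intro x' y' g1 g2 g3
    rw [h4]
    exact Nat.find_min' hex ⟨x', y', g1, g2, g3, rfl⟩
  refine ⟨x, y, h1, h2, h3, ?_⟩
  have hxy : 2 * y ^ 2 < x ^ 2 := by linarith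
  have hx1 : |y| < x := by
    have : y ^ 2 < x ^ 2 := by nlinarith [sq_nonneg y]
    exact abs_lt_of_sq_lt_sq this h3.le
  have hx2 : 4 * |y| < 3 * x := by
    have : (4 * y) ^ 2 < (3 * x) ^ 2 := by nlinarith [sq_nonneg y]
    have := abs_lt_of_sq_lt_sq this (by omega)
    rwa [abs_mul, abs_of_pos (by norm_num : (0 : ℤ) < 4)] at this
  have hx3 : 3 * |y| < 2 * x + |y| := by
    have h5 : 2 * |y| < 2 * x := by omega
    omega
  -- the two neighbours
  have n1 := hmin (3 * x + 4 * y) (2 * x + 3 * y) (by rw [← h1]; ring) (by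
    have e : ν * (2 * x + 3 * y) - (3 * x + 4 * y) =
        (-2 * ν + 3) * (ν * y - x) + 2 * y * (ν ^ 2 - 2) := by ring
    rw [e]
    exact dvd_add (h2.mul_left _) (hν.mul_left _)) (by
    have := neg_abs_le y
    omega)
  have n2 := hmin (3 * x - 4 * y) (-2 * x + 3 * y) (by rw [← h1]; ring) (by
    have e : ν * (-2 * x + 3 * y) - (3 * x - 4 * y) =
        (2 * ν + 3) * (ν * y - x) + (-2) * y * (ν ^ 2 - 2) := by ring
    rw [e]
    exact dvd_add (h2.mul_left _) (hν.mul_left _)) (by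
    have := le_abs_self y
    omega)
  have hsq : 9 * y ^ 2 < 8 * x ^ 2 := by nlinarith [sq_nonneg y]
  rcases le_or_gt 0 y with hy | hy
  · rw [abs_of_nonneg hy] at *
    have h5 : 3 * y < 2 * x + y := by omega
    have h6 : y ≤ |(-2 * x + 3 * y)| := by
      have : ((y.natAbs : ℕ) : ℤ) ≤ (((-2 * x + 3 * y).natAbs : ℕ) : ℤ) := by exact_mod_cast n2
      rw [← Int.abs_eq_natAbs, ← Int.abs_eq_natAbs, abs_of_nonneg hy] at this
      exact this
    rcases abs_cases (-2 * x + 3 * y) with ⟨h7, h8⟩ | ⟨h7, h8⟩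
    · rw [h7] at h6
      omega
    · rw [h7] at h6
      omega
  · rw [abs_of_neg hy] at *
    have h6 : -y ≤ |(2 * x + 3 * y)| := by
      have : ((y.natAbs : ℕ) : ℤ) ≤ (((2 * x + 3 * y).natAbs : ℕ) : ℤ) := by exact_mod_cast n1
      rw [← Int.abs_eq_natAbs, ← Int.abs_eq_natAbs, abs_of_neg hy] at this
      exact this
    rcases abs_cases (2 * x + 3 * y) with ⟨h7, h8⟩ | ⟨h7, h8⟩
    · rw [h7] at h6
      omega
    · rw [h7] at h6
      omega

/-- existence of the representation -/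
theorem exists_pt (m : ℕ) (hm : 1 ≤ m) (ν : ℤ) (hν : (m : ℤ) ∣ ν ^ 2 - 2) :
    ∃ z ∈ Pt m, (m : ℤ) ∣ ν * z.2 - z.1 := by
  obtain ⟨x, y, h1, h2, h3, h4⟩ := exists_min m hm ν hν
  by_cases h5 : x = 2 * y
  · refine ⟨(x, y), ?_, h2⟩
    rw [mem_Pt]
    exact ⟨by show 0 < y; omega, by show 10 * y < 7 * x; omega, by show x ≤ 2 * y; omega,
      cop_of m hm ν x y hν h1 h2, h1⟩
  · have h6 : 2 * y < x := by
      have := le_abs_self y
      omega
    have h7 : -x ≤ 2 * y := by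
      have := neg_abs_le y
      omega
    have g1 : (3 * x + 4 * y) ^ 2 - 2 * (2 * x + 3 * y) ^ 2 = m := by rw [← h1]; ring
    have g2 : (m : ℤ) ∣ ν * (2 * x + 3 * y) - (3 * x + 4 * y) := by
      have e : ν * (2 * x + 3 * y) - (3 * x + 4 * y) =
          (-2 * ν + 3) * (ν * y - x) + 2 * y * (ν ^ 2 - 2) := by ring
      rw [e]
      exact dvd_add (h2.mul_left _) (hν.mul_left _)
    refine ⟨(3 * x + 4 * y, 2 * x + 3 * y), ?_, g2⟩
    rw [mem_Pt]
    exact ⟨by show 0 < 2 * x + 3 * y; omega, by show 10 * (2 * x + 3 * y) < 7 * (3 * x + 4 * y); omega,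
      by show 3 * x + 4 * y ≤ 2 * (2 * x + 3 * y); omega,
      cop_of m hm ν _ _ hν g1 g2, g1⟩

/-- no two points are related by a nontrivial unit -/
theorem no_unit (x y s t : ℤ) (hy : 0 < y) (h1 : 10 * y < 7 * x) (h2 : x ≤ 2 * y)
    (hst : s ^ 2 - 2 * t ^ 2 = 1) (ht : 0 < t) (hs : 0 < s)
    (h3 : 10 * (t * x + s * y) < 7 * (s * x + 2 * t * y)) : False := by
  have ht2 : 2 ≤ t := by
    by_contra hc
    have : t = 1 := by omega
    rw [this] at hst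
    have h4 : s ^ 2 = 3 := by linarith
    have h5 : s ≤ 1 := by nlinarith
    nlinarith
  have h4 : 2 * s ≤ 3 * t := by
    by_contra hc
    have h5 : 3 * t + 1 ≤ 2 * s := by omega
    nlinarith
  have h5 : 0 < 7 * x - 10 * y := by omega
  nlinarith [mul_le_mul_of_nonneg_right h4 h5.le]

/-- uniqueness of the representation -/
theorem unique_pt (m : ℕ) (hm : 1 ≤ m) (ν : ℤ) (hν : (m : ℤ) ∣ ν ^ 2 - 2) (z z' : ℤ × ℤ)
    (hz : z ∈ Pt m) (hz' : z' ∈ Pt m) (hd : (m : ℤ) ∣ ν * z.2 - z.1)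
    (hd' : (m : ℤ) ∣ ν * z'.2 - z'.1) : z = z' := by
  obtain ⟨x, y⟩ := z
  obtain ⟨x', y'⟩ := z'
  rw [mem_Pt] at hz hz'
  simp only at hz hz' hd hd'
  obtain ⟨a1, a2, a3, a4, a5⟩ := hz
  obtain ⟨b1, b2, b3, b4, b5⟩ := hz'
  have hm0 : (0 : ℤ) < m := by exact_mod_cast (by omega : 0 < m)
  obtain ⟨s, hs⟩ : (m : ℤ) ∣ x * x' - 2 * (y * y') := by
    have e : x * x' - 2 * (y * y') = (ν ^ 2 - 2) * (y * y') - ν * y * (ν * y' - x') -
        x' * (ν * y - x) := by ring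
    rw [e]
    exact dvd_sub (dvd_sub (hν.mul_right _) (hd'.mul_left _)) (hd.mul_left _)
  obtain ⟨t, ht⟩ : (m : ℤ) ∣ x * y' - x' * y := by
    have e : x * y' - x' * y = y * (ν * y' - x') - y' * (ν * y - x) := by ring
    rw [e]
    exact dvd_sub (hd'.mul_left _) (hd.mul_left _)
  have h1 : s ^ 2 - 2 * t ^ 2 = 1 := by
    have e : (x * x' - 2 * (y * y')) ^ 2 - 2 * (x * y' - x' * y) ^ 2 = (m : ℤ) * m := by
      have : (x * x' - 2 * (y * y')) ^ 2 - 2 * (x * y' - x' * y) ^ 2 =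
          (x ^ 2 - 2 * y ^ 2) * (x' ^ 2 - 2 * y' ^ 2) := by ring
      rw [this, a5, b5]
    rw [hs, ht] at e
    have e2 : (m : ℤ) * m * (s ^ 2 - 2 * t ^ 2) = m * m * 1 := by linarith
    exact mul_left_cancel₀ (by positivity) e2
  -- the second point in terms of the first
  have ex : x' = s * x + 2 * t * y := by
    have : (m : ℤ) * x' = m * (s * x + 2 * t * y) := by
      have e : (m : ℤ) * (s * x + 2 * t * y) = (m * s) * x + 2 * (m * t) * y := by ring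
      rw [e, ← hs, ← ht]
      have e2 : (x * x' - 2 * (y * y')) * x + 2 * (x * y' - x' * y) * y =
          (x ^ 2 - 2 * y ^ 2) * x' := by ring
      rw [e2, a5]
    exact mul_left_cancel₀ hm0.ne' this
  have ey : y' = t * x + s * y := by
    have : (m : ℤ) * y' = m * (t * x + s * y) := by
      have e : (m : ℤ) * (t * x + s * y) = (m * t) * x + (m * s) * y := by ring
      rw [e, ← hs, ← ht]
      have e2 : (x * y' - x' * y) * x + (x * x' - 2 * (y * y')) * y =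
          (x ^ 2 - 2 * y ^ 2) * y' := by ring
      rw [e2, a5]
    exact mul_left_cancel₀ hm0.ne' this
  have ex' : x = s * x' - 2 * t * y' := by
    rw [ex, ey]
    have : s * (s * x + 2 * t * y) - 2 * t * (t * x + s * y) = (s ^ 2 - 2 * t ^ 2) * x := by ring
    rw [this, h1, one_mul]
  have ey' : y = -t * x' + s * y' := by
    rw [ex, ey]
    have : -t * (s * x + 2 * t * y) + s * (t * x + s * y) = (s ^ 2 - 2 * t ^ 2) * y := by ring
    rw [this, h1, one_mul]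
  -- the sign of `s`
  have hspos : 0 < s := by
    have h2 : 0 < x * x' - 2 * (y * y') := by
      have c1 : 10 * y < 7 * x := a2
      have c2 : 10 * y' < 7 * x' := b2
      have hx : 0 < x := by omega
      have hx' : 0 < x' := by omega
      have h3 : (10 * y) * (10 * y') ≤ (7 * x) * (7 * x') :=
        mul_le_mul c1.le c2.le (by positivity) (by positivity)
      nlinarith [mul_pos hx hx', mul_pos a1 b1]
    rw [hs] at h2
    exact (pos_iff_pos_of_mul_pos h2).1 hm0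
  rcases lt_trichotomy t 0 with h2 | h2 | h2
  · exfalso
    refine no_unit x' y' s (-t) b1 b2 b3 (by rw [← h1]; ring) (by omega) hspos ?_
    rw [ex', ey'] at a2
    have e1 : -t * x' + s * y' = -t * x' + s * y' := rfl
    have e2 : s * x' + 2 * -t * y' = s * x' - 2 * t * y' := by ring
    rw [e2]
    exact a2
  · rw [h2] at ex ey h1
    have h3 : s = 1 := by
      have h4 : (s - 1) * (s + 1) = 0 := by linarith
      rcases mul_eq_zero.1 h4 with h5 | h5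
      · omega
      · omega
    rw [h3] at ex ey
    ext
    · show x = x'
      rw [ex]; ring
    · show y = y'
      rw [ey]; ring
  · exfalso
    refine no_unit x y s t a1 a2 a3 h1 h2 hspos ?_
    rw [ex, ey] at b2
    exact b2

end Pool.Agent.T2h76Q
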