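import Pool.Agent.T2h76Q.Rm1
import Pool.Agent.T2h76.Rm2

/-! The remainder as an average over the roots modulo `R`. -/

set_option autoImplicit false

namespace Pool.Agent.T2h76Q

open Finset
open Pool.Agent.T2h76 (crt crt_spec gw gw_pos gw_summable ps ps_eq ind_prog)

open Classical in
/-- weighted number of `n ≡ u` modulo `q` with `d ∣ n ^ 2 - D` -/
noncomputable def cntq (D : ℤ) (Y N0 : ℝ) (q : ℕ) (u : ℤ) (d : ℕ) : ℝ :=
  ∑' n : ℤ, gw Y N0 n * (if (q : ℤ) ∣ n - u ∧ (d : ℤ) ∣ n ^ 2 - D then 1 else 0)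

/-- the remainder -/
noncomputable def rmd (D : ℤ) (Y N0 : ℝ) (q : ℕ) (u : ℤ) (d : ℕ) : ℝ :=
  cntq D Y N0 q u d - (Rt D d).card * (Y / (d * q))

variable {D : ℤ}

/-- **The remainder as an average.** -/
theorem rmd_avg (Y N0 : ℝ) (hY : 0 < Y) (m k k' q : ℕ) (hm : 1 ≤ m) (hk : 1 ≤ k) (hk' : 1 ≤ k')
    (hq : 1 ≤ q) (hkk : Nat.Coprime k k') (hRq : Nat.Coprime (k * k') q)
    (hc : Nat.Coprime m (k * q)) (u : ℤ) :
    ((Rt D (k * k')).card : ℝ) * rmd D Y N0 q u (m * k) =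
      (Rt D k).card * ∑ Θ ∈ Rt D (k * k'), ∑ ν ∈ Rt D m,
        (ps Y N0 (m * (k * q)) (crt m (k * q) ν (crt (k * k') q Θ u)) -
          Y / ((m * (k * q) : ℕ) : ℝ)) := by
  classical
  have hmk : Nat.Coprime m k := Nat.Coprime.coprime_mul_right_right hc
  have hD' : 1 ≤ m * (k * q) := Nat.mul_pos hm (Nat.mul_pos hk hq)
  have hs := gw_summable Y N0 hY
  have hfin : ∑ Θ ∈ Rt D (k * k'), ∑ ν ∈ Rt D m,
      ps Y N0 (m * (k * q)) (crt m (k * q) ν (crt (k * k') q Θ u)) =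
      (Rt D k').card * cntq D Y N0 q u (m * k) := by
    have h1 : ∀ Θ ν : ℤ, ps Y N0 (m * (k * q)) (crt m (k * q) ν (crt (k * k') q Θ u)) =
        ∑' n : ℤ, gw Y N0 n * (if (q : ℤ) ∣ n - u then (1 : ℝ) else 0) *
          ((if (m : ℤ) ∣ n - ν then (1 : ℝ) else 0) * (if (k : ℤ) ∣ n - Θ then (1 : ℝ) else 0)) := by
      intro Θ ν
      rw [← ps_eq Y N0 _ hD']
      apply tsum_congr
      intro n
      have h2 := ind_prog m k q (k * k') hk hq (dvd_mul_right _ _) hRq hc ν Θ u n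
      by_cases g1 : (m : ℤ) ∣ n - ν <;> by_cases g2 : (k : ℤ) ∣ n - Θ <;>
        by_cases g3 : (q : ℤ) ∣ n - u <;> simp only [h2, g1, g2, g3, and_self, and_true, true_and,
          and_false, false_and, if_true, if_false, mul_one, mul_zero, zero_mul]
    have hsum : ∀ Θ ν : ℤ, Summable (fun n : ℤ => gw Y N0 n * (if (q : ℤ) ∣ n - u then (1 : ℝ) else 0) *
          ((if (m : ℤ) ∣ n - ν then (1 : ℝ) else 0) * (if (k : ℤ) ∣ n - Θ then (1 : ℝ) else 0))) := by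
      intro Θ ν
      apply Summable.of_norm_bounded hs
      intro n
      rw [norm_mul, norm_mul, Real.norm_of_nonneg (gw_pos Y N0 n).le]
      have := (gw_pos Y N0 n).le
      split_ifs <;> simp [this]
    simp only [h1]
    have h3 : ∀ Θ ∈ Rt D (k * k'), ∑ ν ∈ Rt D m, ∑' n : ℤ, gw Y N0 n *
        (if (q : ℤ) ∣ n - u then (1 : ℝ) else 0) *
          ((if (m : ℤ) ∣ n - ν then (1 : ℝ) else 0) * (if (k : ℤ) ∣ n - Θ then (1 : ℝ) else 0)) =
        ∑' n : ℤ, ∑ ν ∈ Rt D m, gw Y N0 n * (if (q : ℤ) ∣ n - u then (1 : ℝ) else 0) *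
          ((if (m : ℤ) ∣ n - ν then (1 : ℝ) else 0) * (if (k : ℤ) ∣ n - Θ then (1 : ℝ) else 0)) := by
      intro Θ _
      exact (Summable.tsum_finsetSum (fun ν _ => hsum Θ ν)).symm
    rw [Finset.sum_congr rfl h3, ← Summable.tsum_finsetSum (fun Θ _ => summable_sum fun ν _ => hsum Θ ν)]
    unfold cntq
    rw [← tsum_mul_left]
    apply tsum_congr
    intro n
    have h4 : ∑ Θ ∈ Rt D (k * k'), ∑ ν ∈ Rt D m, gw Y N0 n * (if (q : ℤ) ∣ n - u then (1 : ℝ) else 0) *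
          ((if (m : ℤ) ∣ n - ν then (1 : ℝ) else 0) * (if (k : ℤ) ∣ n - Θ then (1 : ℝ) else 0)) =
        gw Y N0 n * (if (q : ℤ) ∣ n - u then (1 : ℝ) else 0) *
          ((∑ ν ∈ Rt D m, if (m : ℤ) ∣ n - ν then (1 : ℝ) else 0) *
            ∑ Θ ∈ Rt D (k * k'), if (k : ℤ) ∣ n - Θ then (1 : ℝ) else 0) := by
      rw [Finset.sum_mul_sum, Finset.sum_comm, Finset.mul_sum]
      apply Finset.sum_congr rfl
      intro ν _
      rw [Finset.mul_sum]
    rw [h4, ind_Rt m hm n, ind_R k k' hk hk' hkk n]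
    have h5 : ((m * k : ℕ) : ℤ) ∣ n ^ 2 - D ↔ (m : ℤ) ∣ n ^ 2 - D ∧ (k : ℤ) ∣ n ^ 2 - D := by
      push_cast
      constructor
      · intro h
        exact ⟨(dvd_mul_right _ _).trans h, (dvd_mul_left _ _).trans h⟩
      · rintro ⟨h6, h7⟩
        exact (Nat.isCoprime_iff_coprime.mpr hmk).mul_dvd h6 h7
    by_cases g1 : (m : ℤ) ∣ n ^ 2 - D <;> by_cases g2 : (k : ℤ) ∣ n ^ 2 - D <;>
        by_cases g3 : (q : ℤ) ∣ n - u <;> simp only [h5, g1, g2, g3, and_self, and_true, true_and,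
          and_false, false_and, if_true, if_false, mul_one, mul_zero, zero_mul] <;> ring
  have hR := card_mul (D := D) k k' hk hk' hkk
  have hmkc := card_mul (D := D) m k hm hk hmk
  simp only [Finset.sum_sub_distrib, Finset.sum_const]
  rw [hfin]
  unfold rmd
  rw [hR, hmkc]
  push_cast
  simp only [nsmul_eq_mul]
  push_cast
  have hmr : (m : ℝ) ≠ 0 := by exact_mod_cast (by omega : m ≠ 0)
  have hkr : (k : ℝ) ≠ 0 := by exact_mod_cast (by omega : k ≠ 0)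
  have hqr : (q : ℝ) ≠ 0 := by exact_mod_cast (by omega : q ≠ 0)
  field_simp

end Pool.Agent.T2h76Q
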