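import Pool.Agent.T2h76Q.Rm2
import Pool.Agent.T2h76.Rm3

/-! One dyadic block of the remainder. -/

set_option autoImplicit false

namespace Pool.Agent.T2h76Q

open Finset
open Pool.Agent.H442R2.KF (e norm_e)
open Pool.Agent.T2h76 (wt crt crt_spec tk TT trz trz_nonneg trz_le_one trz_one gd gw ps C0 C0_nonneg trunc)

/-- the part of a dyadic block belonging to one root modulo `R` -/
noncomputable def SB (D : ℤ) (Y N0 : ℝ) (M q : ℕ) (Θ : ℤ) (a b : ℕ → ℝ) (𝒦 : Finset ℕ) : ℝ :=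
  ∑ m ∈ Ico M (2 * M), a m * ∑ ν ∈ Rt D m, ∑ k ∈ 𝒦, if Nat.Coprime m (k * q) then
    b k * (Rt D k).card * (ps Y N0 (m * (k * q)) (crt m (k * q) ν Θ) - Y / ((m * (k * q) : ℕ) : ℝ)) else 0

variable {D : ℤ}

theorem blk_approx (Cd : ℝ) (hCd0 : 0 < Cd)
    (hCd : ∀ X : ℕ, ∑ m ∈ Icc 1 X, ((Rt D m).card : ℝ) ≤ Cd * X) (Y N0 : ℝ) (hY : 0 < Y) (M K H q : ℕ) (Θ : ℤ) (a b : ℕ → ℝ) (𝒦 : Finset ℕ)
    (hM : 1 ≤ M) (hK : 1 ≤ K) (hq : 1 ≤ q) (h𝒦 : ∀ k ∈ 𝒦, Squarefree k ∧ K ≤ k ∧ k ≤ 2 * K)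
    (ha : ∀ m, |a m| ≤ 1) (hb : ∀ k, |b k| ≤ 1) :
    |SB D Y N0 M q Θ a b 𝒦| ≤ Y / (q * K * M) * (∑ m ∈ Ico M (2 * M), ∑ ν ∈ Rt D m,
      ‖TT Y N0 q Θ (fun k => b k * (Rt D k).card * (K / k)) 𝒦 H m ν‖) +
      8 * Cd * M * K ^ 2 * (C0 * (4 * M * K * q / Y) *
        Real.exp (-(((H + 1 : ℕ) : ℝ) * (Y / (4 * M * K * q))) ^ 2)) := by
  have hMr : (1 : ℝ) ≤ M := by exact_mod_cast hM
  have hKr : (1 : ℝ) ≤ K := by exact_mod_cast hK
  have hqr : (1 : ℝ) ≤ q := by exact_mod_cast hq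
  set β : ℕ → ℝ := fun k => b k * (Rt D k).card * (K / k) with hβ
  set Er : ℝ := C0 * (4 * M * K * q / Y) *
        Real.exp (-(((H + 1 : ℕ) : ℝ) * (Y / (4 * M * K * q))) ^ 2) with hEr
  have hC0 := C0_nonneg
  have hEr0 : 0 ≤ Er := by positivity
  have hterm : ∀ m ∈ Ico M (2 * M), ∀ ν ∈ Rt D m, ∀ k ∈ 𝒦,
      ‖((if Nat.Coprime m (k * q) then
        b k * (Rt D k).card * (ps Y N0 (m * (k * q)) (crt m (k * q) ν Θ) -
          Y / ((m * (k * q) : ℕ) : ℝ)) else 0 : ℝ) : ℂ) -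
        ((Y / (q * K * m) : ℝ) : ℂ) * ∑ h ∈ (Icc (-(H : ℤ)) H).erase 0, tk Y N0 q Θ β k h m ν‖ ≤
        2 * K * Er := by
    intro m hm ν _ k hk
    rw [mem_Ico] at hm
    obtain ⟨k1, k2, k3⟩ := h𝒦 k hk
    have hm1 : 1 ≤ m := hM.trans hm.1
    have hk1 : 1 ≤ k := hK.trans k2
    have hmr : (0 : ℝ) < m := by exact_mod_cast hm1
    have hkr : (0 : ℝ) < k := by exact_mod_cast hk1
    by_cases hc : Nat.Coprime m (k * q)
    · rw [if_pos hc]
      set DD : ℕ := m * (k * q) with hDD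
      have hD1 : 1 ≤ DD := Nat.mul_pos hm1 (Nat.mul_pos hk1 hq)
      have hDr : (0 : ℝ) < DD := by exact_mod_cast hD1
      set c : ℤ := crt m (k * q) ν Θ with hcdef
      have htr := trunc Y N0 hY DD hD1 c H
      have e1 : ((ps Y N0 DD c : ℝ) : ℂ) = ∑' n : ℤ, (gw Y N0 (c + DD * n) : ℂ) := by
        unfold ps
        rw [Complex.ofReal_tsum]
      have e2 : ∑ h ∈ (Icc (-(H : ℤ)) H).erase 0, tk Y N0 q Θ β k h m ν =
          (β k : ℂ) * ∑ h ∈ (Icc (-(H : ℤ)) H).erase 0,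
            (gd (Y / DD) h : ℂ) * e (-((h : ℝ) * (c - N0) / DD)) := by
        rw [Finset.mul_sum]
        apply Finset.sum_congr rfl
        intro h _
        unfold tk
        rw [if_pos hc]
      rw [e2]
      have e3 : ((b k * (Rt D k).card * (ps Y N0 DD c - Y / (DD : ℝ)) : ℝ) : ℂ) -
          ((Y / (q * K * m) : ℝ) : ℂ) * ((β k : ℂ) * ∑ h ∈ (Icc (-(H : ℤ)) H).erase 0,
            (gd (Y / DD) h : ℂ) * e (-((h : ℝ) * (c - N0) / DD))) =
          ((b k * (Rt D k).card : ℝ) : ℂ) * ((∑' n : ℤ, (gw Y N0 (c + DD * n) : ℂ)) - ((Y / DD : ℝ) : ℂ) -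
            ((Y / DD : ℝ) : ℂ) * ∑ h ∈ (Icc (-(H : ℤ)) H).erase 0,
              (gd (Y / DD) h : ℂ) * e (-((h : ℝ) * (c - N0) / DD))) := by
        rw [← e1]
        have e4 : ((Y / (q * K * m) : ℝ) : ℂ) * (β k : ℂ) =
            ((b k * (Rt D k).card : ℝ) : ℂ) * ((Y / DD : ℝ) : ℂ) := by
          rw [← Complex.ofReal_mul, ← Complex.ofReal_mul]
          congr 1
          simp only [hβ]
          rw [hDD]
          push_cast
          field_simp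
        rw [← mul_assoc, e4]
        push_cast
        ring
      rw [e3, norm_mul]
      have e5 : ‖((b k * (Rt D k).card : ℝ) : ℂ)‖ ≤ 2 * K := by
        rw [Complex.norm_real, Real.norm_eq_abs, abs_mul,
          abs_of_nonneg (by positivity : (0 : ℝ) ≤ ((Rt D k).card : ℝ))]
        have h1 : ((Rt D k).card : ℝ) ≤ 2 * K := by
          have h2 := (card_le_div (D := D) k k1).trans (Nat.card_divisors_le_self k)
          exact_mod_cast h2.trans k3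
        calc |b k| * ((Rt D k).card : ℝ) ≤ 1 * (2 * K) :=
              mul_le_mul (hb k) h1 (Nat.cast_nonneg _) zero_le_one
          _ = _ := one_mul _
      apply mul_le_mul e5 _ (norm_nonneg _) (by positivity)
      refine htr.trans ?_
      have hDle : (DD : ℝ) ≤ 4 * M * K * q := by
        rw [hDD]
        push_cast
        have a1 : (m : ℝ) ≤ 2 * M := by exact_mod_cast hm.2.le
        have a2 : (k : ℝ) ≤ 2 * K := by exact_mod_cast k3
        calc (m : ℝ) * (k * q) ≤ (2 * M) * ((2 * K) * q) := by gcongr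
          _ = _ := by ring
      rw [hEr]
      apply mul_le_mul
      · apply mul_le_mul_of_nonneg_left _ hC0
        exact div_le_div_of_nonneg_right hDle hY.le
      · rw [Real.exp_le_exp, neg_le_neg_iff]
        apply pow_le_pow_left₀ (by positivity)
        apply mul_le_mul_of_nonneg_left _ (by positivity)
        exact div_le_div_of_nonneg_left hY.le hDr hDle
      · positivity
      · positivity
    · rw [if_neg hc]
      have e2 : ∑ h ∈ (Icc (-(H : ℤ)) H).erase 0, tk Y N0 q Θ β k h m ν = 0 := by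
        apply Finset.sum_eq_zero
        intro h _
        unfold tk
        rw [if_neg hc]
      rw [e2]
      simp only [Complex.ofReal_zero, mul_zero, sub_zero, norm_zero]
      positivity
  have hcard : (𝒦.card : ℝ) ≤ 2 * K := by
    have h3 : 𝒦 ⊆ Icc K (2 * K) := by
      intro k hk
      rw [mem_Icc]
      exact (h𝒦 k hk).2
    have h4 := Finset.card_le_card h3
    rw [Nat.card_Icc] at h4
    have h5 : 𝒦.card ≤ 2 * K := by omega
    exact_mod_cast h5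
  have hρ : ∑ m ∈ Ico M (2 * M), ((Rt D m).card : ℝ) ≤ 2 * Cd * M := by
    have h1 : ∑ m ∈ Ico M (2 * M), ((Rt D m).card : ℝ) ≤ ∑ m ∈ Icc 1 (2 * M), ((Rt D m).card : ℝ) := by
      apply Finset.sum_le_sum_of_subset_of_nonneg
      · intro m hm
        rw [mem_Ico] at hm
        rw [mem_Icc]
        omega
      · intro m _ _
        exact Nat.cast_nonneg _
    refine h1.trans ((hCd (2 * M)).trans ?_)
    push_cast
    linarith
  have hmain : ‖((SB D Y N0 M q Θ a b 𝒦 : ℝ) : ℂ) - ∑ m ∈ Ico M (2 * M), (a m : ℂ) *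
      (((Y / (q * K * m) : ℝ) : ℂ) * ∑ ν ∈ Rt D m, TT Y N0 q Θ β 𝒦 H m ν)‖ ≤ 8 * Cd * M * K ^ 2 * Er := by
    have e1 : ((SB D Y N0 M q Θ a b 𝒦 : ℝ) : ℂ) - ∑ m ∈ Ico M (2 * M), (a m : ℂ) *
        (((Y / (q * K * m) : ℝ) : ℂ) * ∑ ν ∈ Rt D m, TT Y N0 q Θ β 𝒦 H m ν) =
        ∑ m ∈ Ico M (2 * M), (a m : ℂ) * ∑ ν ∈ Rt D m, ∑ k ∈ 𝒦,
          (((if Nat.Coprime m (k * q) then
        b k * (Rt D k).card * (ps Y N0 (m * (k * q)) (crt m (k * q) ν Θ) -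
          Y / ((m * (k * q) : ℕ) : ℝ)) else 0 : ℝ) : ℂ) -
        ((Y / (q * K * m) : ℝ) : ℂ) * ∑ h ∈ (Icc (-(H : ℤ)) H).erase 0, tk Y N0 q Θ β k h m ν) := by
      unfold SB TT
      simp only [Finset.sum_sub_distrib, Finset.mul_sum, mul_sub]
      push_cast
      simp only [Finset.mul_sum]
    rw [e1]
    refine (norm_sum_le _ _).trans ?_
    have h2 : ∀ m ∈ Ico M (2 * M), ‖(a m : ℂ) * ∑ ν ∈ Rt D m, ∑ k ∈ 𝒦,
          (((if Nat.Coprime m (k * q) then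
        b k * (Rt D k).card * (ps Y N0 (m * (k * q)) (crt m (k * q) ν Θ) -
          Y / ((m * (k * q) : ℕ) : ℝ)) else 0 : ℝ) : ℂ) -
        ((Y / (q * K * m) : ℝ) : ℂ) * ∑ h ∈ (Icc (-(H : ℤ)) H).erase 0, tk Y N0 q Θ β k h m ν)‖ ≤
        ((Rt D m).card : ℝ) * (2 * K * (2 * K * Er)) := by
      intro m hm
      rw [norm_mul, Complex.norm_real]
      refine le_trans (mul_le_mul (ha m) le_rfl (norm_nonneg _) zero_le_one) ?_
      rw [one_mul]
      refine (norm_sum_le _ _).trans ?_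
      have h6 : ∀ ν ∈ Rt D m, ‖∑ k ∈ 𝒦,
          (((if Nat.Coprime m (k * q) then
        b k * (Rt D k).card * (ps Y N0 (m * (k * q)) (crt m (k * q) ν Θ) -
          Y / ((m * (k * q) : ℕ) : ℝ)) else 0 : ℝ) : ℂ) -
        ((Y / (q * K * m) : ℝ) : ℂ) * ∑ h ∈ (Icc (-(H : ℤ)) H).erase 0, tk Y N0 q Θ β k h m ν)‖ ≤
          2 * K * (2 * K * Er) := by
        intro ν hν
        refine (norm_sum_le _ _).trans ?_
        refine (Finset.sum_le_sum (fun k hk => hterm m hm ν hν k hk)).trans ?_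
        rw [Finset.sum_const, nsmul_eq_mul]
        exact mul_le_mul_of_nonneg_right hcard (by positivity)
      refine (Finset.sum_le_sum h6).trans ?_
      rw [Finset.sum_const, nsmul_eq_mul]
    refine (Finset.sum_le_sum h2).trans ?_
    rw [← Finset.sum_mul]
    calc (∑ m ∈ Ico M (2 * M), ((Rt D m).card : ℝ)) * (2 * K * (2 * K * Er)) ≤
        2 * Cd * M * (2 * K * (2 * K * Er)) := mul_le_mul_of_nonneg_right hρ (by positivity)
      _ = _ := by ring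
  have hsec : ‖∑ m ∈ Ico M (2 * M), (a m : ℂ) *
      (((Y / (q * K * m) : ℝ) : ℂ) * ∑ ν ∈ Rt D m, TT Y N0 q Θ β 𝒦 H m ν)‖ ≤
      Y / (q * K * M) * (∑ m ∈ Ico M (2 * M), ∑ ν ∈ Rt D m, ‖TT Y N0 q Θ β 𝒦 H m ν‖) := by
    refine (norm_sum_le _ _).trans ?_
    rw [Finset.mul_sum]
    apply Finset.sum_le_sum
    intro m hm
    rw [mem_Ico] at hm
    have hmr : (M : ℝ) ≤ m := by exact_mod_cast hm.1
    rw [norm_mul, Complex.norm_real, norm_mul, Complex.norm_real, Real.norm_of_nonneg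
      (by positivity : 0 ≤ Y / (q * K * (m : ℝ)))]
    refine le_trans (mul_le_mul (ha m) le_rfl (by positivity) zero_le_one) ?_
    rw [one_mul]
    apply mul_le_mul _ (norm_sum_le _ _) (norm_nonneg _) (by positivity)
    apply div_le_div_of_nonneg_left hY.le (by positivity)
    gcongr
  have h5 : |SB D Y N0 M q Θ a b 𝒦| = ‖((SB D Y N0 M q Θ a b 𝒦 : ℝ) : ℂ)‖ := by
    rw [Complex.norm_real, Real.norm_eq_abs]
  rw [h5]
  set X1 : ℂ := ((SB D Y N0 M q Θ a b 𝒦 : ℝ) : ℂ)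
  set X2 : ℂ := ∑ m ∈ Ico M (2 * M), (a m : ℂ) *
      (((Y / (q * K * m) : ℝ) : ℂ) * ∑ ν ∈ Rt D m, TT Y N0 q Θ β 𝒦 H m ν)
  calc ‖X1‖ = ‖X2 + (X1 - X2)‖ := by congr 1; ring
    _ ≤ ‖X2‖ + ‖X1 - X2‖ := norm_add_le _ _
    _ ≤ _ := add_le_add hsec hmain

theorem cauchy_T (Cd : ℝ) (hCd0 : 0 < Cd)
    (hCd : ∀ X : ℕ, ∑ m ∈ Icc 1 X, ((Rt D m).card : ℝ) ≤ Cd * X) (Y N0 : ℝ) (M H q : ℕ) (Θ : ℤ) (β : ℕ → ℝ) (𝒦 : Finset ℕ) (hM : 1 ≤ M) :
    ∑ m ∈ Ico M (2 * M), ∑ ν ∈ Rt D m, ‖TT Y N0 q Θ β 𝒦 H m ν‖ ≤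
      Real.sqrt (2 * Cd * M * ∑ m ∈ Icc 1 (3 * M), ∑ ν ∈ Rt D m, trz M m * ‖TT Y N0 q Θ β 𝒦 H m ν‖ ^ 2) := by
  apply Real.le_sqrt_of_sq_le
  set S := (Ico M (2 * M)).sigma (fun m => Rt D m) with hS
  have e1 : ∑ m ∈ Ico M (2 * M), ∑ ν ∈ Rt D m, ‖TT Y N0 q Θ β 𝒦 H m ν‖ =
      ∑ z ∈ S, ‖TT Y N0 q Θ β 𝒦 H z.1 z.2‖ := by rw [hS, Finset.sum_sigma]
  have hρ : ∑ m ∈ Ico M (2 * M), ((Rt D m).card : ℝ) ≤ 2 * Cd * M := by
    have h1 : ∑ m ∈ Ico M (2 * M), ((Rt D m).card : ℝ) ≤ ∑ m ∈ Icc 1 (2 * M), ((Rt D m).card : ℝ) := by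
      apply Finset.sum_le_sum_of_subset_of_nonneg
      · intro m hm
        rw [mem_Ico] at hm
        rw [mem_Icc]
        omega
      · intro m _ _
        exact Nat.cast_nonneg _
    refine h1.trans ((hCd (2 * M)).trans ?_)
    push_cast
    linarith
  rw [e1]
  refine (sq_sum_le_card_mul_sum_sq).trans ?_
  have e2 : (S.card : ℝ) ≤ 2 * Cd * M := by
    rw [hS, Finset.card_sigma]
    push_cast
    exact hρ
  apply mul_le_mul e2 _ (Finset.sum_nonneg fun _ _ => by positivity) (by positivity)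
  rw [hS, Finset.sum_sigma]
  have h3 : ∑ m ∈ Ico M (2 * M), ∑ ν ∈ Rt D m, ‖TT Y N0 q Θ β 𝒦 H m ν‖ ^ 2 =
      ∑ m ∈ Ico M (2 * M), ∑ ν ∈ Rt D m, trz M m * ‖TT Y N0 q Θ β 𝒦 H m ν‖ ^ 2 := by
    apply Finset.sum_congr rfl
    intro m hm
    rw [mem_Ico] at hm
    apply Finset.sum_congr rfl
    intro ν _
    rw [trz_one M m hM hm.1 hm.2.le, one_mul]
  rw [h3]
  apply Finset.sum_le_sum_of_subset_of_nonneg
  · intro m hm
    rw [mem_Ico] at hm
    rw [mem_Icc]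
    omega
  · intro m _ _
    apply Finset.sum_nonneg
    intro ν _
    exact mul_nonneg (trz_nonneg M m) (by positivity)

end Pool.Agent.T2h76Q
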