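import Mathlib

/-! Roots of `ν ^ 2 - D` modulo `m`. -/

set_option autoImplicit false

namespace Pool.Agent.T2h76Q

open Finset

/-- the roots of `ν ^ 2 - D` modulo `m` -/
noncomputable def Rt (D : ℤ) (m : ℕ) : Finset ℤ :=
  (Ico (0 : ℤ) m).filter (fun ν => (m : ℤ) ∣ ν ^ 2 - D)

theorem mem_Rt {D : ℤ} {m : ℕ} {ν : ℤ} : ν ∈ Rt D m ↔ 0 ≤ ν ∧ ν < m ∧ (m : ℤ) ∣ ν ^ 2 - D := by
  unfold Rt
  rw [mem_filter, mem_Ico, and_assoc]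

end Pool.Agent.T2h76Q
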