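import Pool.Agent.T2h76Q.Ph

/-! The inner sums of the Weyl sums. -/

set_option autoImplicit false

namespace Pool.Agent.T2h76Q

open Finset
open Pool.Agent.H442R2.KF (e norm_e e_add e_congr norm_e_sub_le)
open Pool.Agent.T2h76 (abel)

/-- the weight of the inner sum -/
noncomputable def Fy (Φ : ℕ → ℂ) (y L q : ℕ) (j : ℤ) (x : ℤ) : ℂ :=
  Φ (x ^ 2 - 2 * (y : ℤ) ^ 2).toNat *
    e ((j : ℝ) * x / (y * L * q * ((x ^ 2 - 2 * (y : ℤ) ^ 2).toNat : ℝ)))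

/-- the number of the arguments -/
def ny (y : ℕ) : ℕ := 2 * y - 10 * y / 7

theorem shift_sum (y : ℕ) (f : ℤ → ℂ) :
    ∑ x ∈ Ioc (10 * (y : ℤ) / 7) (2 * y), f x = ∑ k ∈ range (ny y), f (10 * (y : ℤ) / 7 + 1 + k) := by
  symm
  unfold ny
  refine Finset.sum_bij (fun k _ => 10 * (y : ℤ) / 7 + 1 + k) ?_ ?_ ?_ ?_
  · intro k hk
    rw [mem_range] at hk
    rw [mem_Ioc]
    omega
  · intro a _ b _ hab
    have hab' : 10 * (y : ℤ) / 7 + 1 + a = 10 * (y : ℤ) / 7 + 1 + b := hab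
    omega
  · intro x hx
    rw [mem_Ioc] at hx
    refine ⟨(x - 10 * (y : ℤ) / 7 - 1).toNat, ?_, ?_⟩
    · rw [mem_range]; omega
    · show 10 * (y : ℤ) / 7 + 1 + ((x - 10 * (y : ℤ) / 7 - 1).toNat : ℤ) = x
      omega
  · intro k _
    rfl

/-- total variation of the weight -/
theorem tv (Φ : ℕ → ℂ) (M y L q : ℕ) (j : ℤ) (B : ℝ) (hM : 1 ≤ M) (hy : 1 ≤ y) (hL : 1 ≤ L)
    (hq : 1 ≤ q) (hB : 0 ≤ B) (hy2 : y ^ 2 ≤ 74 * M) (hΦ : ∀ m, ‖Φ m‖ ≤ B)
    (hΦ0 : ∀ m, Φ m ≠ 0 → M ≤ 2 * m)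
    (hΦ1 : ∀ m m' : ℕ, ‖Φ m - Φ m'‖ ≤ B / M * |(m : ℝ) - m'|) :
    ∑ k ∈ range (ny y), ‖Fy Φ y L q j (10 * (y : ℤ) / 7 + 1 + (k + 1 : ℕ)) -
      Fy Φ y L q j (10 * (y : ℤ) / 7 + 1 + k)‖ ≤
      B * (370 + 2500 * (|(j : ℝ)| / (M * L * q))) := by
  have hMr : (0 : ℝ) < M := by exact_mod_cast hM
  have hyr : (1 : ℝ) ≤ y := by exact_mod_cast hy
  have hLr : (0 : ℝ) < L := by exact_mod_cast hL
  have hqr : (0 : ℝ) < q := by exact_mod_cast hq
  have hy2r : (y : ℝ) ^ 2 ≤ 74 * M := by exact_mod_cast hy2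
  set J : ℝ := |(j : ℝ)| / (M * L * q) with hJ
  have hJ0 : 0 ≤ J := by positivity
  have hterm : ∀ k ∈ range (ny y),
      ‖Fy Φ y L q j (10 * (y : ℤ) / 7 + 1 + (k + 1 : ℕ)) - Fy Φ y L q j (10 * (y : ℤ) / 7 + 1 + k)‖ ≤
        5 * B * y / M + B * (2500 * J / y) := by
    intro k hk
    rw [mem_range] at hk
    unfold ny at hk
    set x : ℤ := 10 * (y : ℤ) / 7 + 1 + k with hx
    have hx1 : 10 * (y : ℤ) < 7 * x := by omega
    have hx2 : x ≤ 2 * y := by omega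
    have e1 : 10 * (y : ℤ) / 7 + 1 + ((k + 1 : ℕ) : ℤ) = x + 1 := by push_cast; omega
    rw [e1]
    have hy0 : (0 : ℤ) < y := by exact_mod_cast hy
    have hxr1 : 10 * (y : ℝ) < 7 * x := by exact_mod_cast hx1
    have hxr2 : (x : ℝ) ≤ 2 * y := by exact_mod_cast hx2
    have hx0 : (0 : ℤ) < x := by omega
    have hx0r : (0 : ℝ) < x := by exact_mod_cast hx0
    have hps := pt_size x y (x ^ 2 - 2 * (y : ℤ) ^ 2) hy0 hx1 rfl
    have hyy : (0 : ℤ) < (y : ℤ) ^ 2 := by positivity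
    set m : ℕ := (x ^ 2 - 2 * (y : ℤ) ^ 2).toNat with hm
    set m' : ℕ := ((x + 1) ^ 2 - 2 * (y : ℤ) ^ 2).toNat with hm'
    have hmz : ((m : ℕ) : ℤ) = x ^ 2 - 2 * (y : ℤ) ^ 2 := Int.toNat_of_nonneg (by omega)
    have hmr : (m : ℝ) = (x : ℝ) ^ 2 - 2 * y ^ 2 := by exact_mod_cast hmz
    have hmz' : ((m' : ℕ) : ℤ) = (x + 1) ^ 2 - 2 * (y : ℤ) ^ 2 := Int.toNat_of_nonneg (by nlinarith)
    have hmr' : (m' : ℝ) = ((x : ℝ) + 1) ^ 2 - 2 * y ^ 2 := by exact_mod_cast hmz'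
    have hpsr : 2 * (y : ℝ) ^ 2 < 49 * m := by
      have : 2 * (y : ℤ) ^ 2 < 49 * (m : ℤ) := by rw [hmz]; exact hps
      exact_mod_cast this
    have hF : Fy Φ y L q j (x + 1) - Fy Φ y L q j x =
        (Φ m' - Φ m) * e ((j : ℝ) * ((x + 1 : ℤ) : ℝ) / (y * L * q * (m' : ℝ))) +
        Φ m * (e ((j : ℝ) * ((x + 1 : ℤ) : ℝ) / (y * L * q * (m' : ℝ))) -
          e ((j : ℝ) * x / (y * L * q * (m : ℝ)))) := by
      unfold Fy
      rw [← hm, ← hm']
      ring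
    rw [hF]
    refine (norm_add_le _ _).trans (add_le_add ?_ ?_)
    · rw [norm_mul, norm_e, mul_one]
      refine (hΦ1 _ _).trans ?_
      have h1 : |(m' : ℝ) - m| ≤ 5 * y := by
        rw [hmr, hmr', abs_le]
        constructor <;> nlinarith
      calc B / M * |(m' : ℝ) - m| ≤ B / M * (5 * y) := by
            apply mul_le_mul_of_nonneg_left h1 (by positivity)
        _ = 5 * B * y / M := by ring
    · by_cases h0 : Φ m = 0
      · rw [h0, zero_mul, norm_zero]; positivity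
      · have h1 := hΦ0 m h0
        have h1r : (M : ℝ) ≤ 2 * m := by exact_mod_cast h1
        rw [norm_mul]
        apply mul_le_mul (hΦ m) _ (norm_nonneg _) hB
        refine (norm_e_sub_le _ _).trans ?_
        have hy20 : (0 : ℝ) < y ^ 2 := by positivity
        have hmp : (0 : ℝ) < m := by nlinarith
        have hmm : (m : ℝ) ≤ m' := by rw [hmr, hmr']; nlinarith
        have hmp' : (0 : ℝ) < m' := by linarith
        have h3 : (j : ℝ) * ((x + 1 : ℤ) : ℝ) / (y * L * q * (m' : ℝ)) -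
            (j : ℝ) * x / (y * L * q * (m : ℝ)) =
            (j : ℝ) / (y * L * q) * ((-(x : ℝ) ^ 2 - x - 2 * (y : ℝ) ^ 2) / (m * m')) := by
          have e2 : (-(x : ℝ) ^ 2 - x - 2 * (y : ℝ) ^ 2) = ((x : ℝ) + 1) * m - x * m' := by
            rw [hmr, hmr']; ring
          rw [e2]
          push_cast
          field_simp
        rw [h3, abs_mul, abs_div, abs_div, abs_of_pos (by positivity : (0 : ℝ) < y * L * q),
          abs_of_pos (by positivity : (0 : ℝ) < m * m')]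
        have h4 : |(-(x : ℝ) ^ 2 - x - 2 * (y : ℝ) ^ 2)| ≤ 8 * (y : ℝ) ^ 2 := by
          rw [abs_le]
          constructor <;> nlinarith
        have h5 : |(-(x : ℝ) ^ 2 - x - 2 * (y : ℝ) ^ 2)| / ((m : ℝ) * m') ≤ (392 : ℝ) / M := by
          rw [div_le_div_iff₀ (by positivity) hMr]
          have g1 : |(-(x : ℝ) ^ 2 - x - 2 * (y : ℝ) ^ 2)| ≤ 196 * (m : ℝ) := by linarith
          have g2 : (M : ℝ) ≤ 2 * m' := by linarith
          calc |(-(x : ℝ) ^ 2 - x - 2 * (y : ℝ) ^ 2)| * M ≤ (196 * (m : ℝ)) * (2 * m') :=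
                mul_le_mul g1 g2 hMr.le (by positivity)
            _ = 392 * ((m : ℝ) * m') := by ring
        have hpi : Real.pi ≤ 3.15 := Real.pi_lt_d2.le.trans (by norm_num)
        calc 2 * Real.pi * (|(j : ℝ)| / (y * L * q) * (|(-(x : ℝ) ^ 2 - x - 2 * (y : ℝ) ^ 2)| / (m * m'))) ≤
            2 * 3.15 * (|(j : ℝ)| / (y * L * q) * (392 / M)) := by
              gcongr
          _ = 2469.6 * J / y := by rw [hJ]; field_simp; ring
          _ ≤ 2500 * J / y := by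
              apply div_le_div_of_nonneg_right _ (by positivity)
              nlinarith
  refine (Finset.sum_le_sum hterm).trans ?_
  rw [Finset.sum_const, card_range, nsmul_eq_mul]
  have hny : ((ny y : ℕ) : ℝ) ≤ y := by
    have : ny y ≤ y := by unfold ny; omega
    exact_mod_cast this
  have hpos : 0 ≤ 5 * B * y / M + B * (2500 * J / y) := by positivity
  refine (mul_le_mul_of_nonneg_right hny hpos).trans ?_
  have h1 : (y : ℝ) * (5 * B * y / M) ≤ 370 * B := by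
    have : (y : ℝ) * (5 * B * y / M) = 5 * B * (y ^ 2 / M) := by ring
    rw [this]
    have h2 : (y : ℝ) ^ 2 / M ≤ 74 := by rw [div_le_iff₀ hMr]; exact hy2r
    nlinarith
  have h2 : (y : ℝ) * (B * (2500 * J / y)) = B * (2500 * J) := by field_simp
  nlinarith

theorem inner : ∃ K : ℝ, 1 ≤ K ∧ ∀ (Φ : ℕ → ℂ) (M N y L q : ℕ) [NeZero N] (Θ j : ℤ) (B : ℝ),
    1 ≤ M → 1 ≤ y → 1 ≤ L → 1 ≤ q → 0 ≤ B → N = y * L * q → Nat.Coprime L q →
    (L : ℤ) ∣ Θ ^ 2 - 2 → y ^ 2 ≤ 74 * M → (∀ m, ‖Φ m‖ ≤ B) → (∀ m, Φ m ≠ 0 → M ≤ 2 * m) →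
    (∀ m m' : ℕ, ‖Φ m - Φ m'‖ ≤ B / M * |(m : ℝ) - m'|) →
    ‖∑ x ∈ Ioc (10 * (y : ℤ) / 7) (2 * y), Fy Φ y L q j x * phi 2 N y Θ j ((x : ℤ) : ZMod N)‖ ≤
      K * (q * L.divisors.card * 2 ^ N.primeFactors.card * Real.sqrt N *
        Real.sqrt (Nat.gcd N j.natAbs) * (3 + Real.log N)) * (B * (1 + |(j : ℝ)| / (M * L * q))) := by
  obtain ⟨K, hK, HK⟩ := ks 2
  refine ⟨2500 * K, by linarith, ?_⟩
  intro Φ M N y L q _ Θ j B hM hy hL hq hB hN hLq hΘ hy2 hΦ hΦ0 hΦ1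
  have : NeZero L := ⟨by omega⟩
  have : NeZero q := ⟨by omega⟩
  have hN1 : 1 ≤ N := Nat.pos_of_ne_zero (NeZero.ne N)
  have hNr : (1 : ℝ) ≤ N := by exact_mod_cast hN1
  have hlog : 0 ≤ Real.log N := Real.log_nonneg hNr
  rw [shift_sum y (fun x => Fy Φ y L q j x * phi 2 N y Θ j ((x : ℤ) : ZMod N))]
  set W : ℝ := q * (L.divisors.card * (K * 2 ^ N.primeFactors.card * Real.sqrt (N : ℝ) *
        Real.sqrt (Nat.gcd N j.natAbs))) with hW
  have hW0 : 0 ≤ W := by positivity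
  have hyN : y ≤ N := by
    rw [hN, mul_assoc]
    exact Nat.le_mul_of_pos_right _ (Nat.mul_pos hL hq)
  have hS : ∀ k ≤ ny y, ‖∑ i ∈ range k, phi 2 N y Θ j (((10 * (y : ℤ) / 7 + 1 + i : ℤ)) : ZMod N)‖ ≤
      W * (3 + Real.log N) := by
    intro k hk
    have h1 := Pool.Agent.H442R2.KF.Inc.completion N 1 (Nat.coprime_one_right N) (phi 2 N y Θ j) W hW0
      (HK N y L q hN hLq Θ j hΘ) (10 * (y : ℤ) / 7 + 1) k
    have h2 : ∑ i ∈ range k, phi 2 N y Θ j (((10 * (y : ℤ) / 7 + 1 + (1 : ℕ) * i : ℤ)) : ZMod N) =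
        ∑ i ∈ range k, phi 2 N y Θ j (((10 * (y : ℤ) / 7 + 1 + i : ℤ)) : ZMod N) := by
      apply Finset.sum_congr rfl
      intro i _
      congr 2
      push_cast
      ring
    rw [h2] at h1
    refine h1.trans ?_
    apply mul_le_mul_of_nonneg_left _ hW0
    have h3 : (k : ℝ) / N ≤ 1 := by
      rw [div_le_iff₀ (by linarith), one_mul]
      have : ny y ≤ y := by unfold ny; omega
      exact_mod_cast hk.trans (this.trans hyN)
    linarith
  have hab := abel (fun k => Fy Φ y L q j (10 * (y : ℤ) / 7 + 1 + k))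
    (fun k => phi 2 N y Θ j (((10 * (y : ℤ) / 7 + 1 + k : ℤ)) : ZMod N)) (ny y) (W * (3 + Real.log N)) B hS (by
      intro k
      unfold Fy
      rw [norm_mul, norm_e, mul_one]
      exact hΦ _)
  refine hab.trans ?_
  have htv := tv Φ M y L q j B hM hy hL hq hB hy2 hΦ hΦ0 hΦ1
  have hS0 : 0 ≤ W * (3 + Real.log N) := mul_nonneg hW0 (by linarith)
  set J : ℝ := |(j : ℝ)| / (M * L * q) with hJ
  have hJ0 : 0 ≤ J := by positivity
  calc W * (3 + Real.log N) * (B + _) ≤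
      W * (3 + Real.log N) * (B + B * (370 + 2500 * J)) := by
        apply mul_le_mul_of_nonneg_left _ hS0
        linarith
    _ ≤ W * (3 + Real.log N) * (2500 * (B * (1 + J))) := by
        apply mul_le_mul_of_nonneg_left _ hS0
        have := mul_nonneg hB hJ0
        nlinarith
    _ = _ := by rw [hW]; ring

end Pool.Agent.T2h76Q
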